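import Pool.Agent.N748.MO.Stm

set_option autoImplicit false

/-! The distance `d = (log log T)³ / log T`. -/

namespace Pool.Agent.U899.UM

open Finset Filter MeasureTheory Topology
open Pool.Agent.N748.MG Pool.Agent.N748.MO

noncomputable def LL (T : ℝ) : ℝ := Real.log (Real.log T)

noncomputable def dd (T : ℝ) : ℝ := LL T ^ 3 / Real.log T

theorem LL_tendsto : Tendsto LL atTop atTop := Real.tendsto_log_atTop.comp Real.tendsto_log_atTop

theorem LL_exp : ∀ᶠ T : ℝ in atTop, Real.log T = Real.exp (LL T) := by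
  filter_upwards [Real.tendsto_log_atTop.eventually_gt_atTop 0] with T hT
  exact (Real.exp_log hT).symm

theorem dd_exp : ∀ᶠ T : ℝ in atTop, dd T = LL T ^ 3 * Real.exp (-LL T) := by
  filter_upwards [LL_exp] with T hT
  unfold dd
  rw [hT, Real.exp_neg, div_eq_mul_inv]

theorem dd_mul : ∀ᶠ T : ℝ in atTop, dd T * Real.log T = LL T ^ 3 := by
  filter_upwards [Real.tendsto_log_atTop.eventually_gt_atTop 0] with T hT
  unfold dd
  field_simp

theorem log_small : Tendsto (fun L : ℝ => Real.log L / L) atTop (𝓝 0) := by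
  have h := (isLittleO_log_rpow_atTop (r := 1) one_pos).tendsto_div_nhds_zero
  simpa using h

theorem dd_adc : Adc (1 / 2) dd := by
  have hL := LL_tendsto
  refine ⟨⟨?_, ?_, ?_⟩, by norm_num, ?_⟩
  · filter_upwards [dd_exp, hL.eventually_gt_atTop 0] with T h1 h2
    rw [h1]
    positivity
  · have h := (Real.tendsto_pow_mul_exp_neg_atTop_nhds_zero 3).comp hL
    refine h.congr' ?_
    filter_upwards [dd_exp] with T h1
    rw [h1]
    rfl
  · refine tendsto_atTop_mono' atTop ?_ hL
    have hs := (log_small.comp hL).eventually_lt_const (by norm_num : (0:ℝ) < 1 / 6)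
    filter_upwards [dd_exp, dd_mul, hL.eventually_gt_atTop 1, hs] with T h1 h2 h3 h4
    have h0 : 0 < LL T := by linarith
    simp only [Function.comp_apply] at h4
    rw [div_lt_iff₀ h0] at h4
    have h5 : Real.log (1 / dd T) = LL T - 3 * Real.log (LL T) := by
      rw [one_div, Real.log_inv, h1, Real.log_mul (by positivity) (Real.exp_pos _).ne', Real.log_pow, Real.log_exp]
      push_cast
      ring
    have h6 : 0 ≤ Real.log (LL T) := Real.log_nonneg h3.le
    rw [h2, h5, le_div_iff₀ (pow_pos (by linarith) 2)]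
    nlinarith [mul_nonneg h0.le (mul_nonneg h0.le h6), mul_nonneg h0.le (mul_nonneg h6 (by linarith : 0 ≤ LL T - 3 * Real.log (LL T)))]
  · have h := ((tendsto_rpow_mul_exp_neg_mul_atTop_nhds_zero 3 (1 / 2) (by norm_num)).comp hL).eventually_le_const
      (by norm_num : (0:ℝ) < 1)
    filter_upwards [dd_exp, LL_exp, hL.eventually_gt_atTop 0, h] with T h1 h2 h3 h4
    simp only [Function.comp_apply] at h4
    rw [h1, h2, ← Real.exp_mul]
    have e1 : (LL T) ^ (3:ℝ) = LL T ^ 3 := by
      rw [← Real.rpow_natCast]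
      norm_num
    rw [e1] at h4
    have h5 := mul_le_mul_of_nonneg_right h4 (Real.exp_pos (LL T * -(1 / 2))).le
    rw [mul_assoc, ← Real.exp_add, one_mul] at h5
    have e2 : -(1 / 2) * LL T + LL T * -(1 / 2) = -LL T := by ring
    rw [e2] at h5
    exact h5

theorem log_two_add {L : ℝ} (hL : 2 ≤ L) : Real.log (2 + L ^ 3) ≤ 4 * Real.log L ∧ 0 < Real.log (2 + L ^ 3) := by
  constructor
  · have h1 : 2 + L ^ 3 ≤ L ^ 4 := by
      have h2 : 8 ≤ L ^ 3 := by
        have := pow_le_pow_left₀ (by norm_num : (0:ℝ) ≤ 2) hL 3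
        linarith
      nlinarith
    have h2 := Real.log_le_log (by positivity) h1
    rw [Real.log_pow] at h2
    push_cast at h2
    exact h2
  · apply Real.log_pos
    have : 0 < L ^ 3 := by positivity
    linarith

theorem dd_hq : Tendsto (fun T : ℝ => Real.log (2 + dd T * Real.log T) / Real.sqrt (Real.log (Real.log T))) atTop (𝓝 0) := by
  have hL := LL_tendsto
  have h := (((isLittleO_log_rpow_atTop (r := 1 / 2) (by norm_num)).tendsto_div_nhds_zero.comp hL).const_mul 4)
  rw [mul_zero] at h
  refine squeeze_zero' ?_ ?_ h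
  · filter_upwards [dd_mul, hL.eventually_ge_atTop 2] with T h1 h2
    rw [h1]
    exact div_nonneg (log_two_add h2).2.le (Real.sqrt_nonneg _)
  · filter_upwards [dd_mul, hL.eventually_ge_atTop 2] with T h1 h2
    rw [h1]
    change _ / Real.sqrt (LL T) ≤ 4 * (Real.log (LL T) / LL T ^ (1 / 2 : ℝ))
    rw [← Real.sqrt_eq_rpow, ← mul_div_assoc]
    exact div_le_div_of_nonneg_right (log_two_add h2).1 (Real.sqrt_nonneg _)

end Pool.Agent.U899.UM
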