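import Pool.Agent.U899.UM.Uni
import Pool.Agent.N748.OL.Main

set_option autoImplicit false

/-! Universality in the moment measures with the size on the critical line. -/

namespace Pool.Agent.U899.UM

open Finset Filter MeasureTheory Topology Complex UnitAddTorus
open Pool.Agent.N748.MG Pool.Agent.N748.MO Pool.Agent.N748.OL Pool.Agent.N748.OL.AVG
open Pool.Agent.N748.GC (lw M0 E0 HP pt)
open Pool.Agent.U899.TM (tm tm_one small_ev)

theorem lawLine {c : ℝ} {d : ℝ → ℝ} (hA : Adc c d) {k V : ℝ} (hk : 1 ≤ k) (hV : k < V)
    (hq : Tendsto (fun T : ℝ => Real.log (2 + d T * Real.log T) / Real.sqrt (Real.log (Real.log T))) atTop (𝓝 0))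
    {x y : ℝ} (hxy : x < y) :
    Law d k (akR k * (Phi y - Phi x)) fun T => {t : ℝ | t ∈ GT V (d T) T ∧
        (k * Real.log (Real.log T) + x * Real.sqrt (Real.log (Real.log T) / 2) < Real.log (zh t) ∧
        Real.log (zh t) ≤ k * Real.log (Real.log T) + y * Real.sqrt (Real.log (Real.log T) / 2))} where
  meas := by
    filter_upwards [small_ev hA.toAd] with T g
    have hzl : Measurable (fun t => Real.log (zh t)) := Real.measurable_log.comp zh_cont.measurable
    exact (measurableSet_Icc.inter (measurableSet_le (TMA.cont g.2.1).measurable measurable_const)).inter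
      ((measurableSet_lt measurable_const hzl).inter (measurableSet_le hzl measurable_const))
  sub T t ht := ht.1.1
  bd := by
    refine ⟨V * (2 * k), ?_⟩
    filter_upwards [small_ev hA.toAd] with T g t ht
    refine (Real.rpow_le_rpow (TMA.mz_nn _ _) ht.1.2 (by linarith)).trans ?_
    rw [← Real.rpow_mul (by linarith [g.1]), neg_mul]
    exact two_pow_le g.1 (by nlinarith)
  lim P hP F hF := Pool.Agent.U899.TM.OLF.between cprF hP hF hA hk hV hq hxy

end Pool.Agent.U899.UM
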