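import Pool.Agent.U899.UM.Tw
import Pool.Agent.N748.MG.Res

set_option autoImplicit false

/-! The approximation of the powers of zeta, and the size of the diagonal sums. -/

namespace Pool.Agent.U899.UM

open Finset Filter MeasureTheory Topology Complex
open Pool.Agent.N748.MG
open Pool.Agent.N748.MG.DIA2 (ft ft_summable)

theorem dS_real (V : ℝ) (n : ℕ) : ∃ r : ℝ, dS (V : ℂ) n = (r : ℂ) := by
  have h1 : ∀ m : ℕ, ∃ r : ℝ, lC (V : ℂ) m = (r : ℂ) := by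
    intro m
    refine ⟨∏ i ∈ range m, (V + i) / ((i : ℝ) + 1), ?_⟩
    unfold lC
    push_cast
    rfl
  choose f hf using h1
  refine ⟨∏ p ∈ n.primeFactors, f (n.factorization p), ?_⟩
  unfold dS
  rw [Finset.prod_congr rfl fun p _ => hf (n.factorization p)]
  push_cast
  rfl

theorem ft_real (V δ : ℝ) (n : ℕ) : ft (V : ℂ) δ n = ((‖ft (V : ℂ) δ n‖ : ℝ) : ℂ) := by
  rw [ft_norm]
  obtain ⟨r, hr⟩ := dS_real V n
  unfold ft
  rw [hr, Complex.norm_real, Real.norm_eq_abs, sq_abs]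
  push_cast
  rfl

/-- the size of the diagonal sum -/
theorem S2_bd (V : ℝ) : ∃ A0 δ0 : ℝ, 0 < A0 ∧ 0 < δ0 ∧ ∀ δ : ℝ, 0 < δ → δ ≤ δ0 →
    (2 * δ) ^ (V ^ 2) * S2 (V : ℂ) δ ≤ A0 := by
  obtain ⟨δ0, hδ0, h⟩ := DIA2.main |V| (abs_nonneg V) 1 one_pos
  refine ⟨‖aC V‖ + 1, δ0, by positivity, hδ0, fun δ hδ hδ2 => ?_⟩
  have h1 := h δ hδ hδ2 (V : ℂ) (by rw [Complex.norm_real]; exact le_rfl)
  have h2 : (∑' n : ℕ, dS (V : ℂ) n ^ 2 * (((n:ℝ) ^ (-(1 + 2 * δ)) : ℝ) : ℂ)) = ((S2 (V : ℂ) δ : ℝ) : ℂ) := by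
    unfold S2
    rw [Complex.ofReal_tsum]
    refine tsum_congr fun n => ?_
    rw [← ft_real]
    rfl
  have h3 : ((2 * δ : ℝ) : ℂ) ^ ((V : ℂ) ^ 2) = (((2 * δ) ^ (V ^ 2) : ℝ) : ℂ) := by
    rw [Complex.ofReal_cpow (by positivity)]
    push_cast
    rfl
  rw [h2, h3, ← Complex.ofReal_mul] at h1
  have h4 := norm_le_norm_add_norm_sub' ((((2 * δ) ^ (V ^ 2) * S2 (V : ℂ) δ : ℝ)) : ℂ) (aC V)
  rw [Complex.norm_real, Real.norm_eq_abs] at h4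
  have h5 := le_abs_self ((2 * δ) ^ (V ^ 2) * S2 (V : ℂ) δ)
  linarith

theorem app (V D θ : ℝ) (hD : 0 < D) (hθ : 0 < θ) : Ev fun X δ =>
    ∃ (y : ℝ) (K : ℕ) (N : Set ℝ), MeasurableSet N ∧ N ⊆ Set.Icc 0 X ∧
      volume (Set.Icc 0 X \ N) ≤ ENNReal.ofReal (δ ^ D * X) ∧
      (∀ n ∈ FS y K, 1 ≤ n ∧ (n : ℝ) ≤ X ^ θ) ∧ ∑ n ∈ FS y K, ‖dS (V : ℂ) n‖ ≤ X ^ θ ∧
      ∀ t ∈ N, mz δ t ^ (2 * V) ≤ ‖AS (V : ℂ) y K (pw δ t)‖ ^ 2 + δ := by
  obtain ⟨R, hR⟩ : ∃ R : ℝ, R = |V| + 1 := ⟨_, rfl⟩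
  have hR0 : 0 < R := by rw [hR]; positivity
  obtain ⟨ca, hca, hN'⟩ := (NIC.main Inp.zm2 Inp.xsa Inp.mea) D hD
  obtain ⟨Cc, hCc0, hCc⟩ := (CMP.main EUL.main) R hR0.le
  obtain ⟨C0, hC00, hC0⟩ := SIZ.main R hR0.le
  obtain ⟨B, hB⟩ : ∃ B, B = Cc * (ca + 3) := ⟨_, rfl⟩
  have hB0 : 0 < B := by rw [hB]; positivity
  obtain ⟨A, hA⟩ : ∃ A, A = B + 1 := ⟨_, rfl⟩
  have hA0 : 0 < A := by rw [hA]; positivity
  obtain ⟨C, hCd⟩ : ∃ C, C = 5 * (A + B) + (1 + C0) / θ := ⟨_, rfl⟩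
  have hCA : 5 * (A + B) ≤ C := by
    rw [hCd]
    have : 0 ≤ (1 + C0) / θ := by positivity
    linarith
  have hCC0 : (1 + C0) / θ ≤ C := by rw [hCd]; linarith
  have hC0' : 0 < C := by linarith
  refine (hN' C hC0').mono ?_
  rintro X δ hX hδ hδ16 ⟨y, K, N, hy, hy1, hK1, hKX, hv, hNm, hNX, hNv, hNt⟩
  obtain ⟨L, hL⟩ : ∃ L, L = Real.log (1 / δ) := ⟨_, rfl⟩
  have hL1 : 1 ≤ L := by rw [hL]; exact log_inv_ge hδ hδ16
  have hL0 : 0 < L := by linarith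
  have hX0 : (0 : ℝ) < X := by linarith
  have hδ1' : δ ≤ 1 := by linarith
  have hrp : ∀ a : ℝ, δ ^ a = Real.exp (-(a * L)) := fun a => by rw [hL]; exact CM.rpow_eq hδ a
  have hly : 0 < Real.log y := Real.log_pos (by linarith)
  rw [← hL] at hy1 hK1 hv hNt
  have hKly : 0 ≤ (K + 1) * Real.log y := by positivity
  have hexpE : ∀ s : ℝ, s = Cc * (ca * L + 2 * L + 1) → Real.exp s ≤ Real.exp (B * L) := by
    intro s hs
    rw [hs, hB]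
    apply Real.exp_le_exp.2
    nlinarith
  have hK45 : ((4 : ℝ) / 5) ^ K ≤ Real.exp (-((A + B) * L)) := by
    have g1 : (4 : ℝ) / 5 ≤ Real.exp (-(1 / 5)) := by
      have := Real.add_one_le_exp (-(1 / 5 : ℝ))
      linarith
    calc ((4 : ℝ) / 5) ^ K ≤ Real.exp (-(1 / 5)) ^ K := pow_le_pow_left₀ (by norm_num) g1 K
      _ = Real.exp (-(K / 5)) := by
        rw [← Real.exp_nat_mul]
        congr 1
        ring
      _ ≤ _ := by
        apply Real.exp_le_exp.2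
        nlinarith
  have hpt : ∀ t ∈ N, ∀ s : ℂ, ‖s‖ ≤ R →
      ‖((‖riemannZeta (pw δ t)‖ : ℝ) : ℂ) ^ (2 * s) - AS s y K (pw δ t) *
        (starRingEnd ℂ) (AS ((starRingEnd ℂ) s) y K (pw δ t))‖ ≤ δ ^ (1 : ℝ) := by
    intro t ht s hs
    obtain ⟨g1, g2⟩ := hNt t ht
    have hre : 1 / 2 ≤ (pw δ t).re := by
      unfold pw
      simp
      linarith
    have k1 : ‖riemannZeta (pw δ t) * AS (-1) y K (pw δ t) - 1‖ ≤ δ ^ A :=
      g2.trans (Real.rpow_le_rpow_of_exponent_ge hδ hδ1' (by linarith))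
    have k2 : (4 / 5 : ℝ) ^ K * Real.exp (Cc * (ca * L + 2 * L + 1)) ≤ δ ^ A := by
      rw [hrp]
      calc _ ≤ Real.exp (-((A + B) * L)) * Real.exp (B * L) :=
            mul_le_mul hK45 (hexpE _ rfl) (Real.exp_pos _).le (Real.exp_pos _).le
        _ = Real.exp (-(A * L)) := by
          rw [← Real.exp_add]
          congr 1
          ring
    have k3 : δ ^ A * Real.exp (Cc * (ca * L + 2 * L + 1)) ≤ δ ^ (1 : ℝ) := by
      rw [hrp, hrp]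
      calc _ ≤ Real.exp (-(A * L)) * Real.exp (B * L) :=
            mul_le_mul_of_nonneg_left (hexpE _ rfl) (Real.exp_pos _).le
        _ = _ := by
          rw [← Real.exp_add, hA]
          congr 1
          ring
    have k4 : δ ^ (1 : ℝ) ≤ 1 := Real.rpow_le_one hδ.le hδ1' (by positivity)
    exact (hCc y K (pw δ t) (ca * L) (2 * L) (δ ^ A) hy hre g1 hv (Real.rpow_pos_of_pos hδ _) k1 k2
      (k3.trans k4) s hs).trans k3
  have hlen : (1 + C0) * ((K + 1) * Real.log y) ≤ θ * Real.log X := by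
    have h1 : (1 + C0) / θ * ((K + 1) * Real.log y) ≤ Real.log X := (mul_le_mul_of_nonneg_right hCC0 hKly).trans hKX
    rw [div_mul_eq_mul_div, div_le_iff₀ hθ] at h1
    linarith
  have hXθ : X ^ θ = Real.exp (θ * Real.log X) := by
    rw [Real.rpow_def_of_pos hX0, mul_comm]
  have hVR : ‖(V : ℂ)‖ ≤ R := by rw [Complex.norm_real, hR, Real.norm_eq_abs]; linarith
  obtain ⟨s1, s2⟩ := hC0 y hy K
  refine ⟨y, K, N, hNm, hNX, hNv, fun n hn => ⟨(s1 n hn).1, (s1 n hn).2.trans ?_⟩, (s2 (V : ℂ) hVR).trans ?_,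
    fun t ht => ?_⟩
  · rw [hXθ]
    apply Real.exp_le_exp.2
    nlinarith [mul_nonneg hC00.le hKly]
  · rw [hXθ]
    apply Real.exp_le_exp.2
    nlinarith [mul_nonneg hC00.le hKly]
  · have h1 := hpt t ht (V : ℂ) hVR
    rw [Complex.conj_ofReal, mul_conj', Real.rpow_one] at h1
    have h2 : ((‖riemannZeta (pw δ t)‖ : ℝ) : ℂ) ^ (2 * (V : ℂ)) = ((mz δ t ^ (2 * V) : ℝ) : ℂ) := by
      rw [Complex.ofReal_cpow (TMA.mz_nn _ _)]
      push_cast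
      rfl
    rw [h2, ← Complex.ofReal_pow, ← Complex.ofReal_sub, Complex.norm_real, Real.norm_eq_abs] at h1
    linarith [(abs_le.1 h1).2]

end Pool.Agent.U899.UM
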