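import Pool.Agent.U899.UM.Line
import Pool.Agent.U899.UM.Dd

set_option autoImplicit false

/-! The critical line: universality carries the moments and the large values. -/

namespace Pool.Agent.U899.UM

open Finset Filter MeasureTheory Topology Complex UnitAddTorus
open Pool.Agent.N748.MG Pool.Agent.N748.MO Pool.Agent.N748.OL Pool.Agent.N748.OL.AVG
open Pool.Agent.U899.TM (tm tm_one small_ev)

/-- the heights at which zeta is within `ε` of the target -/
def SU (ε : ℝ) (K : Set ℂ) (f : ℂ → ℂ) : Set ℝ := {t : ℝ | ∃ δ < ε, ∀ s ∈ K, ‖riemannZeta (s + t * I) - f s‖ ≤ δ}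

theorem SU_open {K : Set ℂ} (hK : IsCompact K) (hKs : K ⊆ {z | 1 / 2 < z.re ∧ z.re < 1}) {f : ℂ → ℂ}
    (hc : ContinuousOn f K) (ε : ℝ) : IsOpen (SU ε K f) := by
  have := isCompact_iff_compactSpace.1 hK
  have hF : Continuous (fun x : ℝ × K => ‖riemannZeta ((x.2 : ℂ) + x.1 * I) - f x.2‖) := by
    rw [continuous_iff_continuousAt]
    intro x
    refine ContinuousAt.norm (ContinuousAt.sub ?_ ?_)
    · have hne : ((x.2 : ℂ) + x.1 * I) ≠ 1 := by
        intro hh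
        have h1 := congrArg Complex.re hh
        simp at h1
        linarith [(hKs x.2.2).2]
      exact ContinuousAt.comp (f := fun x : ℝ × K => (x.2 : ℂ) + x.1 * I)
        (differentiableAt_riemannZeta hne).continuousAt (by fun_prop)
    · exact ((continuousOn_iff_continuous_domRestrict.1 hc).comp continuous_snd).continuousAt
  rw [isOpen_iff_mem_nhds]
  rintro t0 ⟨δ, hδ, ht⟩
  obtain ⟨δ', h1, h2⟩ := exists_between hδ
  have hev : ∀ᶠ t : ℝ in 𝓝 t0, ∀ z ∈ (Set.univ : Set K),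
      ‖riemannZeta ((z : ℂ) + (t : ℂ) * I) - f z‖ < δ' := by
    refine isCompact_univ.eventually_forall_of_forall_eventually ?_
    intro z _
    exact (hF.continuousAt (x := (t0, z))).eventually
      (gt_mem_nhds (lt_of_le_of_lt (ht z z.2) h1))
  filter_upwards [hev] with t ht'
  exact ⟨δ', h2, fun z hz => (ht' ⟨z, hz⟩ (Set.mem_univ _)).le⟩

/-- the window on the line -/
def Wn (k x y T : ℝ) : Set ℝ := {t : ℝ | k * LL T + x * Real.sqrt (LL T / 2) < Real.log (zh t) ∧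
  Real.log (zh t) ≤ k * LL T + y * Real.sqrt (LL T / 2)}

theorem Wn_meas (k x y T : ℝ) : MeasurableSet (Wn k x y T) := by
  have hzl : Measurable (fun t => Real.log (zh t)) := Real.measurable_log.comp zh_cont.measurable
  exact (measurableSet_lt measurable_const hzl).inter (measurableSet_le hzl measurable_const)

theorem zh_nn (t : ℝ) : 0 ≤ zh t := norm_nonneg _

theorem zh_int (k : ℝ) (hk : 0 ≤ k) (T : ℝ) : IntegrableOn (fun t => zh t ^ (2 * k)) (Set.Icc 0 T) :=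
  (zh_cont.rpow_const fun _ => Or.inr (by linarith)).continuousOn.integrableOn_Icc

theorem level_pos (k x : ℝ) (hk : 1 ≤ k) : ∀ᶠ T : ℝ in atTop, 0 < k * LL T + x * Real.sqrt (LL T / 2) := by
  filter_upwards [LL_tendsto.eventually_gt_atTop (x ^ 2 + 1)] with T hT
  have h0 : 0 < LL T := by nlinarith [sq_nonneg x]
  have h1 : Real.sqrt (LL T / 2) ^ 2 = LL T / 2 := Real.sq_sqrt (by linarith)
  have h2 : LL T ≤ k * LL T := by nlinarith
  nlinarith [sq_nonneg (x + Real.sqrt (LL T / 2)), sq_nonneg x]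

/-- comparison at a good height -/
theorem comp_good {m z η k : ℝ} (hk : 0 < k) (hm : 0 ≤ m) (hz0 : 0 ≤ z) (hz : 0 < Real.log z)
    (h : |Real.log z - Real.log m| ≤ η) : m ^ (2 * k) ≤ Real.exp (2 * k * η) * z ^ (2 * k) := by
  have hz1 : 0 < z := lt_of_le_of_ne hz0 fun e => by rw [← e, Real.log_zero] at hz; exact lt_irrefl _ hz
  rcases hm.eq_or_lt with h0 | h0
  · rw [← h0, Real.zero_rpow (by linarith : 2 * k ≠ 0)]
    positivity
  · have h1 := (abs_le.1 h).1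
    rw [Real.rpow_def_of_pos h0, Real.rpow_def_of_pos hz1, ← Real.exp_add, Real.exp_le_exp]
    nlinarith

theorem line_moment {K : Set ℂ} (hK : IsCompact K) (hKs : K ⊆ {z | 1 / 2 < z.re ∧ z.re < 1}) (hKc : IsConnected Kᶜ)
    {f : ℂ → ℂ} (hc : ContinuousOn f K) (hh : DifferentiableOn ℂ f (interior K)) (h0 : ∀ z ∈ interior K, f z ≠ 0)
    {ε : ℝ} (hε : 0 < ε) {k : ℝ} (hk : 1 ≤ k) {x y : ℝ} (hxy : x < y) {ψ : ℝ → ℝ} (hψ : Tendsto ψ atTop atTop) :
    ∀ᶠ T : ℝ in atTop, T * Real.log T ^ (k ^ 2) * Real.exp (-(ψ T * Real.log (LL T))) ≤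
      ∫ t in {t : ℝ | t ∈ Set.Icc 0 T ∧ t ∈ SU ε K f ∧ t ∈ Wn k x y T}, zh t ^ (2 * k) := by
  have hk0 : 0 < k := by linarith
  have hkV : k < k + 1 := by linarith
  have hLaw := lawLine dd_adc hk hkV dd_hq hxy
  obtain ⟨c, hc0, hev⟩ := univ dd_adc.toAd (mul_pos (aC_akR k).1 (Pool.Agent.U899.TM.OLF.Phi_lt hxy)) hLaw hK hKs hKc hc hh h0 hε
  obtain ⟨η, hη⟩ : ∃ η : ℝ → ℝ, η = fun T => ψ T * Real.log (LL T) / (4 * k) := ⟨_, rfl⟩
  have hηt : Tendsto (fun T : ℝ => η T / Real.log (2 + dd T * Real.log T)) atTop atTop := by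
    have h1 : Tendsto (fun T => ψ T * (1 / (16 * k))) atTop atTop := hψ.atTop_mul_const (by positivity)
    refine tendsto_atTop_mono' atTop ?_ h1
    filter_upwards [dd_mul, LL_tendsto.eventually_ge_atTop 2, hψ.eventually_ge_atTop 0] with T g1 g2 g3
    rw [g1, hη, le_div_iff₀ (log_two_add g2).2]
    have g4 := (log_two_add g2).1
    have g5 := mul_le_mul_of_nonneg_left g4 (by positivity : 0 ≤ ψ T * (1 / (16 * k)))
    refine g5.trans (le_of_eq ?_)
    field_simp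
    ring
  have hcpr := (cprF (1 / 2) dd dd_adc k (k + 1) hk η hηt).eventually_le_const (half_pos hc0)
  have hSm := (SU_open hK hKs hc ε).measurableSet
  filter_upwards [hev, hcpr, hLaw.intg dd_adc.toAd, small_ev dd_adc.toAd, level_pos k x hk, dd_exp, LL_exp,
    LL_tendsto.eventually_ge_atTop (Real.exp 1), hψ.eventually_ge_atTop (2 * (3 * k ^ 2 + k ^ 2 * Real.log 2 + |Real.log (c / 2)|)),
    hLaw.meas]
    with T e1 e2 e3 e4 e5 e6 e7 e8 e9 e10
  obtain ⟨gT, gd, gi⟩ := e3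
  have hL1 : 1 ≤ Real.log (LL T) := by
    rw [Real.le_log_iff_exp_le (by linarith [Real.exp_pos 1])]
    exact e8
  have hL0 : 0 < LL T := lt_of_lt_of_le (Real.exp_pos 1) e8
  obtain ⟨E, hE⟩ : ∃ E : Set ℝ, E = {t : ℝ | t ∈ GT (k + 1) (dd T) T ∧
        (k * Real.log (Real.log T) + x * Real.sqrt (Real.log (Real.log T) / 2) < Real.log (zh t) ∧
        Real.log (zh t) ≤ k * Real.log (Real.log T) + y * Real.sqrt (Real.log (Real.log T) / 2))} := ⟨_, rfl⟩
  obtain ⟨Bd, hBd⟩ : ∃ Bd : Set ℝ, Bd = {t : ℝ | η T < |Real.log (zh t) - Real.log (mz (dd T) t)|} := ⟨_, rfl⟩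
  have hmzm : Measurable (mz (dd T)) := (TMA.cont e4.2.1).measurable
  have hBdm : MeasurableSet Bd := by
    rw [hBd]
    have h1 : Measurable fun t => |Real.log (zh t) - Real.log (mz (dd T) t)| :=
      ((Real.measurable_log.comp zh_cont.measurable).sub (Real.measurable_log.comp hmzm)).abs
    exact measurableSet_lt measurable_const h1
  have hEm : MeasurableSet E := by rw [hE]; exact e10
  rw [← hE] at gi
  have hA : {t : ℝ | t ∈ E ∧ t ∈ SU ε K f} = E ∩ SU ε K f := rfl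
  have e1' : c ≤ (2 * dd T) ^ (k ^ 2) * ((1 / T) * ∫ t in E ∩ SU ε K f, mz (dd T) t ^ (2 * k)) := by
    rw [← hA, hE]
    exact e1
  have hiA : IntegrableOn (fun t => mz (dd T) t ^ (2 * k)) (E ∩ SU ε K f) := gi.mono_set Set.inter_subset_left
  have hsplit := integral_inter_add_sdiff hBdm hiA
  have n0 : ∀ t, 0 ≤ mz (dd T) t ^ (2 * k) := fun t => Real.rpow_nonneg (TMA.mz_nn _ _) _
  have s1 : ∫ t in E ∩ SU ε K f ∩ Bd, mz (dd T) t ^ (2 * k) ≤
      ∫ t in {t : ℝ | t ∈ GT (k + 1) (dd T) T ∧ η T < |Real.log (zh t) - Real.log (mz (dd T) t)|}, mz (dd T) t ^ (2 * k) := by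
    refine setIntegral_mono_set ?_ (ae_restrict_of_ae (Eventually.of_forall n0)) (Eventually.of_forall fun t ht => ?_)
    · exact (Pool.Agent.U899.TM.OLF.powInt (by linarith [e4.2.1]) hk0.le T).mono_set fun t ht => ht.1.1
    · obtain ⟨⟨ht1, -⟩, ht2⟩ := ht
      rw [hE] at ht1
      rw [hBd] at ht2
      exact ⟨ht1.1, ht2⟩
  have hc1 : 0 ≤ (2 * dd T) ^ (k ^ 2) * (1 / T) := by positivity
  have s2 : c / 2 ≤ (2 * dd T) ^ (k ^ 2) * (1 / T) * ∫ t in (E ∩ SU ε K f) \ Bd, mz (dd T) t ^ (2 * k) := by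
    have := mul_le_mul_of_nonneg_left s1 hc1
    rw [← hsplit] at e1'
    nlinarith
  have hGm : MeasurableSet ((E ∩ SU ε K f) \ Bd) := (hEm.inter hSm).diff hBdm
  have hEI : E ⊆ Set.Icc 0 T := fun t ht => by rw [hE] at ht; exact ht.1.1
  have zi := zh_int k hk0.le T
  have s3 : ∫ t in (E ∩ SU ε K f) \ Bd, mz (dd T) t ^ (2 * k) ≤
      ∫ t in (E ∩ SU ε K f) \ Bd, Real.exp (2 * k * η T) * zh t ^ (2 * k) := by
    refine setIntegral_mono_on (hiA.mono_set Set.sdiff_subset)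
      ((zi.mono_set fun t ht => hEI ht.1.1).const_mul _) hGm fun t ht => ?_
    obtain ⟨⟨ht1, -⟩, ht2⟩ := ht
    rw [hE] at ht1
    rw [hBd, Set.mem_ofPred_eq, not_lt] at ht2
    exact comp_good hk0 (TMA.mz_nn _ _) (zh_nn t) (lt_trans e5 ht1.2.1) ht2
  rw [integral_const_mul] at s3
  have s4 : ∫ t in (E ∩ SU ε K f) \ Bd, zh t ^ (2 * k) ≤
      ∫ t in {t : ℝ | t ∈ Set.Icc 0 T ∧ t ∈ SU ε K f ∧ t ∈ Wn k x y T}, zh t ^ (2 * k) := by
    refine setIntegral_mono_set (zi.mono_set fun t ht => ht.1)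
      (ae_restrict_of_ae (Eventually.of_forall fun t => Real.rpow_nonneg (zh_nn t) _)) (Eventually.of_forall fun t ht => ?_)
    obtain ⟨⟨ht1, ht3⟩, -⟩ := ht
    have h1 := hEI ht1
    rw [hE] at ht1
    exact ⟨h1, ht3, ht1.2⟩
  obtain ⟨Z, hZ⟩ : ∃ Z : ℝ, Z = ∫ t in {t : ℝ | t ∈ Set.Icc 0 T ∧ t ∈ SU ε K f ∧ t ∈ Wn k x y T}, zh t ^ (2 * k) := ⟨_, rfl⟩
  rw [← hZ] at s4 ⊢
  have s5 : c / 2 ≤ (2 * dd T) ^ (k ^ 2) * (1 / T) * (Real.exp (2 * k * η T) * Z) :=
    s2.trans (mul_le_mul_of_nonneg_left (s3.trans (mul_le_mul_of_nonneg_left s4 (Real.exp_pos _).le)) hc1)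
  have h2d : (2 * dd T) ^ (k ^ 2) = Real.exp (k ^ 2 * Real.log 2 + 3 * k ^ 2 * Real.log (LL T) - k ^ 2 * LL T) := by
    rw [Real.rpow_def_of_pos (by linarith), e6]
    congr 1
    rw [Real.log_mul (by norm_num) (by positivity), Real.log_mul (by positivity) (Real.exp_pos _).ne', Real.log_pow,
      Real.log_exp]
    push_cast
    ring
  have hlT : Real.log T ^ (k ^ 2) = Real.exp (k ^ 2 * LL T) := by
    rw [e7, ← Real.exp_mul, mul_comm]
  have hη2 : 2 * k * η T = ψ T * Real.log (LL T) / 2 := by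
    rw [hη]
    field_simp
    ring
  have hc2 : Real.exp (Real.log (c / 2)) = c / 2 := Real.exp_log (half_pos hc0)
  rw [h2d, hη2, ← hc2] at s5
  rw [hlT]
  have s6 : T * Real.exp (Real.log (c / 2) - (k ^ 2 * Real.log 2 + 3 * k ^ 2 * Real.log (LL T) - k ^ 2 * LL T) -
      ψ T * Real.log (LL T) / 2) ≤ Z := by
    rw [Real.exp_sub, Real.exp_sub]
    have e : Real.exp (k ^ 2 * Real.log 2 + 3 * k ^ 2 * Real.log (LL T) - k ^ 2 * LL T) * (1 / T) *
        (Real.exp (ψ T * Real.log (LL T) / 2) * Z) = Real.exp (k ^ 2 * Real.log 2 + 3 * k ^ 2 * Real.log (LL T) - k ^ 2 * LL T) *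
        Real.exp (ψ T * Real.log (LL T) / 2) * Z / T := by ring
    rw [e, le_div_iff₀ gT] at s5
    rw [div_div, mul_div_assoc', div_le_iff₀ (mul_pos (Real.exp_pos _) (Real.exp_pos _))]
    linarith
  refine le_trans ?_ s6
  rw [mul_assoc, ← Real.exp_add]
  refine mul_le_mul_of_nonneg_left (Real.exp_le_exp.2 ?_) gT.le
  have a1 := neg_abs_le (Real.log (c / 2))
  have a2 : 0 ≤ k ^ 2 * Real.log 2 := by positivity
  have a3 : 0 ≤ |Real.log (c / 2)| := abs_nonneg _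
  nlinarith [mul_le_mul_of_nonneg_right e9 (by linarith : 0 ≤ Real.log (LL T)), mul_nonneg a2 (by linarith : 0 ≤ Real.log (LL T) - 1),
    mul_nonneg a3 (by linarith : 0 ≤ Real.log (LL T) - 1)]

end Pool.Agent.U899.UM
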