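import Pool.Agent.U899.UM.Cor

set_option autoImplicit false

/-! The critical line: large values at universal heights. -/

namespace Pool.Agent.U899.UM

open Finset Filter MeasureTheory Topology Complex UnitAddTorus
open Pool.Agent.N748.MG Pool.Agent.N748.MO Pool.Agent.N748.OL Pool.Agent.N748.OL.AVG

theorem log_sq_small {e : ℝ} (he : 0 < e) : ∀ᶠ L : ℝ in atTop, Real.log L * Real.log L ≤ e * Real.sqrt L := by
  have h := (isLittleO_log_rpow_atTop (r := 1 / 4) (by norm_num)).bound (Real.sqrt_pos.2 he)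
  filter_upwards [h, eventually_ge_atTop 1] with L h1 h2
  have h3 : 0 ≤ Real.log L := Real.log_nonneg h2
  rw [Real.norm_of_nonneg h3, Real.norm_of_nonneg (by positivity)] at h1
  have h4 := mul_le_mul h1 h1 h3 (by positivity)
  refine h4.trans (le_of_eq ?_)
  have e1 : L ^ (1 / 4 : ℝ) * L ^ (1 / 4 : ℝ) = Real.sqrt L := by
    rw [← Real.rpow_add (by linarith), Real.sqrt_eq_rpow]
    norm_num
  have e2 := Real.mul_self_sqrt he.le
  calc Real.sqrt e * L ^ (1 / 4 : ℝ) * (Real.sqrt e * L ^ (1 / 4 : ℝ)) =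
      (Real.sqrt e * Real.sqrt e) * (L ^ (1 / 4 : ℝ) * L ^ (1 / 4 : ℝ)) := by ring
    _ = e * Real.sqrt L := by rw [e1, e2]

theorem line_large {K : Set ℂ} (hK : IsCompact K) (hKs : K ⊆ {z | 1 / 2 < z.re ∧ z.re < 1}) (hKc : IsConnected Kᶜ)
    {f : ℂ → ℂ} (hc : ContinuousOn f K) (hh : DifferentiableOn ℂ f (interior K)) (h0 : ∀ z ∈ interior K, f z ≠ 0)
    {ε : ℝ} (hε : 0 < ε) {k : ℝ} (hk : 1 ≤ k) {η : ℝ} (hη : 0 < η) :
    ∀ᶠ T : ℝ in atTop, T * Real.log T ^ (-(k ^ 2)) * Real.exp (-(η * Real.sqrt (LL T))) ≤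
      volume.real {t : ℝ | t ∈ Set.Icc 0 T ∧ t ∈ SU ε K f ∧ Real.log T ^ k ≤ zh t ∧
        zh t ≤ Real.log T ^ k * Real.exp (η * Real.sqrt (LL T))} := by
  have hk0 : 0 < k := by linarith
  obtain ⟨y, hy⟩ : ∃ y : ℝ, y = η / (4 * k) := ⟨_, rfl⟩
  have hy0 : 0 < y := by rw [hy]; positivity
  have hyη : y ≤ η := by
    rw [hy, div_le_iff₀ (by positivity)]
    nlinarith
  have hlog : Tendsto (fun T => Real.log (LL T)) atTop atTop := Real.tendsto_log_atTop.comp LL_tendsto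
  have key := line_moment hK hKs hKc hc hh h0 hε hk hy0 hlog
  filter_upwards [key, LL_exp, LL_tendsto.eventually_gt_atTop 0, LL_tendsto.eventually (log_sq_small (half_pos hη)),
    eventually_gt_atTop 0] with T e1 e2 e3 e4 e5
  obtain ⟨G, hG⟩ : ∃ G : Set ℝ, G = {t : ℝ | t ∈ Set.Icc 0 T ∧ t ∈ SU ε K f ∧ t ∈ Wn k 0 y T} := ⟨_, rfl⟩
  obtain ⟨H, hH⟩ : ∃ H : Set ℝ, H = {t : ℝ | t ∈ Set.Icc 0 T ∧ t ∈ SU ε K f ∧ Real.log T ^ k ≤ zh t ∧
        zh t ≤ Real.log T ^ k * Real.exp (η * Real.sqrt (LL T))} := ⟨_, rfl⟩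
  rw [← hG] at e1
  rw [← hH]
  have hs0 : 0 ≤ Real.sqrt (LL T / 2) := Real.sqrt_nonneg _
  have hs1 : Real.sqrt (LL T / 2) ≤ Real.sqrt (LL T) := Real.sqrt_le_sqrt (by linarith)
  have hzp : ∀ t ∈ G, 0 < zh t ∧ k * LL T < Real.log (zh t) ∧ Real.log (zh t) ≤ k * LL T + y * Real.sqrt (LL T / 2) := by
    intro t ht
    rw [hG] at ht
    obtain ⟨-, -, h1, h2⟩ := ht
    rw [zero_mul, add_zero] at h1
    have h3 : 0 < Real.log (zh t) := lt_trans (by positivity) h1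
    exact ⟨lt_of_le_of_ne (zh_nn t) fun e => by rw [← e, Real.log_zero] at h3; exact lt_irrefl _ h3, h1, h2⟩
  have hlk : Real.log T ^ k = Real.exp (k * LL T) := by rw [e2, ← Real.exp_mul, mul_comm]
  have hGH : G ⊆ H := by
    intro t ht
    obtain ⟨h1, h2, h3⟩ := hzp t ht
    rw [hG] at ht
    rw [hH]
    refine ⟨ht.1, ht.2.1, ?_, ?_⟩
    · rw [hlk, ← Real.exp_log h1, Real.exp_le_exp]
      exact h2.le
    · rw [hlk, ← Real.exp_add, ← Real.exp_log h1, Real.exp_le_exp]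
      have := mul_le_mul hyη hs1 hs0 hη.le
      linarith
  have hGf : volume G < ⊤ := lt_of_le_of_lt (measure_mono (fun t ht => by rw [hG] at ht; exact ht.1 : G ⊆ Set.Icc 0 T)) (by simp)
  have hHf : volume H < ⊤ := lt_of_le_of_lt (measure_mono (fun t ht => by rw [hH] at ht; exact ht.1 : H ⊆ Set.Icc 0 T)) (by simp)
  have hb := norm_setIntegral_le_of_norm_le_const (μ := volume) (s := G) (f := fun t => zh t ^ (2 * k))
    (C := Real.exp (2 * k * (k * LL T + y * Real.sqrt (LL T / 2)))) hGf (fun t ht => by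
      obtain ⟨h1, h2, h3⟩ := hzp t ht
      rw [Real.norm_of_nonneg (Real.rpow_nonneg (zh_nn t) _), Real.rpow_def_of_pos h1, Real.exp_le_exp]
      nlinarith)
  rw [Real.norm_of_nonneg (integral_nonneg fun t => Real.rpow_nonneg (zh_nn t) _)] at hb
  have hv : volume.real G ≤ volume.real H := measureReal_mono hGH hHf.ne
  have h5 := e1.trans (hb.trans (mul_le_mul_of_nonneg_left hv (Real.exp_pos _).le))
  have hl1 : Real.log T ^ (k ^ 2) = Real.exp (k ^ 2 * LL T) := by rw [e2, ← Real.exp_mul, mul_comm]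
  have hl2 : Real.log T ^ (-(k ^ 2)) = Real.exp (-(k ^ 2) * LL T) := by rw [e2, ← Real.exp_mul, mul_comm]
  rw [hl1] at h5
  rw [hl2]
  obtain ⟨v, hv⟩ : ∃ v : ℝ, v = volume.real H := ⟨_, rfl⟩
  rw [← hv] at h5 ⊢
  have h6 : T * Real.exp (k ^ 2 * LL T - Real.log (LL T) * Real.log (LL T) - 2 * k * (k * LL T + y * Real.sqrt (LL T / 2))) ≤ v := by
    rw [Real.exp_sub, mul_div_assoc', div_le_iff₀ (Real.exp_pos _), sub_eq_add_neg, Real.exp_add]
    linarith
  refine le_trans ?_ h6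
  rw [mul_assoc, ← Real.exp_add]
  refine mul_le_mul_of_nonneg_left (Real.exp_le_exp.2 ?_) e5.le
  have h7 : 2 * k * (y * Real.sqrt (LL T / 2)) ≤ η / 2 * Real.sqrt (LL T) := by
    have e : 2 * k * (y * Real.sqrt (LL T / 2)) = η / 2 * Real.sqrt (LL T / 2) := by
      rw [hy]
      field_simp
      ring
    rw [e]
    exact mul_le_mul_of_nonneg_left hs1 (by linarith)
  nlinarith

end Pool.Agent.U899.UM
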