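import Pool.Agent.U899.UM.Tail

set_option autoImplicit false

/-! The Euler products approximate zeta in the strip outside sets of small mass in the moment measures: the theorem. -/

namespace Pool.Agent.U899.UM

open Finset Filter MeasureTheory Topology Complex
open Pool.Agent.N748.MG
open ZU (DN rect pr EM)
open ZU.J_c3a (pr_pos)

theorem floor_tendsto {θ : ℝ} (hθ : 0 < θ) : Tendsto (fun X : ℝ => ((⌊X ^ θ⌋₊ : ℕ) : ℝ)) atTop atTop :=
  tendsto_natCast_atTop_atTop.comp (tendsto_nat_floor_atTop.comp (tendsto_rpow_atTop hθ))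

theorem tail (V : ℝ) {a b B : ℝ} (h1 : 1 / 2 < a) (h2 : a ≤ b) (h3 : b < 1) (hB : 0 < B) (C1 : ℝ) {ε ρ : ℝ}
    (hε : 0 < ε) (hρ : 0 < ρ) : ∃ M0 : ℕ, ∀ M : ℕ, M0 ≤ M → Ev fun X δ => ∀ E : Set ℝ, MeasurableSet E →
      E ⊆ Set.Icc 0 X → (∀ t ∈ E, mz δ t ^ (2 * V) ≤ δ ^ (-C1)) →
      (2 * δ) ^ (V ^ 2) * ∫ t in {t : ℝ | t ∈ E ∧ ρ < JM a b B M t}, mz δ t ^ (2 * V) ≤ ε * X := by
  obtain ⟨k0, hk0⟩ : ∃ k0 : ℕ, k0 = ⌈|V|⌉₊ + 1 := ⟨_, rfl⟩
  have hk1 : 1 ≤ k0 := by omega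
  have hVk : |V| ≤ k0 := by
    rw [hk0]
    push_cast
    linarith [Nat.le_ceil |V|]
  obtain ⟨Cg, hCg, hq⟩ := q_bound k0 hk1 h1
  obtain ⟨A0, δ0, hA0, hδ0, hS⟩ := S2_bd V
  obtain ⟨ω, hω, hr⟩ := r_bound h1 h2 h3 hB (θ := 1 / 100) (by norm_num) (by norm_num)
  obtain ⟨ar, har⟩ : ∃ ar : ℝ, ar = (b - a) * (2 * B) := ⟨_, rfl⟩
  have har0 : 0 ≤ ar := by rw [har]; exact mul_nonneg (by linarith) (by linarith)
  obtain ⟨Λ, hΛ⟩ : ∃ Λ : ℝ, Λ = 4 / ρ * ar + 1 := ⟨_, rfl⟩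
  have hΛ0 : 0 < Λ := by rw [hΛ]; positivity
  have hΛ1 : 4 / ρ * ar ≤ Λ := by rw [hΛ]; linarith
  have hpow : Tendsto (fun x : ℝ => x ^ (-(a - 1 / 2))) atTop (𝓝 0) := tendsto_rpow_neg_atTop (by linarith)
  have hMt : ∀ᶠ M : ℕ in atTop, Λ * 2 * Cg * A0 * (M : ℝ) ^ (-(a - 1 / 2)) ≤ ε / 16 := by
    have := (hpow.comp tendsto_natCast_atTop_atTop).const_mul (Λ * 2 * Cg * A0)
    rw [mul_zero] at this
    exact this.eventually_le_const (by positivity)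
  obtain ⟨M1, hM1⟩ := eventually_atTop.1 hMt
  refine ⟨max M1 1, fun M hM => ?_⟩
  have hMa := hM1 M ((le_max_left _ _).trans hM)
  have hMb : 1 ≤ M := (le_max_right _ _).trans hM
  obtain ⟨Bq, hBq⟩ : ∃ Bq : ℝ, Bq = ((2 : ℝ) ^ (pr M).card) ^ 2 := ⟨_, rfl⟩
  have hBq0 : 0 < Bq := by rw [hBq]; positivity
  obtain ⟨P, hP⟩ : ∃ P : ℕ, P = ∏ p ∈ pr M, p := ⟨_, rfl⟩
  have hP1 : 1 ≤ P := by rw [hP]; exact pr_pos (Finset.Subset.refl _)
  -- the eventual inequalities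
  have eN : ∀ᶠ X : ℝ in atTop, Λ * 2 * Bq * Cg * A0 * ((⌊X ^ ((1:ℝ) / 100)⌋₊ : ℕ) : ℝ) ^ (-(a - 1 / 2)) ≤ ε / 16 := by
    have := (hpow.comp (floor_tendsto (θ := 1 / 100) (by norm_num))).const_mul (Λ * 2 * Bq * Cg * A0)
    rw [mul_zero] at this
    exact this.eventually_le_const (by positivity)
  have eX := ev_rpow (Λ * 2 * (1 + Bq * (P:ℝ) ^ 5) * 8) ((8:ℝ) / 100) 1 (ε / 16) (by norm_num) (by positivity)
  have eN1 : ∀ᶠ X : ℝ in atTop, 1 ≤ ((⌊X ^ ((1:ℝ) / 100)⌋₊ : ℕ) : ℝ) :=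
    (floor_tendsto (θ := 1 / 100) (by norm_num)).eventually_ge_atTop 1
  have hEv := ((((((app V (|C1| + 1) (1 / 100) (by positivity) (by norm_num)).and (Ev.of_ev hr)).and
    (Ev.win (D := C1) (c := ε / 16 / (Λ * Bq)) (e := ω) (by positivity) hω)).and (Ev.of_le hδ0)).and
    (Ev.of_le (d := ε / 16) (by positivity))).and (Ev.of_ev eN)).and (Ev.of_ev (eX.and eN1))
  refine hEv.mono ?_
  rintro X δ hX hδ hδ16 ⟨⟨⟨⟨⟨⟨⟨y, K, N', hNm, hNX, hNv, hF, hSg, hap⟩, hr⟩, hwin⟩, hδa⟩, hδb⟩, hN⟩, hX2, hN1⟩ E hEm hEX hEb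
  have hX0 : 0 < X := by linarith
  have hδ1 : δ ≤ 1 := by linarith
  obtain ⟨N, hNd⟩ : ∃ N : ℕ, N = ⌊X ^ ((1:ℝ) / 100)⌋₊ := ⟨_, rfl⟩
  rw [← hNd] at hN hN1
  have hN1' : 1 ≤ N := by exact_mod_cast hN1
  obtain ⟨Y, hY⟩ : ∃ Y : ℝ, Y = X ^ ((1:ℝ) / 100) := ⟨_, rfl⟩
  rw [← hY] at hF hSg
  have hY0 : 0 < Y := by rw [hY]; exact Real.rpow_pos_of_pos hX0 _
  have hNY : (N : ℝ) ≤ Y := by rw [hNd, ← hY]; exact Nat.floor_le hY0.le
  have hY8 : Y ^ 8 = X ^ ((8:ℝ) / 100) := by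
    rw [hY, ← Real.rpow_natCast, ← Real.rpow_mul hX0.le]
    norm_num
  obtain ⟨S2v, hS2v⟩ : ∃ S2v : ℝ, S2v = S2 (V : ℂ) δ := ⟨_, rfl⟩
  have hS2n : 0 ≤ S2v := by rw [hS2v]; exact S2_nonneg _ _
  obtain ⟨c, hc⟩ : ∃ c : ℝ, c = (2 * δ) ^ (V ^ 2) := ⟨_, rfl⟩
  have hc0 : 0 ≤ c := by rw [hc]; positivity
  have hc1 : c ≤ 1 := by
    rw [hc]
    exact Real.rpow_le_one (by linarith) (by linarith) (sq_nonneg V)
  have hcS : c * S2v ≤ A0 := by rw [hc, hS2v]; exact hS δ hδ hδa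
  rw [← hc]
  -- the integrals of the errors
  obtain ⟨J1, hJ1⟩ : ∃ J1 : ℝ → ℝ, J1 = fun t : ℝ => ∫ w in rect a b B, ‖DN N (w + t * I) * EM M (fun _ => 1) (w + t * I) - 1‖ ^ 2 :=
    ⟨_, rfl⟩
  obtain ⟨J2, hJ2⟩ : ∃ J2 : ℝ → ℝ, J2 = fun t : ℝ => ∫ w in rect a b B,
    ‖(riemannZeta (w + t * I) - DN N (w + t * I)) * EM M (fun _ => 1) (w + t * I)‖ ^ 2 := ⟨_, rfl⟩
  obtain ⟨q, hqd⟩ : ∃ q : ℝ → ℝ, q = fun t : ℝ => ‖AS (V : ℂ) y K (pw δ t)‖ ^ 2 := ⟨_, rfl⟩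
  have hqc : Continuous q := by rw [hqd]; exact (AS_cont _ _ _ _).norm.pow 2
  have hq0 : ∀ t, 0 ≤ q t := fun t => by rw [hqd]; positivity
  obtain ⟨VT, hVT⟩ : ∃ VT : ℝ, VT = 2 * (X * (Cg * (M:ℝ) ^ (-(a - 1 / 2)) * S2v) + (N:ℝ) ^ 5 * (8 * Y * Y ^ 2)) +
        2 * (Bq * (X * (Cg * (N:ℝ) ^ (-(a - 1 / 2)) * S2v) +
          ((N * P : ℕ) : ℝ) ^ 5 * (8 * Y * Y ^ 2))) := ⟨_, rfl⟩
  obtain ⟨f1, f2⟩ := ZU.fubini_bound a b B h2 hB (fun z : ℂ => DN N z * EM M (fun _ => 1) z - 1) (G1_cont M N) q hqc X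
    hX0.le VT (fun w hw => by
      rw [hqd, hVT, hS2v, hBq, hP]
      exact hq V hVk y K Y hF hY0.le hSg δ X hδ (by linarith) hX0.le M N hMb hN1' w hw.1)
  obtain ⟨g1, g2⟩ := ZU.fubini_bound a b B h2 hB (fun z : ℂ => (riemannZeta z - DN N z) * EM M (fun _ => 1) z)
    (G2_cont h3 M N) (fun _ => 1) continuous_const X hX0.le (Bq * X ^ (1 - ω)) (fun w hw => by
      simp only [one_mul]
      rw [hBq, hNd]
      exact hr M w hw)
  have f2' : ∫ t in (0:ℝ)..X, q t * J1 t ≤ ar * VT := by rw [hJ1, har]; exact f2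
  have g2' : ∫ t in (0:ℝ)..X, J2 t ≤ ar * (Bq * X ^ (1 - ω)) := by
    rw [hJ2, har]
    simp only [one_mul] at g2
    exact g2
  have f1' : Continuous J1 := by rw [hJ1]; exact f1
  have g1' : Continuous J2 := by rw [hJ2]; exact g1
  have hJ1n : ∀ t, 0 ≤ J1 t := fun t => by rw [hJ1]; exact integral_nonneg fun w => by positivity
  have hJ2n : ∀ t, 0 ≤ J2 t := fun t => by rw [hJ2]; exact integral_nonneg fun w => by positivity
  have hJMc : Continuous fun t => JM a b B M t := (ZU.fubini_bound a b B h2 hB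
    (fun z : ℂ => riemannZeta z * EM M (fun _ => 1) z - 1) (G0_cont h3 M) (fun _ => 0) continuous_const X hX0.le 0
    (fun w hw => by simp)).1
  have hsplit : ∀ t, JM a b B M t ≤ 2 * J1 t + 2 * J2 t := fun t => by rw [hJ1, hJ2]; exact J_split h3 M N t
  -- the majorant
  obtain ⟨W, hW⟩ : ∃ W : ℝ, W = δ ^ (-C1) := ⟨_, rfl⟩
  have hW0 : 0 < W := by rw [hW]; exact Real.rpow_pos_of_pos hδ _
  rw [← hW] at hwin
  obtain ⟨g, hg⟩ : ∃ g : ℝ → ℝ, g = fun t : ℝ => (((N'ᶜ).indicator (fun _ => W) t + W * (4 / ρ * J2 t)) +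
    4 / ρ * (q t * J1 t)) + δ := ⟨_, rfl⟩
  have hgn : ∀ t, 0 ≤ g t := by
    intro t
    have h5 : 0 ≤ (N'ᶜ).indicator (fun _ => W) t := Set.indicator_nonneg (fun _ _ => hW0.le) t
    have h6 := hJ1n t
    have h7 := hJ2n t
    have h8 := hq0 t
    rw [hg]
    positivity
  obtain ⟨S, hSd⟩ : ∃ S : Set ℝ, S = {t : ℝ | t ∈ E ∧ ρ < JM a b B M t} := ⟨_, rfl⟩
  rw [← hSd]
  have hSm : MeasurableSet S := by
    rw [hSd]
    exact hEm.inter (measurableSet_lt measurable_const hJMc.measurable)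
  have hSX : S ⊆ Set.Icc 0 X := by rw [hSd]; exact fun t ht => hEX ht.1
  have hle : ∀ t ∈ S, mz δ t ^ (2 * V) ≤ g t := by
    intro t ht
    rw [hSd] at ht
    obtain ⟨ht1, ht2⟩ := ht
    have h5 := hEb t ht1
    rw [← hW] at h5
    have h6 := hJ1n t
    have h7 := hJ2n t
    have h8 := hq0 t
    rw [hg]
    simp only
    by_cases hN' : t ∈ N'
    · rw [Set.indicator_of_notMem (Set.notMem_compl_iff.2 hN')]
      have h9 := hap t hN'
      have h10 := ht2.trans_le (hsplit t)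
      rcases lt_or_ge (ρ / 4) (J2 t) with h11 | h11
      · have h12 : 1 ≤ 4 / ρ * J2 t := by
          rw [div_mul_eq_mul_div, le_div_iff₀ hρ]
          linarith
        have h13 : W ≤ W * (4 / ρ * J2 t) := le_mul_of_one_le_right hW0.le h12
        have h14 : 0 ≤ 4 / ρ * (q t * J1 t) := by positivity
        linarith
      · have h12 : 1 ≤ 4 / ρ * J1 t := by
          rw [div_mul_eq_mul_div, le_div_iff₀ hρ]
          linarith
        have h13 : q t ≤ q t * (4 / ρ * J1 t) := le_mul_of_one_le_right h8 h12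
        have h14 : 0 ≤ W * (4 / ρ * J2 t) := by positivity
        have h15 : mz δ t ^ (2 * V) ≤ q t + δ := by rw [hqd]; exact h9
        have h16 : 4 / ρ * (q t * J1 t) = q t * (4 / ρ * J1 t) := by ring
        rw [h16]
        linarith
    · rw [Set.indicator_of_mem (show t ∈ N'ᶜ from hN')]
      have h13 : 0 ≤ W * (4 / ρ * J2 t) := by positivity
      have h14 : 0 ≤ 4 / ρ * (q t * J1 t) := by positivity
      linarith
  have hvol : volume (Set.Icc 0 X) < ⊤ := by rw [Real.volume_Icc]; exact ENNReal.ofReal_lt_top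
  have hIi : IntegrableOn ((N'ᶜ).indicator (fun _ => W)) (Set.Icc 0 X) := by
    have h5 : IntegrableOn (fun _ : ℝ => W) (Set.Icc 0 X) := integrableOn_const hvol.ne
    exact h5.indicator hNm.compl
  have hI2 : IntegrableOn (fun t => W * (4 / ρ * J2 t)) (Set.Icc 0 X) :=
    (continuous_const.mul (continuous_const.mul g1')).continuousOn.integrableOn_Icc
  have hI1 : IntegrableOn (fun t => 4 / ρ * (q t * J1 t)) (Set.Icc 0 X) :=
    (continuous_const.mul (hqc.mul f1')).continuousOn.integrableOn_Icc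
  have hI0 : IntegrableOn (fun _ : ℝ => δ) (Set.Icc 0 X) := integrableOn_const hvol.ne
  have hIa : IntegrableOn (fun t => (N'ᶜ).indicator (fun _ => W) t + W * (4 / ρ * J2 t)) (Set.Icc 0 X) := hIi.add hI2
  have hIb : IntegrableOn (fun t => ((N'ᶜ).indicator (fun _ => W) t + W * (4 / ρ * J2 t)) + 4 / ρ * (q t * J1 t))
    (Set.Icc 0 X) := hIa.add hI1
  have hgi : IntegrableOn g (Set.Icc 0 X) := by
    rw [hg]
    exact hIb.add hI0
  have hfi : IntegrableOn (fun t => mz δ t ^ (2 * V)) S := by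
    refine Measure.integrableOn_of_bounded (M := W) ((measure_mono hSX).trans_lt hvol).ne
      ((TMA.cont hδ16).measurable.pow_const _).aestronglyMeasurable ?_
    filter_upwards [ae_restrict_mem hSm] with t ht
    rw [Real.norm_of_nonneg (Real.rpow_nonneg (TMA.mz_nn _ _) _), hW]
    rw [hSd] at ht
    exact hEb t ht.1
  have s1 : ∫ t in S, mz δ t ^ (2 * V) ≤ ∫ t in Set.Icc 0 X, g t :=
    (setIntegral_mono_on hfi (hgi.mono_set hSX) hSm hle).trans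
      (setIntegral_mono_set hgi (Eventually.of_forall hgn) (LE.le.eventuallyLE hSX))
  have s2 : ∫ t in Set.Icc 0 X, g t = (((∫ t in Set.Icc 0 X, (N'ᶜ).indicator (fun _ => W) t) +
      W * (4 / ρ * ∫ t in (0:ℝ)..X, J2 t)) + 4 / ρ * ∫ t in (0:ℝ)..X, q t * J1 t) + δ * X := by
    rw [hg, integral_add hIb hI0, integral_add hIa hI1, integral_add hIi hI2,
      integral_const_mul, integral_const_mul, integral_const_mul, setIntegral_const,
      intervalIntegral.integral_of_le hX0.le, intervalIntegral.integral_of_le hX0.le,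
      ← integral_Icc_eq_integral_Ioc, ← integral_Icc_eq_integral_Ioc]
    congr 1
    rw [Measure.real, Real.volume_Icc, ENNReal.toReal_ofReal (by linarith), smul_eq_mul]
    ring
  have s3 : ∫ t in Set.Icc 0 X, (N'ᶜ).indicator (fun _ => W) t ≤ δ * X := by
    have h5 : ∫ t in Set.Icc 0 X, (N'ᶜ).indicator (fun _ => W) t = (volume (Set.Icc 0 X \ N')).toReal * W := by
      rw [setIntegral_indicator hNm.compl, setIntegral_const, smul_eq_mul]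
      rfl
    have h6 : (volume (Set.Icc 0 X \ N')).toReal ≤ δ ^ (|C1| + 1) * X := by
      have := ENNReal.toReal_mono ENNReal.ofReal_ne_top hNv
      rwa [ENNReal.toReal_ofReal (by positivity)] at this
    rw [h5]
    calc _ ≤ (δ ^ (|C1| + 1) * X) * W := mul_le_mul_of_nonneg_right h6 hW0.le
      _ = (δ ^ (|C1| + 1) * δ ^ (-C1)) * X := by rw [hW]; ring
      _ = δ ^ (|C1| + 1 + -C1) * X := by rw [← Real.rpow_add hδ]
      _ ≤ δ ^ (1:ℝ) * X := by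
          refine mul_le_mul_of_nonneg_right ?_ hX0.le
          exact Real.rpow_le_rpow_of_exponent_ge hδ hδ1 (by linarith [le_abs_self C1])
      _ = δ * X := by rw [Real.rpow_one]
  have hδX : δ * X ≤ ε / 16 * X := mul_le_mul_of_nonneg_right hδb hX0.le
  -- the second part
  have s4 : W * (4 / ρ * ∫ t in (0:ℝ)..X, J2 t) ≤ ε / 16 * X := by
    have h5 : 4 / ρ * ∫ t in (0:ℝ)..X, J2 t ≤ Λ * (Bq * X ^ (1 - ω)) := by
      calc _ ≤ 4 / ρ * (ar * (Bq * X ^ (1 - ω))) := mul_le_mul_of_nonneg_left g2' (by positivity)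
        _ = (4 / ρ * ar) * (Bq * X ^ (1 - ω)) := by ring
        _ ≤ _ := mul_le_mul_of_nonneg_right hΛ1 (by positivity)
    have h6 : 0 ≤ Λ * (Bq * X ^ (1 - ω)) := by positivity
    calc W * (4 / ρ * ∫ t in (0:ℝ)..X, J2 t) ≤ W * (Λ * (Bq * X ^ (1 - ω))) := mul_le_mul_of_nonneg_left h5 hW0.le
      _ ≤ (ε / 16 / (Λ * Bq) * X ^ ω) * (Λ * (Bq * X ^ (1 - ω))) := mul_le_mul_of_nonneg_right hwin h6
      _ = ε / 16 * (X ^ ω * X ^ (1 - ω)) := by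
          field_simp
      _ = ε / 16 * X := by
          rw [← Real.rpow_add hX0]
          congr 1
          rw [add_sub_cancel, Real.rpow_one]
  -- the third part
  have e5 : (N:ℝ) ^ 5 * (8 * Y * Y ^ 2) ≤ 8 * X ^ ((8:ℝ) / 100) := by
    rw [← hY8]
    have h5 : (N:ℝ) ^ 5 ≤ Y ^ 5 := pow_le_pow_left₀ (Nat.cast_nonneg _) hNY 5
    calc _ ≤ Y ^ 5 * (8 * Y * Y ^ 2) := mul_le_mul_of_nonneg_right h5 (by positivity)
      _ = _ := by ring
  have e6 : ((N * P : ℕ) : ℝ) ^ 5 * (8 * Y * Y ^ 2) ≤ (P:ℝ) ^ 5 * (8 * X ^ ((8:ℝ) / 100)) := by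
    push_cast
    calc ((N:ℝ) * P) ^ 5 * (8 * Y * Y ^ 2) = (P:ℝ) ^ 5 * ((N:ℝ) ^ 5 * (8 * Y * Y ^ 2)) := by ring
      _ ≤ _ := mul_le_mul_of_nonneg_left e5 (by positivity)
  have s5 : c * (4 / ρ * ∫ t in (0:ℝ)..X, q t * J1 t) ≤ 3 * (ε / 16 * X) := by
    obtain ⟨m, hm⟩ : ∃ m : ℝ, m = (M:ℝ) ^ (-(a - 1 / 2)) := ⟨_, rfl⟩
    obtain ⟨n, hn⟩ : ∃ n : ℝ, n = (N:ℝ) ^ (-(a - 1 / 2)) := ⟨_, rfl⟩
    have hm0 : 0 ≤ m := by rw [hm]; exact Real.rpow_nonneg (Nat.cast_nonneg _) _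
    have hn0 : 0 ≤ n := by rw [hn]; exact Real.rpow_nonneg (Nat.cast_nonneg _) _
    obtain ⟨u, hu⟩ : ∃ u : ℝ, u = X ^ ((8:ℝ) / 100) := ⟨_, rfl⟩
    have hu0 : 0 ≤ u := by rw [hu]; positivity
    rw [← hm] at hMa hVT
    rw [← hn] at hN hVT
    rw [← hu] at e5 e6 hX2
    have h5 : c * VT ≤ 2 * (X * (Cg * m * A0) + 8 * u) + 2 * (Bq * (X * (Cg * n * A0) + (P:ℝ) ^ 5 * (8 * u))) := by
      have t1 : c * (X * (Cg * m * S2v)) ≤ X * (Cg * m * A0) := by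
        calc c * (X * (Cg * m * S2v)) = X * (Cg * m * (c * S2v)) := by ring
          _ ≤ _ := by gcongr
      have t2 : c * (X * (Cg * n * S2v)) ≤ X * (Cg * n * A0) := by
        calc c * (X * (Cg * n * S2v)) = X * (Cg * n * (c * S2v)) := by ring
          _ ≤ _ := by gcongr
      have t3 : c * ((N:ℝ) ^ 5 * (8 * Y * Y ^ 2)) ≤ 8 * u :=
        (mul_le_of_le_one_left (by positivity) hc1).trans e5
      have t4 : c * (((N * P : ℕ) : ℝ) ^ 5 * (8 * Y * Y ^ 2)) ≤ (P:ℝ) ^ 5 * (8 * u) :=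
        (mul_le_of_le_one_left (by positivity) hc1).trans e6
      have t5 : Bq * (c * (X * (Cg * n * S2v)) + c * (((N * P : ℕ) : ℝ) ^ 5 * (8 * Y * Y ^ 2))) ≤
        Bq * (X * (Cg * n * A0) + (P:ℝ) ^ 5 * (8 * u)) := mul_le_mul_of_nonneg_left (add_le_add t2 t4) hBq0.le
      rw [hVT]
      linarith
    have h6 : c * (4 / ρ * ∫ t in (0:ℝ)..X, q t * J1 t) ≤ Λ * (c * VT) := by
      have h7 : 0 ≤ VT := by
        rw [hVT]
        positivity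
      calc c * (4 / ρ * ∫ t in (0:ℝ)..X, q t * J1 t) ≤ c * (4 / ρ * (ar * VT)) := by gcongr
        _ = (4 / ρ * ar) * (c * VT) := by ring
        _ ≤ _ := mul_le_mul_of_nonneg_right hΛ1 (mul_nonneg hc0 h7)
    have h8 := mul_le_mul_of_nonneg_left h5 hΛ0.le
    have h9 : Λ * (2 * (X * (Cg * m * A0) + 8 * u) + 2 * (Bq * (X * (Cg * n * A0) + (P:ℝ) ^ 5 * (8 * u)))) =
      (Λ * 2 * Cg * A0 * m) * X + (Λ * 2 * Bq * Cg * A0 * n) * X + Λ * 2 * (1 + Bq * (P:ℝ) ^ 5) * 8 * u := by ring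
    rw [Real.rpow_one] at hX2
    have h10 := mul_le_mul_of_nonneg_right hMa hX0.le
    have h11 := mul_le_mul_of_nonneg_right hN hX0.le
    linarith
  have s6 : c * ∫ t in S, mz δ t ^ (2 * V) ≤ c * ∫ t in Set.Icc 0 X, g t := mul_le_mul_of_nonneg_left s1 hc0
  rw [s2] at s6
  have hn1 : 0 ≤ ∫ t in Set.Icc 0 X, (N'ᶜ).indicator (fun _ => W) t :=
    integral_nonneg fun t => Set.indicator_nonneg (fun _ _ => hW0.le) t
  have hn2 : 0 ≤ W * (4 / ρ * ∫ t in (0:ℝ)..X, J2 t) := by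
    have : 0 ≤ ∫ t in (0:ℝ)..X, J2 t := intervalIntegral.integral_nonneg hX0.le fun t _ => hJ2n t
    positivity
  have k1 : c * ∫ t in Set.Icc 0 X, (N'ᶜ).indicator (fun _ => W) t ≤ ε / 16 * X :=
    ((mul_le_of_le_one_left hn1 hc1).trans s3).trans hδX
  have k2 : c * (W * (4 / ρ * ∫ t in (0:ℝ)..X, J2 t)) ≤ ε / 16 * X := (mul_le_of_le_one_left hn2 hc1).trans s4
  have k3 : c * (δ * X) ≤ ε / 16 * X := (mul_le_of_le_one_left (by positivity) hc1).trans hδX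
  have k4 : 0 ≤ ε * X := by positivity
  nlinarith

end Pool.Agent.U899.UM
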