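import Pool.Agent.U899.UM.Tor
import Pool.Agent.U899.UM.Tail2
import Pool.Agent.Helper240.ZU.F

set_option autoImplicit false

/-! Universality in the moment measures: the limit argument. -/

namespace Pool.Agent.U899.UM

open Finset Filter MeasureTheory Topology Complex UnitAddTorus
open Pool.Agent.N748.MG
open Pool.Agent.N748.GC (lw M0 E0 HP pt)
open Pool.Agent.U899.TM (tm tm_one)
open ZU (DN rect pr EM)

/-! ### pointwise lemmas -/

theorem alg1 {g h r : ℂ} {η : ℝ} (hη : η ≤ 1 / 2) (hg : ‖g‖ ≤ η) (hh : ‖h‖ ≤ η) (h1 : (1 + g) * r = 1 + h) :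
    ‖r - 1‖ ≤ 4 * η := by
  have e : (1 + g) * (r - 1) = h - g := by linear_combination h1
  have e2 : ‖1 + g‖ * ‖r - 1‖ ≤ 2 * η := by
    rw [← norm_mul, e]
    have := norm_sub_le h g
    linarith
  have e3 : 1 / 2 ≤ ‖1 + g‖ := by
    have := norm_sub_norm_le (1 : ℂ) (-g)
    rw [sub_neg_eq_add, norm_neg, norm_one] at this
    linarith
  nlinarith [norm_nonneg (r - 1)]

theorem alg2 {z e r h : ℂ} {η η1 : ℝ} (hη1 : η1 ≤ 1 / 2) (hr : ‖r - 1‖ ≤ η1) (hh : ‖h‖ ≤ η)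
    (hη : η ≤ 1 / 2) (h1 : z * (e * r) = 1 + h) : ‖z - e⁻¹‖ ≤ ‖e⁻¹‖ * (2 * (η + η1)) := by
  have he : e ≠ 0 := by
    rintro rfl
    rw [zero_mul, mul_zero] at h1
    have h2 : h = -1 := by linear_combination -h1
    rw [h2, norm_neg, norm_one] at hh
    linarith
  have e3 : 1 / 2 ≤ ‖r‖ := by
    have := norm_sub_norm_le (1 : ℂ) (1 - r)
    rw [sub_sub_cancel, norm_one, ← norm_neg (1 - r), neg_sub] at this
    linarith
  have h2 : (z - e⁻¹) * r = e⁻¹ * (h - (r - 1)) := by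
    field_simp
    linear_combination h1
  have h3 : ‖z - e⁻¹‖ * ‖r‖ ≤ ‖e⁻¹‖ * (η + η1) := by
    rw [← norm_mul, h2, norm_mul]
    refine mul_le_mul_of_nonneg_left ((norm_sub_le _ _).trans (by linarith)) (norm_nonneg _)
  nlinarith [norm_nonneg (z - e⁻¹)]

theorem zEM_diff (M : ℕ) (t : ℝ) :
    DifferentiableOn ℂ (fun w : ℂ => riemannZeta (w + t * I) * EM M (fun _ => 1) (w + t * I) - 1) {z : ℂ | z.re < 1} := by
  intro z hz
  have hz1 : z + t * I ≠ 1 := by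
    intro h
    have := congrArg Complex.re h
    simp at this
    rw [Set.mem_ofPred_eq] at hz
    linarith
  have h1 : DifferentiableAt ℂ (fun w : ℂ => w + t * I) z := differentiableAt_id.add_const _
  have h2 : DifferentiableAt ℂ (fun w : ℂ => riemannZeta (w + t * I)) z :=
    DifferentiableAt.comp z (differentiableAt_riemannZeta hz1) h1
  have h3 : DifferentiableAt ℂ (fun w : ℂ => EM M (fun _ => 1) (w + t * I)) z :=
    DifferentiableAt.comp (g := EM M (fun _ => 1)) (f := fun w : ℂ => w + t * I) z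
      (ZU.J_e1.de_EM_diff M (fun _ => 1) (z + t * I)) h1
  exact ((h2.mul h3).sub_const 1).differentiableWithinAt

/-- what the smallness of the area integrals gives on the middle rectangle -/
theorem P1 {a1 b1 B1 a2 b2 B2 C2 η ρ : ℝ} (hC2 : 0 < C2) (hb2 : b2 < 1) (hη : η ≤ 1 / 2) (hη0 : 0 < η)
    (h12 : a1 ≤ b1) (hB1 : 0 < B1)
    (hC : ∀ (g : ℂ → ℂ) (U : Set ℂ), IsOpen U → rect a2 b2 B2 ⊆ U → DifferentiableOn ℂ g U →
      ∀ s ∈ rect a1 b1 B1, ‖g s‖ ^ 2 ≤ C2 * ∫ w in rect a2 b2 B2, ‖g w‖ ^ 2)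
    (hρ : C2 * ρ ≤ η ^ 2) {M A : ℕ} (hMA : M ≤ A) {t : ℝ} (hM : JM a2 b2 B2 M t ≤ ρ) (hA : JM a2 b2 B2 A t ≤ ρ) :
    (∀ s ∈ rect a1 b1 B1, ‖riemannZeta (s + t * I) * EM A (fun _ => 1) (s + t * I) - 1‖ ≤ η) ∧
    ux a1 b1 B1 (pr A \ pr M) (pt (pr A \ pr M) t) ≤ (b1 - a1) * (2 * B1) * (4 * η) ^ 2 := by
  have key : ∀ K : ℕ, JM a2 b2 B2 K t ≤ ρ → ∀ s ∈ rect a1 b1 B1,
      ‖riemannZeta (s + t * I) * EM K (fun _ => 1) (s + t * I) - 1‖ ≤ η := by
    intro K hK s hs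
    have h := hC _ {z : ℂ | z.re < 1} (isOpen_lt Complex.continuous_re continuous_const)
      (fun z hz => lt_of_le_of_lt hz.2.1 hb2) (zEM_diff K t) s hs
    have h2 : ‖riemannZeta (s + t * I) * EM K (fun _ => 1) (s + t * I) - 1‖ ^ 2 ≤ η ^ 2 :=
      h.trans ((mul_le_mul_of_nonneg_left hK hC2.le).trans hρ)
    exact le_of_sq_le_sq h2 hη0.le
  refine ⟨key A hA, ?_⟩
  have hD : ∀ p ∈ pr A \ pr M, p.Prime := fun p hp => pr_prime p (Finset.mem_sdiff.1 hp).1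
  have hpt : ∀ w ∈ rect a1 b1 B1, ‖rx (pr A \ pr M) (pt (pr A \ pr M) t) w - 1‖ ^ 2 ≤ (4 * η) ^ 2 := by
    intro w hw
    refine pow_le_pow_left₀ (norm_nonneg _) ?_ 2
    refine alg1 hη (key M hM w hw) (key A hA w hw) ?_
    rw [EM_split hMA t w]
    ring
  unfold ux
  have hvol := ZU.J_e1b.fubini_bound_vol a1 b1 B1 h12 hB1
  have hfin : volume (rect a1 b1 B1) < ⊤ := (ZU.J_e1b.fubini_bound_compact a1 b1 B1).measure_lt_top
  have h := norm_setIntegral_le_of_norm_le_const (μ := volume) (s := rect a1 b1 B1)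
    (f := fun w => ‖rx (pr A \ pr M) (pt (pr A \ pr M) t) w - 1‖ ^ 2) (C := (4 * η) ^ 2) hfin (fun w hw => by
      rw [Real.norm_of_nonneg (by positivity)]
      exact hpt w hw)
  rw [hvol, Real.norm_of_nonneg (integral_nonneg fun _ => by positivity)] at h
  linarith

/-- the approximation on the inner rectangle -/
theorem P2 {a b B a1 b1 B1 C1 η η1 ρ' ε Cp : ℝ} (hC1 : 0 < C1) (hη : η ≤ 1 / 2) (hη1 : η1 ≤ 1 / 2) (h0 : 0 < η1)
    (hsub : rect a b B ⊆ rect a1 b1 B1)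
    (hC : ∀ (g : ℂ → ℂ) (U : Set ℂ), IsOpen U → rect a1 b1 B1 ⊆ U → DifferentiableOn ℂ g U →
      ∀ s ∈ rect a b B, ‖g s‖ ^ 2 ≤ C1 * ∫ w in rect a1 b1 B1, ‖g w‖ ^ 2)
    (hρ : C1 * ρ' ≤ η1 ^ 2) {M A : ℕ} (hMA : M ≤ A) {t : ℝ}
    (hg : ∀ s ∈ rect a1 b1 B1, ‖riemannZeta (s + t * I) * EM A (fun _ => 1) (s + t * I) - 1‖ ≤ η)
    (hu : ux a1 b1 B1 (pr A \ pr M) (pt (pr A \ pr M) t) ≤ ρ')
    {f : ℂ → ℂ} (hf : ∀ s ∈ rect a b B, ‖f s‖ ≤ Cp) (hε : 0 < ε)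
    (he : ∀ s ∈ rect a b B, ‖(EM M (fun _ => 1) (s + t * I))⁻¹ - f s‖ < 2 * ε)
    (hη2 : (|Cp| + 2 * ε) * (2 * (η + η1)) ≤ ε) (hηn : 0 ≤ η) :
    ∀ s ∈ rect a b B, ‖riemannZeta (s + t * I) - f s‖ < 4 * ε := by
  intro s hs
  have hD : ∀ p ∈ pr A \ pr M, p.Prime := fun p hp => pr_prime p (Finset.mem_sdiff.1 hp).1
  have hr : ‖rx (pr A \ pr M) (pt (pr A \ pr M) t) s - 1‖ ≤ η1 := by
    have h := hC (fun w => rx (pr A \ pr M) (pt (pr A \ pr M) t) w - 1) Set.univ isOpen_univ (Set.subset_univ _)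
      ((rx_diff hD _).sub_const 1).differentiableOn s hs
    have h2 : ‖rx (pr A \ pr M) (pt (pr A \ pr M) t) s - 1‖ ^ 2 ≤ η1 ^ 2 :=
      h.trans ((mul_le_mul_of_nonneg_left hu hC1.le).trans hρ)
    exact le_of_sq_le_sq h2 h0.le
  have hA := hg s (hsub hs)
  have e1 : riemannZeta (s + t * I) * (EM M (fun _ => 1) (s + t * I) * rx (pr A \ pr M) (pt (pr A \ pr M) t) s) =
      1 + (riemannZeta (s + t * I) * EM A (fun _ => 1) (s + t * I) - 1) := by
    rw [EM_split hMA t s]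
    ring
  have h3 := alg2 hη1 hr hA hη e1
  have h4 := he s hs
  have h5 := hf s hs
  have h6 : ‖(EM M (fun _ => 1) (s + t * I))⁻¹‖ ≤ |Cp| + 2 * ε := by
    have := norm_add_le ((EM M (fun _ => 1) (s + t * I))⁻¹ - f s) (f s)
    rw [sub_add_cancel] at this
    linarith [le_abs_self Cp]
  have h7 : ‖(EM M (fun _ => 1) (s + t * I))⁻¹‖ * (2 * (η + η1)) ≤ ε :=
    (mul_le_mul_of_nonneg_right h6 (by linarith)).trans hη2
  have h8 : ‖riemannZeta (s + t * I) - f s‖ ≤ ‖riemannZeta (s + t * I) - (EM M (fun _ => 1) (s + t * I))⁻¹‖ +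
      ‖(EM M (fun _ => 1) (s + t * I))⁻¹ - f s‖ := norm_sub_le_norm_sub_add_norm_sub _ _ _
  linarith

/-! ### integrals -/

theorem int1 {E N1 N2 : Set ℝ} (hE : MeasurableSet E) (h1 : MeasurableSet N1) (h2 : MeasurableSet N2) {w f : ℝ → ℝ}
    (hw : IntegrableOn w E) (hfw : IntegrableOn (fun t => f t * w t) E) (w0 : ∀ t, 0 ≤ w t) (f0 : ∀ t, 0 ≤ f t)
    (h : ∀ t ∈ E, t ∉ N1 → t ∉ N2 → 1 ≤ 2 * f t) :
    ∫ t in E, w t ≤ 2 * (∫ t in E, f t * w t) + (∫ t in {t | t ∈ E ∧ t ∈ N1}, w t) +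
      ∫ t in {t | t ∈ E ∧ t ∈ N2}, w t := by
  have e1 : ∫ t in {t | t ∈ E ∧ t ∈ N1}, w t = ∫ t in E, N1.indicator w t := (setIntegral_indicator h1).symm
  have e2 : ∫ t in {t | t ∈ E ∧ t ∈ N2}, w t = ∫ t in E, N2.indicator w t := (setIntegral_indicator h2).symm
  have i1 : IntegrableOn (N1.indicator w) E := hw.indicator h1
  have i2 : IntegrableOn (N2.indicator w) E := hw.indicator h2
  have i3 : IntegrableOn (fun t => 2 * (f t * w t)) E := hfw.const_mul 2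
  rw [e1, e2, ← integral_const_mul, ← integral_add i3 i1]
  have i4 : IntegrableOn (fun t => 2 * (f t * w t) + N1.indicator w t) E := i3.add i1
  rw [← integral_add i4 i2]
  refine setIntegral_mono_on hw (i4.add i2) hE fun t ht => ?_
  have n1 : 0 ≤ N1.indicator w t := Set.indicator_nonneg (fun t _ => w0 t) t
  have n2 : 0 ≤ N2.indicator w t := Set.indicator_nonneg (fun t _ => w0 t) t
  have n3 : 0 ≤ 2 * (f t * w t) := by have := mul_nonneg (f0 t) (w0 t); linarith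
  by_cases g1 : t ∈ N1
  · have : N1.indicator w t = w t := Set.indicator_of_mem g1 _
    linarith
  · by_cases g2 : t ∈ N2
    · have : N2.indicator w t = w t := Set.indicator_of_mem g2 _
      linarith
    · have := mul_le_mul_of_nonneg_right (h t ht g1 g2) (w0 t)
      linarith

theorem int2 {E N : Set ℝ} (hE : MeasurableSet E) (hN : MeasurableSet N) {w f : ℝ → ℝ} {G : Set ℝ}
    (hw : IntegrableOn w E) (hf : Measurable f) (w0 : ∀ t, 0 ≤ w t) (f0 : ∀ t, 0 ≤ f t) (f1 : ∀ t, f t ≤ 1)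
    (h : ∀ t ∈ E, t ∉ N → 0 < f t → t ∈ G) :
    ∫ t in E, f t * w t ≤ (∫ t in {t | t ∈ E ∧ t ∈ G}, w t) + ∫ t in {t | t ∈ E ∧ t ∈ N}, w t := by
  obtain ⟨G', hG'⟩ : ∃ G' : Set ℝ, G' = {t | t ∉ N ∧ 0 < f t} := ⟨_, rfl⟩
  have mG' : MeasurableSet G' := by
    rw [hG']
    exact hN.compl.inter (measurableSet_lt measurable_const hf)
  have e1 : ∫ t in {t | t ∈ E ∧ t ∈ G'}, w t ≤ ∫ t in {t | t ∈ E ∧ t ∈ G}, w t := by
    refine setIntegral_mono_set (hw.mono_set fun t ht => ht.1) (ae_restrict_of_ae (Eventually.of_forall w0)) ?_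
    refine Eventually.of_forall fun t ht => ?_
    have ht' : t ∈ E ∧ t ∈ G' := ht
    rw [hG'] at ht'
    exact ⟨ht'.1, h t ht'.1 ht'.2.1 ht'.2.2⟩
  have e2 : ∫ t in {t | t ∈ E ∧ t ∈ N}, w t = ∫ t in E, N.indicator w t := (setIntegral_indicator hN).symm
  have e3 : ∫ t in {t | t ∈ E ∧ t ∈ G'}, w t = ∫ t in E, G'.indicator w t := (setIntegral_indicator mG').symm
  have i1 : IntegrableOn (G'.indicator w) E := hw.indicator mG'
  have i2 : IntegrableOn (N.indicator w) E := hw.indicator hN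
  have i3 : IntegrableOn (fun t => f t * w t) E := by
    refine Integrable.bdd_mul (c := 1) hw hf.aestronglyMeasurable (ae_restrict_of_ae (Eventually.of_forall fun t => ?_))
    rw [Real.norm_of_nonneg (f0 t)]
    exact f1 t
  refine le_trans ?_ (add_le_add_left e1 _)
  rw [e2, e3, ← integral_add i1 i2]
  refine setIntegral_mono_on i3 (i1.add i2) hE fun t ht => ?_
  have n1 : 0 ≤ G'.indicator w t := Set.indicator_nonneg (fun t _ => w0 t) t
  have n2 : 0 ≤ N.indicator w t := Set.indicator_nonneg (fun t _ => w0 t) t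
  have n4 := mul_le_mul_of_nonneg_right (f1 t) (w0 t)
  by_cases g2 : t ∈ N
  · have : N.indicator w t = w t := Set.indicator_of_mem g2 _
    linarith
  · rcases (f0 t).lt_or_eq with g3 | g3
    · have : G'.indicator w t = w t := Set.indicator_of_mem (by rw [hG']; exact ⟨g2, g3⟩) _
      linarith
    · rw [← g3, zero_mul]
      exact add_nonneg n1 n2

end Pool.Agent.U899.UM
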