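import Pool.Agent.U899.UM.Lim
import Pool.Agent.Helper240.ZU.B5
import Pool.Agent.Helper240.ZU.E0

set_option autoImplicit false

/-! Universality in the moment measures: the theorem for exponentials of entire functions. -/

namespace Pool.Agent.U899.UM

open Finset Filter MeasureTheory Topology Complex UnitAddTorus
open Pool.Agent.N748.MG
open Pool.Agent.N748.GC (lw M0 E0 HP pt)
open Pool.Agent.U899.TM (tm tm_one small_ev)
open ZU (DN rect pr EM)

/-- sets of heights with a limit law of the phases of the small primes in the moment measure -/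
structure Law (d : ℝ → ℝ) (k κ : ℝ) (E : ℝ → Set ℝ) : Prop where
  meas : ∀ᶠ T in atTop, MeasurableSet (E T)
  sub : ∀ T, E T ⊆ Set.Icc 0 T
  bd : ∃ C1 : ℝ, ∀ᶠ T in atTop, ∀ t ∈ E T, mz (d T) t ^ (2 * k) ≤ d T ^ (-C1)
  lim : ∀ (P : Finset ℕ), (∀ p ∈ P, p.Prime) → ∀ F : (P → UnitAddCircle) → ℝ, Continuous F →
    Tendsto (fun T : ℝ => (2 * d T) ^ (k ^ 2) * ((1 / T) * ∫ t in E T, F (pt P t) * mz (d T) t ^ (2 * k))) atTop
      (𝓝 (κ * tm k P F))

/-- the cut-off at the phases of the small primes -/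
noncomputable def F0 (S : Finset ℕ) (α : ℕ → ℂ) (δ : ℝ) (x : S → UnitAddCircle) : ℝ :=
  max 0 (1 - ∑ p : S, ‖(fourier 1 (x p) : ℂ) - α p‖ / δ)

theorem F0_cont (S : Finset ℕ) (α : ℕ → ℂ) (δ : ℝ) : Continuous (F0 S α δ) := by
  unfold F0
  refine continuous_const.max (continuous_const.sub (continuous_finsetSum _ fun p _ => ?_))
  exact ((((fourier 1 : C(UnitAddCircle, ℂ)).continuous.comp (continuous_apply p)).sub continuous_const).norm).div_const _

theorem F0_nonneg (S : Finset ℕ) (α : ℕ → ℂ) (δ : ℝ) (x : S → UnitAddCircle) : 0 ≤ F0 S α δ x := le_max_left _ _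

theorem F0_le {S : Finset ℕ} {α : ℕ → ℂ} {δ : ℝ} (hδ : 0 < δ) (x : S → UnitAddCircle) : F0 S α δ x ≤ 1 := by
  refine max_le zero_le_one ?_
  have : 0 ≤ ∑ p : S, ‖(fourier 1 (x p) : ℂ) - α p‖ / δ := Finset.sum_nonneg fun p _ => by positivity
  linarith

theorem F0_near {S : Finset ℕ} {α : ℕ → ℂ} {δ : ℝ} (hδ : 0 < δ) {x : S → UnitAddCircle} (h : 0 < F0 S α δ x) (p : S) :
    ‖(fourier 1 (x p) : ℂ) - α p‖ < δ := by
  unfold F0 at h
  have h2 : 0 < 1 - ∑ p : S, ‖(fourier 1 (x p) : ℂ) - α p‖ / δ := by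
    by_contra h3
    rw [max_eq_left (not_lt.1 h3)] at h
    exact lt_irrefl _ h
  have h3 : ‖(fourier 1 (x p) : ℂ) - α p‖ / δ ≤ ∑ p : S, ‖(fourier 1 (x p) : ℂ) - α p‖ / δ :=
    Finset.single_le_sum (f := fun p : S => ‖(fourier 1 (x p) : ℂ) - α p‖ / δ) (fun p _ => by positivity) (Finset.mem_univ p)
  have h4 : ‖(fourier 1 (x p) : ℂ) - α p‖ / δ < 1 := by linarith
  rwa [div_lt_one hδ] at h4

theorem phase_exists {z : ℂ} (hz : ‖z‖ = 1) : ∃ y : UnitAddCircle, (fourier 1 y : ℂ) = z := by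
  refine ⟨((z.arg / (2 * Real.pi) : ℝ) : UnitAddCircle), ?_⟩
  rw [fourier_coe_apply]
  have h := Complex.norm_mul_exp_arg_mul_I z
  rw [hz, Complex.ofReal_one, one_mul] at h
  refine Eq.trans ?_ h
  congr 1
  push_cast
  have hpi : (Real.pi : ℂ) ≠ 0 := by exact_mod_cast Real.pi_ne_zero
  field_simp

/-- the cut-off at the primes in the middle -/
noncomputable def F1 (a b B ρ : ℝ) (D : Finset ℕ) (x : D → UnitAddCircle) : ℝ := max 0 (1 - ux a b B D x / ρ)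

theorem F1_cont (a b B ρ : ℝ) {D : Finset ℕ} (hD : ∀ p ∈ D, p.Prime) : Continuous (F1 a b B ρ D) :=
  continuous_const.max (continuous_const.sub ((ux_cont a b B hD).div_const _))

theorem F1_nonneg (a b B ρ : ℝ) (D : Finset ℕ) (x : D → UnitAddCircle) : 0 ≤ F1 a b B ρ D x := le_max_left _ _

theorem F1_le {a b B ρ : ℝ} (hρ : 0 < ρ) {D : Finset ℕ} (x : D → UnitAddCircle) : F1 a b B ρ D x ≤ 1 := by
  refine max_le zero_le_one ?_
  have : 0 ≤ ux a b B D x / ρ := div_nonneg (ux_nonneg _ _ _ _ _) hρ.le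
  linarith

theorem F1_near {a b B ρ : ℝ} (hρ : 0 < ρ) {D : Finset ℕ} {x : D → UnitAddCircle} (h : 0 < F1 a b B ρ D x) :
    ux a b B D x ≤ ρ := by
  unfold F1 at h
  have h2 : 0 < 1 - ux a b B D x / ρ := by
    by_contra h3
    rw [max_eq_left (not_lt.1 h3)] at h
    exact lt_irrefl _ h
  have h4 : ux a b B D x / ρ ≤ 1 := by linarith
  rwa [div_le_one hρ] at h4

theorem univ_exp {d : ℝ → ℝ} (hd : Ad d) {k κ : ℝ} (hκ : 0 < κ) {E : ℝ → Set ℝ} (hE : Law d k κ E)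
    {a b B : ℝ} (h1 : 1 / 2 < a) (h2 : a ≤ b) (h3 : b < 1) (hB : 0 < B) {q : ℂ → ℂ} (hq : Differentiable ℂ q)
    {ε : ℝ} (hε : 0 < ε) :
    ∃ c : ℝ, 0 < c ∧ ∀ᶠ T in atTop, c ≤ (2 * d T) ^ (k ^ 2) * ((1 / T) *
      ∫ t in {t : ℝ | t ∈ E T ∧ ∀ s ∈ rect a b B, ‖riemannZeta (s + t * I) - exp (q s)‖ < 4 * ε},
        mz (d T) t ^ (2 * k)) := by
  -- rectangles
  obtain ⟨a1, ha1⟩ : ∃ a1 : ℝ, a1 = (1 / 2 + 2 * a) / 3 := ⟨_, rfl⟩
  obtain ⟨a2, ha2⟩ : ∃ a2 : ℝ, a2 = (1 + a) / 3 := ⟨_, rfl⟩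
  obtain ⟨b1, hb1⟩ : ∃ b1 : ℝ, b1 = (1 + 2 * b) / 3 := ⟨_, rfl⟩
  obtain ⟨b2, hb2⟩ : ∃ b2 : ℝ, b2 = (2 + b) / 3 := ⟨_, rfl⟩
  have q1 : 1 / 2 < a2 := by linarith
  have q2 : a2 < a1 := by linarith
  have q3 : a1 < a := by linarith
  have q4 : b < b1 := by linarith
  have q5 : b1 < b2 := by linarith
  have q6 : b2 < 1 := by linarith
  obtain ⟨C1, hC1, hC1'⟩ := ZU.sup_le_area a b a1 b1 B (B + 1) q3 h2 q4 hB (by linarith)
  obtain ⟨C2, hC2, hC2'⟩ := ZU.sup_le_area a1 b1 a2 b2 (B + 1) (B + 2) q2 (by linarith) q5 (by linarith) (by linarith)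
  have hsub : rect a b B ⊆ rect a1 b1 (B + 1) := fun z hz =>
    ⟨by linarith [hz.1], by linarith [hz.2.1], by linarith [hz.2.2]⟩
  obtain ⟨Cp, hCp⟩ := (ZU.J_f.isCompact_rectV a b B).exists_bound_of_continuousOn
    (f := fun s => exp (q s)) (Complex.continuous_exp.comp hq.continuous).continuousOn
  obtain ⟨η1, hη1⟩ : ∃ η1 : ℝ, η1 = min (1 / 2) (ε / (4 * (|Cp| + 2 * ε))) := ⟨_, rfl⟩
  have hη1a : η1 ≤ 1 / 2 := by rw [hη1]; exact min_le_left _ _
  have hη1b : η1 ≤ ε / (4 * (|Cp| + 2 * ε)) := by rw [hη1]; exact min_le_right _ _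
  have hη10 : 0 < η1 := by rw [hη1]; positivity
  obtain ⟨ρ', hρ'⟩ : ∃ ρ' : ℝ, ρ' = η1 ^ 2 / C1 := ⟨_, rfl⟩
  have hρ'0 : 0 < ρ' := by rw [hρ']; positivity
  have hρ'1 : C1 * ρ' ≤ η1 ^ 2 := by rw [hρ', mul_div_cancel₀ _ hC1.ne']
  obtain ⟨vl, hvl⟩ : ∃ vl : ℝ, vl = (b1 - a1) * (2 * (B + 1)) := ⟨_, rfl⟩
  have hvl0 : 0 < vl := by rw [hvl]; exact mul_pos (by linarith) (by linarith)
  obtain ⟨η, hη⟩ : ∃ η : ℝ, η = min η1 (Real.sqrt (ρ' / (32 * vl))) := ⟨_, rfl⟩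
  have hηa : η ≤ η1 := by rw [hη]; exact min_le_left _ _
  have hηb : η ≤ Real.sqrt (ρ' / (32 * vl)) := by rw [hη]; exact min_le_right _ _
  have hη0 : 0 < η := by rw [hη]; exact lt_min hη10 (Real.sqrt_pos.2 (by positivity))
  have hη2 : η ^ 2 ≤ ρ' / (32 * vl) := by
    have := pow_le_pow_left₀ hη0.le hηb 2
    rwa [Real.sq_sqrt (by positivity)] at this
  have hηu : vl * (4 * η) ^ 2 ≤ ρ' / 2 := by
    have := mul_le_mul_of_nonneg_left hη2 (by positivity : 0 ≤ 16 * vl)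
    have e : 16 * vl * (ρ' / (32 * vl)) = ρ' / 2 := by field_simp; norm_num
    rw [e] at this
    nlinarith
  obtain ⟨ρ, hρ⟩ : ∃ ρ : ℝ, ρ = η ^ 2 / C2 := ⟨_, rfl⟩
  have hρ0 : 0 < ρ := by rw [hρ]; positivity
  have hρ1 : C2 * ρ ≤ η ^ 2 := by rw [hρ, mul_div_cancel₀ _ hC2.ne']
  have hden : 0 < |Cp| + 2 * ε := by positivity
  have hηε : (|Cp| + 2 * ε) * (2 * (η + η1)) ≤ ε := by
    have g1 : η + η1 ≤ 2 * (ε / (4 * (|Cp| + 2 * ε))) := by linarith
    have g2 := mul_le_mul_of_nonneg_left g1 (by positivity : 0 ≤ 2 * (|Cp| + 2 * ε))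
    have e : 2 * (|Cp| + 2 * ε) * (2 * (ε / (4 * (|Cp| + 2 * ε)))) = ε := by field_simp; norm_num
    rw [e] at g2
    linarith
  obtain ⟨Cb, hbd⟩ := hE.bd
  obtain ⟨M1, hM1⟩ := tail k q1 (by linarith : a2 ≤ b2) q6 (by linarith : 0 < B + 2) Cb (ε := κ / 8) (ρ := ρ)
    (by positivity) hρ0
  obtain ⟨M, hMM, α, hα, hMα⟩ := ZU.euler_dense a b B h1 h2 h3 hB q hq ε hε M1
  obtain ⟨δα, hδα, hδα'⟩ := ZU.euler_cont a b B (by linarith) M α hα ε hε
  have hSp : ∀ p ∈ pr M, p.Prime := pr_prime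
  obtain ⟨κM, hκM⟩ : ∃ κM : ℝ, κM = tm k (pr M) (F0 (pr M) α δα) := ⟨_, rfl⟩
  have hκM0 : 0 < κM := by
    rw [hκM]
    choose y hy using fun p : pr M => phase_exists (hα p)
    refine tm_pos k hSp (F0_cont _ _ _) (F0_nonneg _ _ _) (x0 := y) ?_
    unfold F0
    simp only [hy, sub_self, norm_zero, zero_div, Finset.sum_const_zero, sub_zero]
    exact lt_max_of_lt_right zero_lt_one
  obtain ⟨M2, hM2⟩ := tail k q1 (by linarith : a2 ≤ b2) q6 (by linarith : 0 < B + 2) Cb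
    (ε := min (κ / 8) (κ * κM / 16)) (ρ := ρ) (by positivity) hρ0
  obtain ⟨A, hA⟩ : ∃ A : ℕ, A = max M M2 := ⟨_, rfl⟩
  have hMA : M ≤ A := by rw [hA]; exact le_max_left _ _
  have hA2 : M2 ≤ A := by rw [hA]; exact le_max_right _ _
  obtain ⟨D, hD⟩ : ∃ D : Finset ℕ, D = pr A \ pr M := ⟨_, rfl⟩
  have hDp : ∀ p ∈ D, p.Prime := fun p hp => pr_prime p (Finset.mem_sdiff.1 (hD ▸ hp)).1
  have hDA : D ⊆ pr A := by rw [hD]; exact Finset.sdiff_subset
  have hSA : pr M ⊆ pr A := pr_mono hMA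
  have hdis : Disjoint (pr M) D := by rw [hD]; exact Finset.disjoint_sdiff
  have huni : pr M ∪ D = pr A := by rw [hD]; exact Finset.union_sdiff_of_subset hSA
  have c0 := F0_cont (pr M) α δα
  have c1 := F1_cont a1 b1 (B + 1) ρ' hDp
  obtain ⟨μ1, hμ1⟩ : ∃ μ1 : ℝ, μ1 = tm k D (F1 a1 b1 (B + 1) ρ' D) := ⟨_, rfl⟩
  have L1 := hE.lim D hDp _ c1
  rw [← hμ1] at L1
  have L2 : Tendsto (fun T : ℝ => (2 * d T) ^ (k ^ 2) * ((1 / T) * ∫ t in E T,
      (F0 (pr M) α δα (pt (pr M) t) * F1 a1 b1 (B + 1) ρ' D (pt D t)) * mz (d T) t ^ (2 * k))) atTop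
      (𝓝 (κ * (κM * μ1))) := by
    have h := hE.lim (pr A) pr_prime (fun x => F0 (pr M) α δα (fun p => x ⟨p, hSA p.2⟩) *
      F1 a1 b1 (B + 1) ρ' D (fun p => x ⟨p, hDA p.2⟩))
      ((c0.comp (by fun_prop : Continuous fun x : pr A → UnitAddCircle =>
      (fun p : pr M => x ⟨p, hSA p.2⟩))).mul (c1.comp (by fun_prop : Continuous fun x : pr A → UnitAddCircle =>
      (fun p : D => x ⟨p, hDA p.2⟩))))
    rw [tm_mul k hdis hSA hDA huni pr_prime c0 c1, ← hκM, ← hμ1] at h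
    exact h
  have L3 := hE.lim ∅ (by simp) (fun _ => 1) continuous_const
  rw [tm_one k (by simp), mul_one] at L3
  simp only [one_mul] at L3
  -- measurability of the exceptional sets
  have mJ : ∀ K : ℕ, MeasurableSet {t : ℝ | ρ < JM a2 b2 (B + 2) K t} := fun K => by
    have := (ZU.fubini_bound a2 b2 (B + 2) (by linarith) (by linarith)
      (fun z : ℂ => riemannZeta z * EM K (fun _ => 1) z - 1) (G0_cont q6 K) (fun _ => 0) continuous_const 0 le_rfl 0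
      (fun s _ => by simp)).1
    exact measurableSet_lt measurable_const this.measurable
  -- the relevant facts for every large `T`
  have ev : ∀ᶠ T in atTop, 0 < T ∧ 0 < d T ∧ d T ≤ 1 / 16 ∧ MeasurableSet (E T) ∧
      IntegrableOn (fun t => mz (d T) t ^ (2 * k)) (E T) := by
    filter_upwards [small_ev hd, hbd, hE.meas, eventually_gt_atTop 0] with T g1 g2 g3 g4
    refine ⟨g4, g1.1, g1.2.1, g3, ?_⟩
    have hm : Measurable fun t => mz (d T) t ^ (2 * k) :=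
      (TMC.mz_meas (by linarith [g1.2.1])).pow_const _
    have hf : volume (E T) < ⊤ := lt_of_le_of_lt (measure_mono (hE.sub T)) (by simp)
    refine Measure.integrableOn_of_bounded (M := d T ^ (-Cb)) hf.ne hm.aestronglyMeasurable ?_
    refine (ae_restrict_iff' g3).2 (Eventually.of_forall fun t ht => ?_)
    rw [Real.norm_of_nonneg (Real.rpow_nonneg (TMA.mz_nn _ _) _)]
    exact g2 t ht
  -- the middle factor
  have hμ : 3 / 8 ≤ μ1 := by
    have hle : ∀ᶠ T in atTop, (2 * d T) ^ (k ^ 2) * ((1 / T) * ∫ t in E T, mz (d T) t ^ (2 * k)) ≤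
        2 * ((2 * d T) ^ (k ^ 2) * ((1 / T) * ∫ t in E T, F1 a1 b1 (B + 1) ρ' D (pt D t) * mz (d T) t ^ (2 * k))) +
          κ / 4 := by
      filter_upwards [ev, hbd, (hM1 M hMM).app hd, (hM2 A hA2).app hd] with T g1 g2 g3 g4
      obtain ⟨gT, gd0, gd, gm, gi⟩ := g1
      have k3 := g3 (E T) gm (hE.sub T) g2
      have k4 := g4 (E T) gm (hE.sub T) g2
      have k4' : (2 * d T) ^ (k ^ 2) * ∫ t in {t : ℝ | t ∈ E T ∧ ρ < JM a2 b2 (B + 2) A t}, mz (d T) t ^ (2 * k) ≤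
          κ / 8 * T := k4.trans (mul_le_mul_of_nonneg_right (min_le_left _ _) gT.le)
      have hf : Measurable fun t => F1 a1 b1 (B + 1) ρ' D (pt D t) :=
        (c1.comp (Pool.Agent.N748.GC.ERG.pt_cont D)).measurable
      have hfi : IntegrableOn (fun t => F1 a1 b1 (B + 1) ρ' D (pt D t) * mz (d T) t ^ (2 * k)) (E T) := by
        refine Integrable.bdd_mul (c := 1) gi hf.aestronglyMeasurable (ae_restrict_of_ae (Eventually.of_forall fun t => ?_))
        rw [Real.norm_of_nonneg (F1_nonneg _ _ _ _ _ _)]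
        exact F1_le hρ'0 _
      have h := int1 (E := E T) (N1 := {t | ρ < JM a2 b2 (B + 2) M t}) (N2 := {t | ρ < JM a2 b2 (B + 2) A t})
        (w := fun t => mz (d T) t ^ (2 * k)) (f := fun t => F1 a1 b1 (B + 1) ρ' D (pt D t)) gm (mJ M) (mJ A) gi hfi
        (fun t => Real.rpow_nonneg (TMA.mz_nn _ _) _) (fun t => F1_nonneg _ _ _ _ _ _) (fun t ht n1 n2 => by
          have hu := (P1 (M := M) (A := A) (t := t) hC2 q6 (hηa.trans hη1a) hη0 (by linarith) (by linarith) hC2' hρ1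
            hMA (not_lt.1 n1) (not_lt.1 n2)).2
          rw [← hvl, ← hD] at hu
          have hu2 : ux a1 b1 (B + 1) D (pt D t) / ρ' ≤ 1 / 2 := by
            rw [div_le_iff₀ hρ'0]
            linarith
          have : 1 - ux a1 b1 (B + 1) D (pt D t) / ρ' ≤ F1 a1 b1 (B + 1) ρ' D (pt D t) := le_max_right _ _
          linarith)
      simp only [Set.mem_ofPred_eq] at h
      have hc0 : 0 ≤ (2 * d T) ^ (k ^ 2) * (1 / T) := by positivity
      have h5 := mul_le_mul_of_nonneg_left h hc0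
      have e1 : (2 * d T) ^ (k ^ 2) * (1 / T) * ∫ t in {t : ℝ | t ∈ E T ∧ ρ < JM a2 b2 (B + 2) M t}, mz (d T) t ^ (2 * k) ≤
          κ / 8 := by
        have := mul_le_mul_of_nonneg_left k3 (by positivity : 0 ≤ 1 / T)
        have e : 1 / T * (κ / 8 * T) = κ / 8 := by field_simp
        rw [e] at this
        linarith
      have e2 : (2 * d T) ^ (k ^ 2) * (1 / T) * ∫ t in {t : ℝ | t ∈ E T ∧ ρ < JM a2 b2 (B + 2) A t}, mz (d T) t ^ (2 * k) ≤
          κ / 8 := by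
        have := mul_le_mul_of_nonneg_left k4' (by positivity : 0 ≤ 1 / T)
        have e : 1 / T * (κ / 8 * T) = κ / 8 := by field_simp
        rw [e] at this
        linarith
      linarith
    have := le_of_tendsto_of_tendsto L3 ((L1.const_mul 2).add_const (κ / 4)) hle
    nlinarith
  have hμ0 : 0 < μ1 := by linarith
  refine ⟨κ * κM / 4, by positivity, ?_⟩
  have hlt : 5 / 16 * (κ * κM) < κ * (κM * μ1) := by
    have := mul_le_mul_of_nonneg_left hμ (by positivity : 0 ≤ κ * κM)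
    have h0 : 0 < κ * κM := by positivity
    nlinarith
  filter_upwards [ev, hbd, (hM2 A hA2).app hd, L2.eventually_const_lt hlt] with T g1 g2 g4 g5
  obtain ⟨gT, gd0, gd, gm, gi⟩ := g1
  have k4 := g4 (E T) gm (hE.sub T) g2
  have k4' : (2 * d T) ^ (k ^ 2) * ∫ t in {t : ℝ | t ∈ E T ∧ ρ < JM a2 b2 (B + 2) A t}, mz (d T) t ^ (2 * k) ≤
      κ * κM / 16 * T := k4.trans (mul_le_mul_of_nonneg_right (min_le_right _ _) gT.le)
  have hf : Measurable fun t => F0 (pr M) α δα (pt (pr M) t) * F1 a1 b1 (B + 1) ρ' D (pt D t) :=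
    ((c0.comp (Pool.Agent.N748.GC.ERG.pt_cont _)).measurable).mul
      (c1.comp (Pool.Agent.N748.GC.ERG.pt_cont D)).measurable
  have h := int2 (E := E T) (N := {t | ρ < JM a2 b2 (B + 2) A t}) (w := fun t => mz (d T) t ^ (2 * k))
    (f := fun t => F0 (pr M) α δα (pt (pr M) t) * F1 a1 b1 (B + 1) ρ' D (pt D t))
    (G := {t | ∀ s ∈ rect a b B, ‖riemannZeta (s + t * I) - exp (q s)‖ < 4 * ε}) gm (mJ A) gi hf
    (fun t => Real.rpow_nonneg (TMA.mz_nn _ _) _)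
    (fun t => mul_nonneg (F0_nonneg _ _ _ _) (F1_nonneg _ _ _ _ _ _))
    (fun t => mul_le_one₀ (F0_le hδα _) (F1_nonneg _ _ _ _ _ _) (F1_le hρ'0 _)) (fun t ht n2 hpos => by
      have p0 : 0 < F0 (pr M) α δα (pt (pr M) t) :=
        lt_of_le_of_ne (F0_nonneg _ _ _ _) fun e => by rw [← e, zero_mul] at hpos; exact lt_irrefl _ hpos
      have p1 : 0 < F1 a1 b1 (B + 1) ρ' D (pt D t) :=
        lt_of_le_of_ne (F1_nonneg _ _ _ _ _ _) fun e => by rw [← e, mul_zero] at hpos; exact lt_irrefl _ hpos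
      have hu := F1_near hρ'0 p1
      have hgA := (P1 (M := A) (A := A) (t := t) hC2 q6 (hηa.trans hη1a) hη0 (by linarith) (by linarith) hC2' hρ1
            le_rfl (not_lt.1 n2) (not_lt.1 n2)).1
      rw [hD] at hu
      refine P2 (M := M) (A := A) hC1 (hηa.trans hη1a) hη1a hη10 hsub hC1' hρ'1 hMA hgA hu hCp hε (fun s hs => ?_) hηε
        hη0.le
      rw [ZU.J_e1.de_EM_shift]
      have g6 := hδα' (fun p => (p : ℂ) ^ (-(t * I))) (fun p hp => ⟨ZU.J_e1.de_cpow_norm p (hSp p hp).ne_zero t, by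
        have := F0_near hδα p0 ⟨p, hp⟩
        rwa [four_pt0 ⟨p, hp⟩ (hSp p hp).ne_zero t] at this⟩) s hs
      have g7 := hMα s hs
      have g8 := norm_sub_le_norm_sub_add_norm_sub (EM M (fun p => (p : ℂ) ^ (-(t * I))) s)⁻¹ (EM M α s)⁻¹ (exp (q s))
      linarith)
  simp only [Set.mem_ofPred_eq] at h
  have hc0 : 0 ≤ (2 * d T) ^ (k ^ 2) * (1 / T) := by positivity
  have h5 := mul_le_mul_of_nonneg_left h hc0
  have e2 : (2 * d T) ^ (k ^ 2) * (1 / T) * ∫ t in {t : ℝ | t ∈ E T ∧ ρ < JM a2 b2 (B + 2) A t}, mz (d T) t ^ (2 * k) ≤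
      κ * κM / 16 := by
    have := mul_le_mul_of_nonneg_left k4' (by positivity : 0 ≤ 1 / T)
    have e : 1 / T * (κ * κM / 16 * T) = κ * κM / 16 := by field_simp
    rw [e] at this
    linarith
  linarith

end Pool.Agent.U899.UM
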