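import Pool.Agent.Helper240.ZU.A4
import Pool.Agent.Helper240.ZU.C1

set_option autoImplicit false

/-! The mean square of the error of the approximation of zeta by its partial sums of length `T^θ`, with a power saving. -/

namespace Pool.Agent.U899.UM

open Complex Filter Topology Set MeasureTheory
open ZU ZU.J_a4

theorem ev_rpow (K p q δ : ℝ) (hpq : p < q) (hδ : 0 < δ) : ∀ᶠ T : ℝ in atTop, K * T ^ p ≤ δ * T ^ q := by
  have h1 : Tendsto (fun T : ℝ => K * T ^ (-(q - p))) atTop (𝓝 (K * 0)) :=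
    (tendsto_rpow_neg_atTop (by linarith : 0 < q - p)).const_mul K
  rw [mul_zero] at h1
  filter_upwards [h1.eventually (gt_mem_nhds hδ), eventually_gt_atTop (0:ℝ)] with T hT hT0
  have h2 : T ^ p = T ^ (-(q-p)) * T ^ q := by
    rw [← Real.rpow_add hT0]; congr 1; ring
  have h3 : 0 < T ^ q := Real.rpow_pos_of_pos hT0 _
  rw [h2, ← mul_assoc]
  exact mul_le_mul_of_nonneg_right hT.le h3.le

theorem ev_exp (K κ q δ : ℝ) (hκ : κ < 1) (hδ : 0 < δ) :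
    ∀ᶠ T : ℝ in atTop, K * (T ^ (3:ℝ) * Real.exp (-(1/4) * T ^ (2 - 2*κ))) ≤ δ * T ^ q := by
  have h1 := (tendsto_rpow_mul_exp_neg_mul_atTop_nhds_zero ((3 - q)/(2-2*κ)) (1/4) (by norm_num)).comp
    (tendsto_rpow_atTop (by linarith : 0 < 2 - 2*κ))
  have h2 := h1.const_mul K
  rw [mul_zero] at h2
  filter_upwards [h2.eventually (gt_mem_nhds hδ), eventually_gt_atTop (0:ℝ)] with T hT hT0
  simp only [Function.comp] at hT
  rw [← Real.rpow_mul hT0.le, mul_div_cancel₀ _ (by linarith : (2 - 2*κ) ≠ 0)] at hT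
  have h3 : 0 < T ^ q := Real.rpow_pos_of_pos hT0 _
  have h4 : T ^ (3:ℝ) = T ^ (3 - q) * T ^ q := by rw [← Real.rpow_add hT0]; congr 1; ring
  rw [h4]
  have h5 := mul_le_mul_of_nonneg_right hT.le h3.le
  calc K * (T ^ (3 - q) * T ^ q * Real.exp (-(1/4) * T ^ (2 - 2*κ)))
      = K * (T ^ (3 - q) * Real.exp (-(1/4) * T ^ (2 - 2*κ))) * T ^ q := by ring
    _ ≤ _ := h5

theorem zms (σ1 σ2 : ℝ) (h1 : 1 / 2 < σ1) (h2 : σ1 ≤ σ2) (h3 : σ2 < 1) (B : ℝ) (hB : 0 < B) (θ : ℝ) (hθ : 0 < θ)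
    (hθ1 : θ ≤ 1 / 2) : ∃ ω : ℝ, 0 < ω ∧ ∀ᶠ T : ℝ in atTop, ∀ σ ∈ Icc σ1 σ2,
      ∫ t in (-B)..(T + B), ‖riemannZeta ((σ : ℂ) + t * I) - DN ⌊T ^ θ⌋₊ ((σ : ℂ) + t * I)‖ ^ 2 ≤ T ^ (1 - ω) := by
  have hσ1 : 0 < σ1 := by linarith
  obtain ⟨κ, hκa, hκb⟩ : ∃ κ, 1/(2*σ1) < κ ∧ κ < 1 :=
    exists_between (by rw [div_lt_one (by linarith)]; linarith)
  have hκ0 : 0 < κ := lt_trans (by positivity) hκa
  have hκ1 : 1 < 2*κ*σ1 := by
    have := (div_lt_iff₀ (by positivity : 0 < 2*σ1)).1 hκa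
    linarith
  have hκh : 1 / 2 < κ := by nlinarith
  set C1 : ℝ := 3 * Real.exp 4 * √Real.pi with hC1
  have hpi := Real.pi_pos
  have hC1p : 0 < C1 := by positivity
  -- the tail
  have hsum : Summable fun n : ℕ => (n:ℝ) ^ (-(σ1 + 1 / 2)) := Real.summable_nat_rpow.2 (by linarith)
  obtain ⟨Z, hZ⟩ : ∃ Z : ℝ, Z = ∑' n : ℕ, (n:ℝ) ^ (-(σ1 + 1 / 2)) := ⟨_, rfl⟩
  have hZ0 : 0 ≤ Z := by rw [hZ]; exact tsum_nonneg fun n => Real.rpow_nonneg (Nat.cast_nonneg n) _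
  obtain ⟨ω, hω0, hω1, hω2, hω3⟩ : ∃ ω : ℝ, 0 < ω ∧ ω < θ * (σ1 - 1 / 2) ∧ ω < 1 - κ*(2-2*σ1) ∧ ω < 2*κ*σ1 - 1 := by
    have p1 : 0 < θ * (σ1 - 1 / 2) := mul_pos hθ (by linarith)
    have p2 : 0 < 1 - κ*(2-2*σ1) := by nlinarith
    have p3 : 0 < 2*κ*σ1 - 1 := by linarith
    refine ⟨min (θ * (σ1 - 1 / 2)) (min (1 - κ*(2-2*σ1)) (2*κ*σ1 - 1)) / 2, by positivity, ?_, ?_, ?_⟩
    · have := min_le_left (θ * (σ1 - 1 / 2)) (min (1 - κ*(2-2*σ1)) (2*κ*σ1 - 1))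
      linarith
    · have := (min_le_right (θ * (σ1 - 1 / 2)) (min (1 - κ*(2-2*σ1)) (2*κ*σ1 - 1))).trans (min_le_left _ _)
      linarith
    · have := (min_le_right (θ * (σ1 - 1 / 2)) (min (1 - κ*(2-2*σ1)) (2*κ*σ1 - 1))).trans (min_le_right _ _)
      linarith
  refine ⟨ω, hω0, ?_⟩
  have h1σ2 : 0 < 1 - σ2 := by linarith
  have e1 := ev_rpow (3 * Real.pi/(1-σ2)^2) (κ*(2-2*σ1)) (1 - ω) (1/4) (by linarith) (by positivity)
  have e2 := ev_rpow (120 * Real.pi * Real.exp 4) (2 - 2*κ*σ1) (1 - ω) (1/4) (by linarith) (by positivity)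
  have e3 := ev_exp C1 κ (1 - ω) (1/4) hκb (by positivity)
  have e4 : ∀ᶠ T : ℝ in atTop, 2 ≤ T ^ θ := (tendsto_rpow_atTop hθ).eventually_ge_atTop _
  have e5 := ev_rpow (C1 * (2 * Z)) (1 - θ * (σ1 - 1 / 2)) (1 - ω) (1/4) (by linarith) (by positivity)
  filter_upwards [e1, e2, e3, e4, e5, eventually_ge_atTop 1, eventually_ge_atTop B] with T g1 g2 g3 g4 g5 hT1' hBT
  rintro σ ⟨hσa, hσb⟩
  have hT0 : 0 < T := by linarith
  set L := ⌊T^κ⌋₊ with hLdef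
  set N := ⌊T^θ⌋₊ with hNdef
  have hTk : 0 < T ^ κ := Real.rpow_pos_of_pos hT0 _
  have hTθ : 0 < T ^ θ := Real.rpow_pos_of_pos hT0 _
  have hle : T ^ θ ≤ T ^ κ := Real.rpow_le_rpow_of_exponent_le hT1' (by linarith)
  have hLle : (L:ℝ) ≤ T^κ := Nat.floor_le hTk.le
  have hLN : N ≤ L := Nat.floor_le_floor hle
  have hN1 : (1:ℕ) ≤ N := Nat.le_floor (by push_cast; linarith)
  have hNge : T ^ θ / 2 ≤ N := by
    have h5 := Nat.lt_floor_add_one (T^θ)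
    rw [← hNdef] at h5
    linarith
  have hL1 : (1:ℝ) ≤ (L:ℝ) := by
    have : 1 ≤ L := hN1.trans hLN
    exact_mod_cast this
  have hLge : T^κ/2 ≤ L := by
    have h5 := Nat.lt_floor_add_one (T^κ)
    rw [← hLdef] at h5
    linarith
  have hL0 : (0:ℝ) < L := by linarith
  have hN0 : (0:ℝ) < N := by exact_mod_cast hN1
  have hmain := zm_bound σ1 σ2 σ B T N L hLN (hN1.trans hLN) h1 ⟨hσa, hσb⟩ h3 hB hT1' hBT
  refine hmain.trans ?_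
  -- first term
  have s1 : ∑ n ∈ Finset.Ioc N L, (n : ℝ) ^ (-(2 * σ)) ≤ 2 * Z * T ^ (-(θ * (σ1 - 1 / 2))) := by
    have q1 : ∑ n ∈ Finset.Ioc N L, (n : ℝ) ^ (-(2 * σ)) ≤
        ∑ n ∈ Finset.Ioc N L, (N : ℝ) ^ (-(σ1 - 1 / 2)) * (n : ℝ) ^ (-(σ1 + 1 / 2)) := by
      refine Finset.sum_le_sum fun n hn => ?_
      have hnN := (Finset.mem_Ioc.1 hn).1
      have hn1 : (1:ℝ) ≤ n := by exact_mod_cast (by omega : 1 ≤ n)
      have hn0 : (0:ℝ) < n := by linarith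
      calc (n : ℝ) ^ (-(2 * σ)) ≤ (n : ℝ) ^ (-(2 * σ1)) := Real.rpow_le_rpow_of_exponent_le hn1 (by linarith)
        _ = (n : ℝ) ^ (-(σ1 - 1 / 2)) * (n : ℝ) ^ (-(σ1 + 1 / 2)) := by
            rw [← Real.rpow_add hn0]; congr 1; ring
        _ ≤ _ := by
            refine mul_le_mul_of_nonneg_right ?_ (Real.rpow_nonneg hn0.le _)
            exact Real.rpow_le_rpow_of_nonpos hN0 (by exact_mod_cast hnN.le) (by linarith)
    rw [← Finset.mul_sum] at q1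
    have q2 : ∑ n ∈ Finset.Ioc N L, (n : ℝ) ^ (-(σ1 + 1 / 2)) ≤ Z := by
      rw [hZ]
      exact hsum.sum_le_tsum _ fun n _ => Real.rpow_nonneg (Nat.cast_nonneg n) _
    have q3 : (N : ℝ) ^ (-(σ1 - 1 / 2)) ≤ 2 * T ^ (-(θ * (σ1 - 1 / 2))) := by
      have h5 : (N:ℝ)^(-(σ1 - 1/2)) ≤ (T^θ/2)^(-(σ1 - 1/2)) :=
        Real.rpow_le_rpow_of_nonpos (by positivity) hNge (by linarith)
      have h6 : (T^θ/2)^(-(σ1 - 1/2)) = T^(-(θ*(σ1 - 1/2))) * 2^(σ1 - 1/2) := by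
        rw [Real.div_rpow hTθ.le (by norm_num), ← Real.rpow_mul hT0.le, Real.rpow_neg (by norm_num : (0:ℝ) ≤ 2), div_inv_eq_mul]
        congr 2
        ring
      have h7 : (2:ℝ)^(σ1 - 1/2) ≤ 2 := by
        calc (2:ℝ)^(σ1 - 1/2) ≤ (2:ℝ)^(1:ℝ) := Real.rpow_le_rpow_of_exponent_le (by norm_num) (by linarith)
          _ = 2 := by norm_num
      rw [h6] at h5
      have h8 : 0 ≤ T^(-(θ*(σ1 - 1/2))) := by positivity
      nlinarith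
    have q4 : 0 ≤ (N : ℝ) ^ (-(σ1 - 1 / 2)) := Real.rpow_nonneg hN0.le _
    calc _ ≤ (N : ℝ) ^ (-(σ1 - 1 / 2)) * ∑ n ∈ Finset.Ioc N L, (n : ℝ) ^ (-(σ1 + 1 / 2)) := q1
      _ ≤ (N : ℝ) ^ (-(σ1 - 1 / 2)) * Z := mul_le_mul_of_nonneg_left q2 q4
      _ ≤ (2 * T ^ (-(θ * (σ1 - 1 / 2)))) * Z := mul_le_mul_of_nonneg_right q3 hZ0
      _ = _ := by ring
  have s2 : C1 * (T * ((L : ℝ) ^ 2 * Real.exp (-(T ^ 2 / (4 * (L : ℝ) ^ 2))))) ≤ 1 / 4 * T ^ (1 - ω) := by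
    refine le_trans ?_ g3
    refine mul_le_mul_of_nonneg_left ?_ hC1p.le
    have q1 : (L:ℝ)^2 ≤ T^(2:ℝ) := by
      have : (L:ℝ) ≤ T := hLle.trans (by
        calc T^κ ≤ T^(1:ℝ) := Real.rpow_le_rpow_of_exponent_le hT1' hκb.le
          _ = T := Real.rpow_one T)
      rw [Real.rpow_two]
      exact pow_le_pow_left₀ hL0.le this 2
    have q2 : (L:ℝ)^2 ≤ T^(2*κ) := by
      have h5 : T^(2*κ) = (T^κ)^2 := by
        rw [← Real.rpow_natCast (T^κ) 2, ← Real.rpow_mul hT0.le]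
        congr 1
        push_cast
        ring
      rw [h5]
      exact pow_le_pow_left₀ hL0.le hLle 2
    have q3 : (1/4) * T ^ (2 - 2*κ) ≤ T ^ 2 / (4 * (L : ℝ) ^ 2) := by
      rw [Real.rpow_sub hT0, Real.rpow_two]
      have h6 : T^2 / T^(2*κ) ≤ T^2/(L:ℝ)^2 :=
        div_le_div_of_nonneg_left (by positivity) (by positivity) q2
      calc (1/4) * (T^2 / T^(2*κ)) ≤ (1/4) * (T^2/(L:ℝ)^2) := by linarith
        _ = T ^ 2 / (4 * (L : ℝ) ^ 2) := by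
          field_simp
    have q4 : Real.exp (-(T ^ 2 / (4 * (L : ℝ) ^ 2))) ≤ Real.exp (-(1/4) * T ^ (2 - 2*κ)) := by
      apply Real.exp_le_exp.2
      linarith
    have q5 : T ^ (3:ℝ) = T * T ^ (2:ℝ) := by
      rw [show (3:ℝ) = 1 + 2 by norm_num, Real.rpow_add hT0, Real.rpow_one]
    rw [q5, mul_assoc]
    exact mul_le_mul_of_nonneg_left (mul_le_mul q1 q4 (Real.exp_nonneg _) (by positivity)) hT0.le
  -- second term
  have s3 : 3 * (((L : ℝ) ^ (1 - σ)) ^ 2 / (1 - σ2) ^ 2) * Real.pi ≤ 1 / 4 * T ^ (1 - ω) := by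
    refine le_trans ?_ g1
    have q1 : ((L : ℝ) ^ (1 - σ)) ^ 2 ≤ T ^ (κ*(2-2*σ1)) := by
      have h5 : ((L : ℝ) ^ (1 - σ)) ^ 2 = (L:ℝ)^(2 - 2*σ) := by
        rw [← Real.rpow_natCast ((L:ℝ)^(1-σ)) 2, ← Real.rpow_mul hL0.le]
        congr 1
        push_cast
        ring
      rw [h5, Real.rpow_mul hT0.le]
      calc (L:ℝ)^(2 - 2*σ) ≤ (L:ℝ)^(2-2*σ1) :=
            Real.rpow_le_rpow_of_exponent_le hL1 (by linarith)
        _ ≤ (T^κ)^(2-2*σ1) := Real.rpow_le_rpow hL0.le hLle (by linarith)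
    calc 3 * (((L : ℝ) ^ (1 - σ)) ^ 2 / (1 - σ2) ^ 2) * Real.pi
        = 3 * Real.pi/(1-σ2)^2 * ((L : ℝ) ^ (1 - σ)) ^ 2 := by ring
      _ ≤ 3 * Real.pi/(1-σ2)^2 * T ^ (κ*(2-2*σ1)) := by gcongr
  -- third term
  have s4 : 3 * Real.exp 4 * (1 + 4 * T ^ 2) * (2 * Real.pi * ((L : ℝ) ^ (-(2 * σ)) / (2 * σ))) ≤
      1 / 4 * T ^ (1 - ω) := by
    refine le_trans ?_ g2
    have q1 : (L : ℝ) ^ (-(2 * σ)) / (2 * σ) ≤ (L:ℝ)^(-(2*σ1)) := by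
      have h5 : (L : ℝ) ^ (-(2 * σ)) ≤ (L:ℝ)^(-(2*σ1)) :=
        Real.rpow_le_rpow_of_exponent_le hL1 (by linarith)
      have h6 : 1 ≤ 2*σ := by linarith
      exact (div_le_self (by positivity) h6).trans h5
    have q2 : (L:ℝ)^(-(2*σ1)) ≤ 4 * T^(-(2*κ*σ1)) := by
      have h5 : (L:ℝ)^(-(2*σ1)) ≤ (T^κ/2)^(-(2*σ1)) :=
        Real.rpow_le_rpow_of_nonpos (by positivity) hLge (by linarith)
      have h6 : (T^κ/2)^(-(2*σ1)) = T^(-(2*κ*σ1)) * 2^(2*σ1) := by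
        rw [Real.div_rpow hTk.le (by norm_num), ← Real.rpow_mul hT0.le, Real.rpow_neg (by norm_num : (0:ℝ) ≤ 2), div_inv_eq_mul]
        congr 2
        ring
      have h7 : (2:ℝ)^(2*σ1) ≤ 4 := by
        calc (2:ℝ)^(2*σ1) ≤ (2:ℝ)^(2:ℝ) := Real.rpow_le_rpow_of_exponent_le (by norm_num) (by linarith)
          _ = 4 := by norm_num
      rw [h6] at h5
      have h8 : 0 ≤ T^(-(2*κ*σ1)) := by positivity
      nlinarith
    have q3 : 1 + 4 * T^2 ≤ 5 * T^2 := by nlinarith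
    have q4 : T^(2 - 2*κ*σ1) = T^2 * T^(-(2*κ*σ1)) := by
      rw [← Real.rpow_two, ← Real.rpow_add hT0]
      congr 1
    calc 3 * Real.exp 4 * (1 + 4 * T ^ 2) * (2 * Real.pi * ((L : ℝ) ^ (-(2 * σ)) / (2 * σ)))
        ≤ 3 * Real.exp 4 * (5 * T^2) * (2 * Real.pi * (4 * T^(-(2*κ*σ1)))) := by
          have r2 := q1.trans q2
          have r3 : 0 ≤ (L : ℝ) ^ (-(2 * σ)) / (2 * σ) :=
            div_nonneg (Real.rpow_nonneg hL0.le _) (by linarith)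
          exact mul_le_mul (mul_le_mul_of_nonneg_left q3 (by positivity))
            (mul_le_mul_of_nonneg_left r2 (by positivity)) (mul_nonneg (by positivity) r3)
            (by positivity)
      _ = 120 * Real.pi * Real.exp 4 * T^(2 - 2*κ*σ1) := by
          rw [q4]; ring
  have s5 : 3 * Real.exp 4 * (√Real.pi * T * (∑ n ∈ Finset.Ioc N L, (n : ℝ) ^ (-(2 * σ)) +
        (L : ℝ) ^ 2 * Real.exp (-(T ^ 2 / (4 * (L : ℝ) ^ 2))))) ≤ 1 / 2 * T ^ (1 - ω) := by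
    have h5 : 3 * Real.exp 4 * (√Real.pi * T * (∑ n ∈ Finset.Ioc N L, (n : ℝ) ^ (-(2 * σ)) +
        (L : ℝ) ^ 2 * Real.exp (-(T ^ 2 / (4 * (L : ℝ) ^ 2))))) =
        C1 * (T * ∑ n ∈ Finset.Ioc N L, (n : ℝ) ^ (-(2 * σ))) +
        C1 * (T * ((L : ℝ) ^ 2 * Real.exp (-(T ^ 2 / (4 * (L : ℝ) ^ 2))))) := by
      rw [hC1]; ring
    rw [h5]
    have h6 : C1 * (T * ∑ n ∈ Finset.Ioc N L, (n : ℝ) ^ (-(2 * σ))) ≤ 1 / 4 * T ^ (1 - ω) := by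
      refine le_trans ?_ g5
      have h7 : T ^ (1 - θ * (σ1 - 1 / 2)) = T * T ^ (-(θ * (σ1 - 1 / 2))) := by
        rw [sub_eq_add_neg, Real.rpow_add hT0, Real.rpow_one]
      rw [h7]
      calc C1 * (T * ∑ n ∈ Finset.Ioc N L, (n : ℝ) ^ (-(2 * σ)))
          ≤ C1 * (T * (2 * Z * T ^ (-(θ * (σ1 - 1 / 2))))) :=
            mul_le_mul_of_nonneg_left (mul_le_mul_of_nonneg_left s1 hT0.le) hC1p.le
        _ = _ := by ring
    linarith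
  linarith

end Pool.Agent.U899.UM
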