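import Pool.Agent.U899.UM.Cor

set_option autoImplicit false

/-! Universality near the line: positive proportions. -/

namespace Pool.Agent.U899.UM

open Finset Filter MeasureTheory Topology Complex UnitAddTorus
open Pool.Agent.N748.MG
open Pool.Agent.U899.TM (tm tm_one small_ev)

/-- a positive proportion of the moment -/
theorem prop_gen {d : ℝ → ℝ} (hd : Ad d) {k κ : ℝ} (hκ : 0 < κ) {E : ℝ → Set ℝ} (hE : Law d k κ E)
    {K : Set ℂ} (hK : IsCompact K) (hKs : K ⊆ {z | 1 / 2 < z.re ∧ z.re < 1}) (hKc : IsConnected Kᶜ)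
    {f : ℂ → ℂ} (hc : ContinuousOn f K) (hh : DifferentiableOn ℂ f (interior K)) (h0 : ∀ z ∈ interior K, f z ≠ 0)
    {ε : ℝ} (hε : 0 < ε) :
    ∃ c : ℝ, 0 < c ∧ ∀ᶠ T in atTop, c ≤ (∫ t in {t : ℝ | t ∈ E T ∧ t ∈ SU ε K f}, mz (d T) t ^ (2 * k)) /
      ∫ t in E T, mz (d T) t ^ (2 * k) := by
  obtain ⟨c, hc0, h⟩ := univ hd hκ hE hK hKs hKc hc hh h0 hε
  have L3 := hE.lim ∅ (by simp) (fun _ => 1) continuous_const
  rw [tm_one k (by simp), mul_one] at L3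
  simp only [one_mul] at L3
  refine ⟨c / (2 * κ), by positivity, ?_⟩
  filter_upwards [h, L3.eventually_lt_const (by linarith : κ < 2 * κ), L3.eventually_const_lt (by linarith : κ / 2 < κ),
    hE.intg hd] with T e1 e2 e3 e4
  obtain ⟨gT, gd, -⟩ := e4
  obtain ⟨A, hA⟩ : ∃ A : ℝ, A = ∫ t in {t : ℝ | t ∈ E T ∧ t ∈ SU ε K f}, mz (d T) t ^ (2 * k) := ⟨_, rfl⟩
  obtain ⟨B, hB⟩ : ∃ B : ℝ, B = ∫ t in E T, mz (d T) t ^ (2 * k) := ⟨_, rfl⟩
  obtain ⟨w, hw⟩ : ∃ w : ℝ, w = (2 * d T) ^ (k ^ 2) * (1 / T) := ⟨_, rfl⟩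
  have hw0 : 0 < w := by rw [hw]; exact mul_pos (Real.rpow_pos_of_pos (by linarith) _) (one_div_pos.2 gT)
  have e1' : c ≤ w * A := by
    rw [hw, hA, mul_assoc]
    exact e1
  rw [← mul_assoc, ← hB, ← hw] at e2 e3
  rw [← hA, ← hB]
  have hB0 : 0 < B := by
    by_contra hcon
    have := mul_nonpos_of_nonneg_of_nonpos hw0.le (not_lt.1 hcon)
    linarith
  rw [le_div_iff₀ hB0, div_mul_eq_mul_div, div_le_iff₀ (by positivity)]
  have h1 : c * (w * B) ≤ (w * A) * (2 * κ) := mul_le_mul e1' e2.le (by positivity) (by linarith)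
  have h2 : w * (c * B) ≤ w * (A * (2 * κ)) := by linarith
  exact le_of_mul_le_mul_left h2 hw0

end Pool.Agent.U899.UM
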