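import Pool.Agent.U899.TM.Mean

set_option autoImplicit false

/-! Submultiplicativity of the generalised divisor functions, a gcd sum. -/

namespace Pool.Agent.U899.UM

open Finset Filter MeasureTheory Topology Complex
open Pool.Agent.N748.MG
open Pool.Agent.N748.MG.DIA2 (ft ft_summable)

theorem lC_sub {s : ℂ} {k0 : ℕ} (h0 : 1 ≤ k0) (hs : ‖s‖ ≤ k0) (a b : ℕ) :
    ‖lC s (a + b)‖ ≤ ‖lC (k0 : ℂ) a‖ * ‖lC s b‖ := by
  rw [add_comm a b]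
  unfold lC
  rw [Finset.prod_range_add, norm_mul, mul_comm]
  refine mul_le_mul_of_nonneg_right ?_ (norm_nonneg _)
  rw [norm_prod, norm_prod]
  refine Finset.prod_le_prod (fun i _ => norm_nonneg _) fun i _ => ?_
  rw [norm_div, norm_div]
  have e1 : ‖((b + i : ℕ) : ℂ) + 1‖ = (b:ℝ) + i + 1 := by
    rw [show ((b + i : ℕ) : ℂ) + 1 = ((b + i + 1 : ℕ) : ℂ) by push_cast; ring, Complex.norm_natCast]
    push_cast
    ring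
  have e2 : ‖(i : ℂ) + 1‖ = (i:ℝ) + 1 := by
    rw [show (i : ℂ) + 1 = ((i + 1 : ℕ) : ℂ) by push_cast; ring, Complex.norm_natCast]
    push_cast
    ring
  have e3 : ‖(k0 : ℂ) + i‖ = (k0 : ℝ) + i := by
    rw [show (k0 : ℂ) + i = ((k0 + i : ℕ) : ℂ) by push_cast; ring, Complex.norm_natCast]
    push_cast
    ring
  have e4 : ‖s + ((b + i : ℕ) : ℂ)‖ ≤ (k0 : ℝ) + b + i := by
    refine (norm_add_le _ _).trans ?_
    rw [Complex.norm_natCast]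
    push_cast
    linarith
  rw [e1, e2, e3]
  have hk : (1 : ℝ) ≤ k0 := by exact_mod_cast h0
  have hb : (0 : ℝ) ≤ b := Nat.cast_nonneg _
  have hi : (0 : ℝ) ≤ i := Nat.cast_nonneg _
  rw [div_le_div_iff₀ (by positivity) (by positivity)]
  nlinarith [mul_le_mul_of_nonneg_right e4 (by positivity : (0:ℝ) ≤ (i:ℝ) + 1), mul_nonneg hb (by linarith : (0:ℝ) ≤ (k0:ℝ) - 1)]

theorem dS_sub {s : ℂ} {k0 : ℕ} (h0 : 1 ≤ k0) (hs : ‖s‖ ≤ k0) {q l : ℕ} (hq : q ≠ 0) (hl : l ≠ 0) :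
    ‖dS s (q * l)‖ ≤ ‖dS (k0 : ℂ) q‖ * ‖dS s l‖ := by
  obtain ⟨Q, hQ⟩ : ∃ Q : Finset ℕ, Q = (q * l).primeFactors := ⟨_, rfl⟩
  have hne : q * l ≠ 0 := mul_ne_zero hq hl
  have h1 : q.primeFactors ⊆ Q := by rw [hQ]; exact Nat.primeFactors_mono (Dvd.intro _ rfl) hne
  have h2 : l.primeFactors ⊆ Q := by rw [hQ]; exact Nat.primeFactors_mono ⟨q, by ring⟩ hne
  rw [Pool.Agent.U899.TM.dS_big s (Q := Q) (le_of_eq hQ.symm), Pool.Agent.U899.TM.dS_big (k0 : ℂ) h1,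
    Pool.Agent.U899.TM.dS_big s h2, norm_prod, norm_prod, norm_prod, ← Finset.prod_mul_distrib]
  refine Finset.prod_le_prod (fun p _ => norm_nonneg _) fun p _ => ?_
  rw [Nat.factorization_mul hq hl]
  exact lC_sub h0 hs _ _

theorem D_summable (k0 : ℕ) {x : ℝ} (hx : 1 < x) : Summable fun n : ℕ => ‖dS (k0 : ℂ) n‖ * (n : ℝ) ^ (-x) := by
  have h1 := ft_summable (k0 : ℂ) k0 (by simp) (δ := (x - 1) / 2) (by linarith)
  have h2 : Summable fun n : ℕ => (n : ℝ) ^ (-x) := Real.summable_nat_rpow.2 (by linarith)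
  refine Summable.of_nonneg_of_le (fun n => mul_nonneg (norm_nonneg _) (Real.rpow_nonneg (Nat.cast_nonneg _) _))
    (fun n => ?_) (h1.add h2)
  have e1 : ‖ft (k0 : ℂ) ((x - 1) / 2) n‖ = ‖dS (k0 : ℂ) n‖ ^ 2 * (n : ℝ) ^ (-x) := by
    unfold ft
    rw [norm_mul, norm_pow, Complex.norm_real, Real.norm_of_nonneg (Real.rpow_nonneg (Nat.cast_nonneg _) _)]
    congr 2
    ring
  rw [e1]
  have h3 : (0:ℝ) ≤ (n : ℝ) ^ (-x) := Real.rpow_nonneg (Nat.cast_nonneg _) _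
  have h4 : ‖dS (k0 : ℂ) n‖ ≤ ‖dS (k0 : ℂ) n‖ ^ 2 + 1 := by nlinarith [sq_nonneg (‖dS (k0 : ℂ) n‖ - 1)]
  calc ‖dS (k0 : ℂ) n‖ * (n : ℝ) ^ (-x) ≤ (‖dS (k0 : ℂ) n‖ ^ 2 + 1) * (n : ℝ) ^ (-x) := mul_le_mul_of_nonneg_right h4 h3
    _ = _ := by ring

/-- the coprime part -/
def al (a b : ℕ) : ℕ := a / Nat.gcd a b

theorem al_mul (a b : ℕ) : Nat.gcd a b * al a b = a := Nat.mul_div_cancel' (Nat.gcd_dvd_left a b)

theorem al_pos {a b : ℕ} (ha : 1 ≤ a) : 1 ≤ al a b := by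
  have h1 := al_mul a b
  rcases Nat.eq_zero_or_pos (al a b) with h | h
  · rw [h, mul_zero] at h1
    omega
  · exact h

theorem al_coprime {a b : ℕ} (ha : 1 ≤ a) : Nat.Coprime (al a b) (al b a) := by
  unfold al
  rw [Nat.gcd_comm b a]
  exact Nat.coprime_div_gcd_div_gcd (Nat.gcd_pos_of_pos_left _ ha)

theorem al_le (a b : ℕ) : al a b ≤ a := Nat.div_le_self _ _

theorem gcd_sum (k0 : ℕ) {σ : ℝ} (hσ : 1 / 2 < σ) : ∃ C : ℝ, 0 < C ∧ ∀ (S : Finset ℕ) (Z : ℝ), 1 ≤ Z →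
    (∀ a ∈ S, 1 ≤ a ∧ Z ≤ a) →
    ∑ a ∈ S, ∑ b ∈ S, ((a:ℝ) ^ (-σ) * (b:ℝ) ^ (-σ)) * ((((al a b : ℝ) * al b a) ^ (-(1 / 2 : ℝ))) *
      (‖dS (k0 : ℂ) (al a b)‖ * ‖dS (k0 : ℂ) (al b a)‖)) ≤ C * Z ^ (-(σ - 1 / 2)) := by
  obtain ⟨η, hη⟩ : ∃ η : ℝ, η = (σ - 1 / 2) / 2 := ⟨_, rfl⟩
  have hη0 : 0 < η := by rw [hη]; linarith
  obtain ⟨u, hu⟩ : ∃ u : ℕ → ℝ, u = fun n : ℕ => ‖dS (k0 : ℂ) n‖ * (n : ℝ) ^ (-((σ - η) + 1 / 2)) := ⟨_, rfl⟩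
  obtain ⟨v, hv⟩ : ∃ v : ℕ → ℝ, v = fun n : ℕ => (n : ℝ) ^ (-(2 * (σ - η))) := ⟨_, rfl⟩
  have hus : Summable u := by rw [hu]; exact D_summable k0 (by rw [hη]; linarith)
  have hvs : Summable v := by rw [hv]; exact Real.summable_nat_rpow.2 (by rw [hη]; linarith)
  have hu0 : 0 ≤ u := by
    rw [hu]
    exact fun n => mul_nonneg (norm_nonneg _) (Real.rpow_nonneg (Nat.cast_nonneg _) _)
  have hv0 : 0 ≤ v := by
    rw [hv]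
    exact fun n => Real.rpow_nonneg (Nat.cast_nonneg _) _
  have huu : Summable fun x : ℕ × ℕ => u x.1 * u x.2 := hus.mul_of_nonneg hus hu0 hu0
  have huu0 : 0 ≤ fun x : ℕ × ℕ => u x.1 * u x.2 := fun x => mul_nonneg (hu0 _) (hu0 _)
  have hF : Summable fun x : ℕ × (ℕ × ℕ) => v x.1 * (u x.2.1 * u x.2.2) := hvs.mul_of_nonneg huu hv0 huu0
  have hF0 : ∀ x : ℕ × (ℕ × ℕ), 0 ≤ v x.1 * (u x.2.1 * u x.2.2) := fun x => mul_nonneg (hv0 _) (huu0 _)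
  refine ⟨(∑' x : ℕ × (ℕ × ℕ), v x.1 * (u x.2.1 * u x.2.2)) + 1,
    add_pos_of_nonneg_of_pos (tsum_nonneg hF0) one_pos, fun S Z hZ hS => ?_⟩
  have hterm : ∀ a ∈ S, ∀ b ∈ S, ((a:ℝ) ^ (-σ) * (b:ℝ) ^ (-σ)) * ((((al a b : ℝ) * al b a) ^ (-(1 / 2 : ℝ))) *
      (‖dS (k0 : ℂ) (al a b)‖ * ‖dS (k0 : ℂ) (al b a)‖)) ≤
      Z ^ (-(σ - 1 / 2)) * (v (Nat.gcd a b) * (u (al a b) * u (al b a))) := by
    intro a ha b hb
    obtain ⟨a1, a2⟩ := hS a ha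
    obtain ⟨b1, b2⟩ := hS b hb
    obtain ⟨g, hg⟩ : ∃ g : ℕ, g = Nat.gcd a b := ⟨_, rfl⟩
    obtain ⟨x, hx⟩ : ∃ x : ℕ, x = al a b := ⟨_, rfl⟩
    obtain ⟨y, hy⟩ : ∃ y : ℕ, y = al b a := ⟨_, rfl⟩
    have eA : (a : ℝ) = g * x := by rw [hg, hx]; exact_mod_cast (al_mul a b).symm
    have eB : (b : ℝ) = g * y := by
      rw [hg, hy, Nat.gcd_comm a b]; exact_mod_cast (al_mul b a).symm
    have hx1 : (1 : ℝ) ≤ x := by rw [hx]; exact_mod_cast al_pos a1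
    have hy1 : (1 : ℝ) ≤ y := by rw [hy]; exact_mod_cast al_pos b1
    have hg1 : (1 : ℝ) ≤ g := by
      have : 0 < g := by rw [hg]; exact Nat.gcd_pos_of_pos_left _ a1
      exact_mod_cast this
    have ha0 : (0 : ℝ) < a := by exact_mod_cast a1
    have hb0 : (0 : ℝ) < b := by exact_mod_cast b1
    rw [← hg, ← hx, ← hy, hu, hv]
    simp only
    have s1 : ∀ c : ℝ, Z ≤ c → 0 < c → c ^ (-σ) ≤ c ^ (-(σ - η)) * Z ^ (-η) := by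
      intro c hc hc0
      rw [show (-σ) = -(σ - η) + -η by ring, Real.rpow_add hc0]
      exact mul_le_mul_of_nonneg_left (Real.rpow_le_rpow_of_nonpos (by linarith) hc (by linarith))
        (Real.rpow_nonneg hc0.le _)
    have s2 : (a:ℝ) ^ (-σ) * (b:ℝ) ^ (-σ) ≤ ((a:ℝ) ^ (-(σ - η)) * Z ^ (-η)) * ((b:ℝ) ^ (-(σ - η)) * Z ^ (-η)) :=
      mul_le_mul (s1 a a2 ha0) (s1 b b2 hb0) (Real.rpow_nonneg hb0.le _)
        (mul_nonneg (Real.rpow_nonneg ha0.le _) (Real.rpow_nonneg (by linarith) _))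
    have s3 : 0 ≤ (((x:ℝ) * y) ^ (-(1 / 2 : ℝ))) * (‖dS (k0 : ℂ) x‖ * ‖dS (k0 : ℂ) y‖) := by positivity
    refine (mul_le_mul_of_nonneg_right s2 s3).trans (le_of_eq ?_)
    have hg0 : (0 : ℝ) ≤ g := by linarith
    have hx0 : (0 : ℝ) < x := by linarith
    have hy0 : (0 : ℝ) < y := by linarith
    have z1 : Z ^ (-(σ - 1 / 2)) = Z ^ (-η) * Z ^ (-η) := by
      rw [← Real.rpow_add (by linarith)]
      congr 1
      rw [hη]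
      ring
    rw [eA, eB, Real.mul_rpow hg0 hx0.le, Real.mul_rpow hg0 hy0.le, Real.mul_rpow hx0.le hy0.le, z1]
    have e1 : (x:ℝ) ^ (-((σ - η) + 1 / 2)) = (x:ℝ) ^ (-(σ - η)) * (x:ℝ) ^ (-(1 / 2 : ℝ)) := by
      rw [← Real.rpow_add hx0]; congr 1; ring
    have e2 : (y:ℝ) ^ (-((σ - η) + 1 / 2)) = (y:ℝ) ^ (-(σ - η)) * (y:ℝ) ^ (-(1 / 2 : ℝ)) := by
      rw [← Real.rpow_add hy0]; congr 1; ring
    have e3 : (g:ℝ) ^ (-(2 * (σ - η))) = (g:ℝ) ^ (-(σ - η)) * (g:ℝ) ^ (-(σ - η)) := by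
      rw [← Real.rpow_add (by linarith)]; congr 1; ring
    rw [e1, e2, e3]
    ring
  have hinj : Set.InjOn (fun x : ℕ × ℕ => ((Nat.gcd x.1 x.2, (al x.1 x.2, al x.2 x.1)) : ℕ × (ℕ × ℕ)))
      (S ×ˢ S : Finset (ℕ × ℕ)) := by
    rintro ⟨a, b⟩ _ ⟨a', b'⟩ _ h
    simp only [Prod.mk.injEq] at h
    obtain ⟨h1, h2, h3⟩ := h
    have k1 := al_mul a b
    have k2 := al_mul a' b'
    have k3 := al_mul b a
    have k4 := al_mul b' a'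
    rw [Nat.gcd_comm b a] at k3
    rw [Nat.gcd_comm b' a'] at k4
    rw [h1, h2] at k1
    rw [h1, h3] at k3
    rw [Prod.mk.injEq]
    exact ⟨k1.symm.trans k2, k3.symm.trans k4⟩
  calc ∑ a ∈ S, ∑ b ∈ S, ((a:ℝ) ^ (-σ) * (b:ℝ) ^ (-σ)) * ((((al a b : ℝ) * al b a) ^ (-(1 / 2 : ℝ))) *
      (‖dS (k0 : ℂ) (al a b)‖ * ‖dS (k0 : ℂ) (al b a)‖))
      ≤ ∑ a ∈ S, ∑ b ∈ S, Z ^ (-(σ - 1 / 2)) * (v (Nat.gcd a b) * (u (al a b) * u (al b a))) :=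
        Finset.sum_le_sum fun a ha => Finset.sum_le_sum fun b hb => hterm a ha b hb
    _ = Z ^ (-(σ - 1 / 2)) * ∑ x ∈ S ×ˢ S, (v (Nat.gcd x.1 x.2) * (u (al x.1 x.2) * u (al x.2 x.1))) := by
        rw [Finset.sum_product, Finset.mul_sum]
        refine Finset.sum_congr rfl fun a _ => ?_
        rw [Finset.mul_sum]
    _ = Z ^ (-(σ - 1 / 2)) * ∑ x ∈ (S ×ˢ S).image
          (fun x : ℕ × ℕ => ((Nat.gcd x.1 x.2, (al x.1 x.2, al x.2 x.1)) : ℕ × (ℕ × ℕ))),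
          v x.1 * (u x.2.1 * u x.2.2) := by
        rw [Finset.sum_image hinj]
    _ ≤ Z ^ (-(σ - 1 / 2)) * ∑' x : ℕ × (ℕ × ℕ), v x.1 * (u x.2.1 * u x.2.2) := by
        refine mul_le_mul_of_nonneg_left (hF.sum_le_tsum _ fun x _ => hF0 x) (Real.rpow_nonneg (by linarith) _)
    _ ≤ ((∑' x : ℕ × (ℕ × ℕ), v x.1 * (u x.2.1 * u x.2.2)) + 1) * Z ^ (-(σ - 1 / 2)) := by
        have : 0 ≤ Z ^ (-(σ - 1 / 2)) := Real.rpow_nonneg (by linarith) _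
        nlinarith

end Pool.Agent.U899.UM
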