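import Pool.Agent.U899.UM.App
import Pool.Agent.U899.UM.Mz
import Pool.Agent.Helper240.ZU.C3
import Pool.Agent.Helper240.ZU.E1b

set_option autoImplicit false

/-! The Euler products approximate zeta in the strip outside sets of small mass in the moment measures. -/

namespace Pool.Agent.U899.UM

open Finset Filter MeasureTheory Topology Complex
open Pool.Agent.N748.MG
open ZU (DN rect pr EM)
open ZU.J_c3a (S1 cf split_eq S1_gt cf_norm pr_pos)
open ZU.J_c3 (rough_mv_zeta_cont rough_mv_DN_cont rough_mv_EM_cont rough_mv_EM_le)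

theorem sq_add_le (x y : ℂ) : ‖x + y‖ ^ 2 ≤ 2 * ‖x‖ ^ 2 + 2 * ‖y‖ ^ 2 := by
  have h1 := pow_le_pow_left₀ (norm_nonneg _) (norm_add_le x y) 2
  nlinarith [sq_nonneg (‖x‖ - ‖y‖)]

/-- the error of the Euler product on a rectangle -/
noncomputable def JM (a b B : ℝ) (M : ℕ) (t : ℝ) : ℝ :=
  ∫ w in rect a b B, ‖riemannZeta (w + t * I) * EM M (fun _ => 1) (w + t * I) - 1‖ ^ 2

theorem zeta_strip {a b : ℝ} (h3 : b < 1) : ContinuousOn riemannZeta {z : ℂ | a ≤ z.re ∧ z.re ≤ b} := by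
  intro z hz
  refine (differentiableAt_riemannZeta ?_).continuousAt.continuousWithinAt
  rintro rfl
  have := hz.2
  simp at this
  linarith

theorem strip_shift {a b B : ℝ} {w : ℂ} (hw : w ∈ rect a b B) (t : ℝ) : w + t * I ∈ {z : ℂ | a ≤ z.re ∧ z.re ≤ b} := by
  obtain ⟨h1, h2, -⟩ := hw
  simp only [Set.mem_ofPred_eq, add_re, mul_re, ofReal_re, I_re, mul_zero, ofReal_im, I_im, mul_one, sub_self, add_zero]
  exact ⟨h1, h2⟩

/-- the polynomials -/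
theorem q_bound (k0 : ℕ) (h0 : 1 ≤ k0) {a : ℝ} (ha : 1 / 2 < a) : ∃ C : ℝ, 0 < C ∧
    ∀ V : ℝ, |V| ≤ k0 → ∀ (y : ℝ) (K : ℕ) (Y : ℝ), (∀ n ∈ FS y K, 1 ≤ n ∧ (n : ℝ) ≤ Y) → 0 ≤ Y →
      ∑ n ∈ FS y K, ‖dS (V : ℂ) n‖ ≤ Y → ∀ δ X : ℝ, 0 < δ → δ ≤ 1 / 2 → 0 ≤ X →
      ∀ M N : ℕ, 1 ≤ M → 1 ≤ N → ∀ w : ℂ, a ≤ w.re →
      ∫ t in (0:ℝ)..X, ‖AS (V : ℂ) y K (pw δ t)‖ ^ 2 * ‖DN N (w + t * I) * EM M (fun _ => 1) (w + t * I) - 1‖ ^ 2 ≤
        2 * (X * (C * (M:ℝ) ^ (-(a - 1 / 2)) * S2 (V : ℂ) δ) + (N:ℝ) ^ 5 * (8 * Y * Y ^ 2)) +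
        2 * ((2 ^ (pr M).card) ^ 2 * (X * (C * (N:ℝ) ^ (-(a - 1 / 2)) * S2 (V : ℂ) δ) +
          ((N * ∏ p ∈ pr M, p : ℕ) : ℝ) ^ 5 * (8 * Y * Y ^ 2))) := by
  obtain ⟨C, hC, hg⟩ := glb MVS.main k0 h0 ha
  refine ⟨C, hC, ?_⟩
  intro V hVk y K Y hF hY hSg δ X hδ hδ1 hX M N hM hN w hw
  have hM1 : (1 : ℝ) ≤ M := by exact_mod_cast hM
  have hN1 : (1 : ℝ) ≤ N := by exact_mod_cast hN
  have hP : 1 ≤ ∏ p ∈ pr M, p := pr_pos (Finset.Subset.refl _)
  have hNP : N ≤ N * ∏ p ∈ pr M, p := Nat.le_mul_of_pos_right N hP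
  have hNP1 : (1 : ℝ) ≤ ((N * ∏ p ∈ pr M, p : ℕ) : ℝ) := by exact_mod_cast hN.trans hNP
  have hpos1 : ∀ m ∈ S1 M N, 1 ≤ m ∧ (M : ℝ) ≤ m ∧ (m : ℝ) ≤ N := by
    intro m hm
    have h1 := S1_gt hm
    have h2 : m ≤ N := by
      unfold S1 at hm
      rw [Finset.mem_filter, Finset.mem_Icc] at hm
      exact hm.1.2
    exact ⟨by omega, by exact_mod_cast h1.le, by exact_mod_cast h2⟩
  have hpos2 : ∀ m ∈ Finset.Icc (N + 1) (N * ∏ p ∈ pr M, p), 1 ≤ m ∧ (N : ℝ) ≤ m ∧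
      (m : ℝ) ≤ ((N * ∏ p ∈ pr M, p : ℕ) : ℝ) := by
    intro m hm
    rw [Finset.mem_Icc] at hm
    exact ⟨by omega, by exact_mod_cast (by omega : N ≤ m), by exact_mod_cast hm.2⟩
  have r1 := hg V hVk y K Y Y hF hY hSg δ X hδ hδ1 hX (S1 M N) M N 1 hM1 zero_le_one hpos1 hN1 (fun _ => 1)
    (fun _ _ => by simp) w hw
  have r2 := hg V hVk y K Y Y hF hY hSg δ X hδ hδ1 hX (Finset.Icc (N + 1) (N * ∏ p ∈ pr M, p)) N
    ((N * ∏ p ∈ pr M, p : ℕ) : ℝ) (2 ^ (pr M).card) hN1 (by positivity) hpos2 hNP1 (cf M N)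
    (fun m _ => cf_norm M N m) w hw
  rw [one_pow, one_mul] at r1
  have hc : ∀ (S : Finset ℕ) (b : ℕ → ℂ), (∀ m ∈ S, 1 ≤ m) →
      Continuous fun t : ℝ => ∑ m ∈ S, b m * (m : ℂ) ^ (-(w + t * I)) := by
    intro S b hS
    refine continuous_finsetSum _ fun m hm => continuous_const.mul (Continuous.const_cpow (by fun_prop) (Or.inl ?_))
    exact_mod_cast (by have := hS m hm; omega : m ≠ 0)
  have cA : Continuous fun t : ℝ => ‖AS (V : ℂ) y K (pw δ t)‖ ^ 2 := (AS_cont _ _ _ _).norm.pow 2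
  have c1 : Continuous fun t : ℝ => ‖AS (V : ℂ) y K (pw δ t)‖ ^ 2 *
      ‖∑ a ∈ S1 M N, (fun _ => (1:ℂ)) a * (a : ℂ) ^ (-(w + t * I))‖ ^ 2 :=
    cA.mul ((hc _ _ fun m hm => (hpos1 m hm).1).norm.pow 2)
  have c2 : Continuous fun t : ℝ => ‖AS (V : ℂ) y K (pw δ t)‖ ^ 2 *
      ‖∑ a ∈ Finset.Icc (N + 1) (N * ∏ p ∈ pr M, p), cf M N a * (a : ℂ) ^ (-(w + t * I))‖ ^ 2 :=
    cA.mul ((hc _ _ fun m hm => (hpos2 m hm).1).norm.pow 2)
  have c0 : Continuous fun t : ℝ => ‖AS (V : ℂ) y K (pw δ t)‖ ^ 2 *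
      ‖DN N (w + t * I) * EM M (fun _ => 1) (w + t * I) - 1‖ ^ 2 := by
    have cl : Continuous (fun t : ℝ => w + (t : ℂ) * I) := by fun_prop
    exact cA.mul (((((rough_mv_DN_cont N).comp cl).mul ((rough_mv_EM_cont M).comp cl)).sub continuous_const).norm.pow 2)
  have key : ∫ t in (0:ℝ)..X, ‖AS (V : ℂ) y K (pw δ t)‖ ^ 2 *
      ‖DN N (w + t * I) * EM M (fun _ => 1) (w + t * I) - 1‖ ^ 2 ≤
      ∫ t in (0:ℝ)..X, (2 * (‖AS (V : ℂ) y K (pw δ t)‖ ^ 2 *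
        ‖∑ a ∈ S1 M N, (fun _ => (1:ℂ)) a * (a : ℂ) ^ (-(w + t * I))‖ ^ 2) +
        2 * (‖AS (V : ℂ) y K (pw δ t)‖ ^ 2 *
      ‖∑ a ∈ Finset.Icc (N + 1) (N * ∏ p ∈ pr M, p), cf M N a * (a : ℂ) ^ (-(w + t * I))‖ ^ 2)) := by
    refine intervalIntegral.integral_mono_on hX (c0.intervalIntegrable _ _)
      (((c1.intervalIntegrable _ _).const_mul 2).add ((c2.intervalIntegrable _ _).const_mul 2)) fun t _ => ?_
    rw [split_eq M N hN]
    have h1 := sq_add_le (∑ m ∈ S1 M N, (m : ℂ) ^ (-(w + t * I)))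
      (∑ m ∈ Finset.Icc (N + 1) (N * ∏ p ∈ pr M, p), cf M N m * (m : ℂ) ^ (-(w + t * I)))
    simp only [one_mul]
    have h2 : 0 ≤ ‖AS (V : ℂ) y K (pw δ t)‖ ^ 2 := by positivity
    nlinarith [mul_le_mul_of_nonneg_left h1 h2]
  refine key.trans ?_
  rw [intervalIntegral.integral_add ((c1.intervalIntegrable _ _).const_mul 2)
    ((c2.intervalIntegrable _ _).const_mul 2), intervalIntegral.integral_const_mul,
    intervalIntegral.integral_const_mul]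
  linarith

theorem G1_cont {a b : ℝ} (M N : ℕ) :
    ContinuousOn (fun z : ℂ => DN N z * EM M (fun _ => 1) z - 1) {z : ℂ | a ≤ z.re ∧ z.re ≤ b} :=
  (((rough_mv_DN_cont N).mul (rough_mv_EM_cont M)).sub continuous_const).continuousOn

theorem G2_cont {a b : ℝ} (h3 : b < 1) (M N : ℕ) :
    ContinuousOn (fun z : ℂ => (riemannZeta z - DN N z) * EM M (fun _ => 1) z) {z : ℂ | a ≤ z.re ∧ z.re ≤ b} :=
  ((zeta_strip h3).sub (rough_mv_DN_cont N).continuousOn).mul (rough_mv_EM_cont M).continuousOn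

theorem G0_cont {a b : ℝ} (h3 : b < 1) (M : ℕ) :
    ContinuousOn (fun z : ℂ => riemannZeta z * EM M (fun _ => 1) z - 1) {z : ℂ | a ≤ z.re ∧ z.re ≤ b} :=
  ((zeta_strip h3).mul (rough_mv_EM_cont M).continuousOn).sub continuousOn_const

/-- the mean square of the remainder -/
theorem r_bound {a b B : ℝ} (h1 : 1 / 2 < a) (h2 : a ≤ b) (h3 : b < 1) (hB : 0 < B) {θ : ℝ} (hθ : 0 < θ)
    (hθ1 : θ ≤ 1 / 2) : ∃ ω : ℝ, 0 < ω ∧ ∀ᶠ T : ℝ in atTop, ∀ M : ℕ, ∀ w ∈ rect a b B,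
      ∫ t in (0:ℝ)..T, ‖(riemannZeta (w + t * I) - DN ⌊T ^ θ⌋₊ (w + t * I)) * EM M (fun _ => 1) (w + t * I)‖ ^ 2 ≤
        (2 ^ (pr M).card) ^ 2 * T ^ (1 - ω) := by
  obtain ⟨ω, hω, h⟩ := zms a b h1 h2 h3 B hB θ hθ hθ1
  refine ⟨ω, hω, ?_⟩
  filter_upwards [h, eventually_ge_atTop 1] with T hZ' hT M w hw
  obtain ⟨hs1, hs2, hs3⟩ := hw
  have hT0 : 0 < T := by linarith
  have hZ := hZ' w.re ⟨hs1, hs2⟩
  generalize ⌊T ^ θ⌋₊ = N at *
  have hsre : 0 < w.re := by linarith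
  have hsre1 : w.re < 1 := by linarith
  have cz := rough_mv_zeta_cont w hsre1
  have cl : Continuous (fun t : ℝ => w + (t : ℂ) * I) := by fun_prop
  have cd : Continuous (fun t : ℝ => DN N (w + (t : ℂ) * I)) := (rough_mv_DN_cont N).comp cl
  have ce : Continuous (fun t : ℝ => EM M (fun _ => 1) (w + (t : ℂ) * I)) :=
    (rough_mv_EM_cont M).comp cl
  have hshift : ∫ t in (0 : ℝ)..T, ‖riemannZeta (w + t * I) - DN N (w + t * I)‖ ^ 2 ≤ T ^ (1 - ω) := by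
    refine le_trans ?_ hZ
    have e2 : ∀ t : ℝ, w + (t : ℂ) * I = (w.re : ℂ) + ((w.im + t : ℝ) : ℂ) * I := by
      intro t
      conv_lhs => rw [← Complex.re_add_im w]
      push_cast
      ring
    have e3 : ∫ t in (0 : ℝ)..T, ‖riemannZeta (w + t * I) - DN N (w + t * I)‖ ^ 2 =
        ∫ t in (0 : ℝ)..T, (fun r : ℝ => ‖riemannZeta ((w.re : ℂ) + r * I) -
          DN N ((w.re : ℂ) + r * I)‖ ^ 2) (w.im + t) := by
      apply intervalIntegral.integral_congr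
      intro t _
      simp only
      rw [e2 t]
    have e4 := intervalIntegral.integral_comp_add_left (a := 0) (b := T)
      (fun r : ℝ => ‖riemannZeta ((w.re : ℂ) + r * I) - DN N ((w.re : ℂ) + r * I)‖ ^ 2) w.im
    rw [e3]
    refine le_trans (le_of_eq e4) ?_
    have hy := abs_le.1 hs3
    have cz' := rough_mv_zeta_cont (w.re : ℂ) (by simpa using hsre1)
    have cd' : Continuous (fun t : ℝ => DN N ((w.re : ℂ) + (t : ℂ) * I)) :=
      (rough_mv_DN_cont N).comp (by fun_prop)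
    apply intervalIntegral.integral_mono_interval (by linarith [hy.1]) (by linarith)
      (by linarith [hy.2])
    · exact Filter.Eventually.of_forall (fun t => by positivity)
    · exact ((cz'.sub cd').norm.pow 2).intervalIntegrable _ _
  calc ∫ t in (0:ℝ)..T, ‖(riemannZeta (w + t * I) - DN N (w + t * I)) * EM M (fun _ => 1) (w + t * I)‖ ^ 2
      ≤ ∫ t in (0:ℝ)..T, (2 ^ (pr M).card) ^ 2 * ‖riemannZeta (w + t * I) - DN N (w + t * I)‖ ^ 2 := by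
        refine intervalIntegral.integral_mono_on hT0.le ((((cz.sub cd).mul ce).norm.pow 2).intervalIntegrable _ _)
          ((continuous_const.mul ((cz.sub cd).norm.pow 2)).intervalIntegrable _ _) fun t _ => ?_
        have hE := rough_mv_EM_le M (w + t * I) (by simpa using hsre)
        rw [norm_mul, mul_pow, mul_comm]
        exact mul_le_mul_of_nonneg_right (pow_le_pow_left₀ (norm_nonneg _) hE 2) (by positivity)
    _ = (2 ^ (pr M).card) ^ 2 * ∫ t in (0:ℝ)..T, ‖riemannZeta (w + t * I) - DN N (w + t * I)‖ ^ 2 :=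
        intervalIntegral.integral_const_mul _ _
    _ ≤ _ := mul_le_mul_of_nonneg_left hshift (by positivity)

/-- the splitting of the error -/
theorem J_split {a b B : ℝ} (h3 : b < 1) (M N : ℕ) (t : ℝ) :
    JM a b B M t ≤ 2 * (∫ w in rect a b B, ‖DN N (w + t * I) * EM M (fun _ => 1) (w + t * I) - 1‖ ^ 2) +
      2 * ∫ w in rect a b B, ‖(riemannZeta (w + t * I) - DN N (w + t * I)) * EM M (fun _ => 1) (w + t * I)‖ ^ 2 := by
  have hK := ZU.J_e1b.fubini_bound_compact a b B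
  have hmem : ∀ w ∈ rect a b B, w + t * I ∈ {z : ℂ | a ≤ z.re ∧ z.re ≤ b} := fun w hw => strip_shift hw t
  have hl : ContinuousOn (fun w : ℂ => w + (t:ℂ) * I) (rect a b B) := by fun_prop
  have i0 : IntegrableOn (fun w : ℂ => ‖riemannZeta (w + t * I) * EM M (fun _ => 1) (w + t * I) - 1‖ ^ 2) (rect a b B) :=
    (((G0_cont h3 M).comp hl hmem).norm.pow 2).integrableOn_compact hK
  have i1 : IntegrableOn (fun w : ℂ => ‖DN N (w + t * I) * EM M (fun _ => 1) (w + t * I) - 1‖ ^ 2) (rect a b B) :=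
    (((G1_cont M N).comp hl hmem).norm.pow 2).integrableOn_compact hK
  have i2 : IntegrableOn (fun w : ℂ => ‖(riemannZeta (w + t * I) - DN N (w + t * I)) * EM M (fun _ => 1) (w + t * I)‖ ^ 2)
      (rect a b B) := (((G2_cont h3 M N).comp hl hmem).norm.pow 2).integrableOn_compact hK
  unfold JM
  rw [← integral_const_mul, ← integral_const_mul, ← integral_add (i1.const_mul 2) (i2.const_mul 2)]
  refine integral_mono i0 ((i1.const_mul 2).add (i2.const_mul 2)) fun w => ?_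
  have h1 := sq_add_le (DN N (w + t * I) * EM M (fun _ => 1) (w + t * I) - 1)
    ((riemannZeta (w + t * I) - DN N (w + t * I)) * EM M (fun _ => 1) (w + t * I))
  have e : (DN N (w + t * I) * EM M (fun _ => 1) (w + t * I) - 1) +
    ((riemannZeta (w + t * I) - DN N (w + t * I)) * EM M (fun _ => 1) (w + t * I)) =
    riemannZeta (w + t * I) * EM M (fun _ => 1) (w + t * I) - 1 := by ring
  rw [e] at h1
  exact h1

end Pool.Agent.U899.UM
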