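import Pool.Agent.U899.TM.RealG
import Pool.Agent.N748.GC.Clo
import Pool.Agent.U899.UM.Tail

set_option autoImplicit false

/-! The tilted means on the torus of the small primes: product functions, positivity, Euler products. -/

namespace Pool.Agent.U899.UM

open Finset Filter MeasureTheory Topology Complex UnitAddTorus
open Pool.Agent.N748.GC (lw M0 E0 HP pt Om PO)
open Pool.Agent.N748.GC.RZ (M0_cont M0_pos int_restr E0_pos lw_cont)
open Pool.Agent.U899.TM (tm tm_one)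
open ZU (DN rect pr EM)

theorem PO_indep : ProbabilityTheory.iIndepFun (fun (i : ℕ) (w : Om) => w i) PO := by
  have h := ProbabilityTheory.iIndepFun_infinitePi (ι := ℕ) (Ω := fun _ => UnitAddCircle)
    (𝓧 := fun _ => UnitAddCircle)
    (P := fun _ => (AddCircle.haarAddCircle (T := (1:ℝ)))) (X := fun _ x => x) (fun _ => measurable_id)
  exact h

theorem M0_mul (V : ℝ) {S D P : Finset ℕ} (hd : Disjoint S D) (hS : S ⊆ P) (hD : D ⊆ P) (hP : S ∪ D = P)
    (x : P → UnitAddCircle) :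
    M0 V P x = M0 V S (fun p => x ⟨p, hS p.2⟩) * M0 V D (fun p => x ⟨p, hD p.2⟩) := by
  classical
  subst hP
  have key : ∀ {M : Type} [CommMonoid M] (f : (S ∪ D : Finset ℕ) → M),
      ∏ p : (S ∪ D : Finset ℕ), f p = (∏ p : S, f ⟨p, hS p.2⟩) * ∏ p : D, f ⟨p, hD p.2⟩ := by
    intro M _ f
    obtain ⟨g, hg⟩ : ∃ g : ℕ → M, ∀ p : (S ∪ D : Finset ℕ), f p = g p := by
      refine ⟨fun n => if h : n ∈ S ∪ D then f ⟨n, h⟩ else 1, fun p => ?_⟩
      simp only [p.2, dif_pos]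
    simp only [hg]
    rw [Finset.prod_coe_sort (S ∪ D) g, Finset.prod_coe_sort S g, Finset.prod_coe_sort D g,
      Finset.prod_union hd]
  have k1 : ∑ p : (S ∪ D : Finset ℕ), lw V p (x p) =
      (∑ p : S, lw V p (x ⟨p, hS p.2⟩)) + ∑ p : D, lw V p (x ⟨p, hD p.2⟩) :=
    key (M := Multiplicative ℝ) fun p => Multiplicative.ofAdd (lw V p (x p))
  have k2 : E0 V (S ∪ D) = E0 V S * E0 V D := by
    unfold E0
    exact key fun p => ∫ y, Real.exp (lw V p y) ∂(AddCircle.haarAddCircle (T := (1:ℝ)))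
  unfold M0
  rw [k1, k2, Real.exp_add, mul_div_mul_comm]

theorem tm_mul (V : ℝ) {S D P : Finset ℕ} (hd : Disjoint S D) (hS : S ⊆ P) (hD : D ⊆ P) (hP : S ∪ D = P)
    (hPr : ∀ p ∈ P, p.Prime) {F0 : (S → UnitAddCircle) → ℝ} {F1 : (D → UnitAddCircle) → ℝ}
    (h0 : Continuous F0) (h1 : Continuous F1) :
    tm V P (fun x => F0 (fun p => x ⟨p, hS p.2⟩) * F1 (fun p => x ⟨p, hD p.2⟩)) = tm V S F0 * tm V D F1 := by
  have hSp : ∀ p ∈ S, p.Prime := fun p hp => hPr p (hS hp)
  have hDp : ∀ p ∈ D, p.Prime := fun p hp => hPr p (hD hp)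
  have c0 : Continuous fun x : S → UnitAddCircle => F0 x * M0 V S x := h0.mul (M0_cont V S hSp)
  have c1 : Continuous fun x : D → UnitAddCircle => F1 x * M0 V D x := h1.mul (M0_cont V D hDp)
  have rS : Continuous fun x : P → UnitAddCircle => (fun p : S => x ⟨p, hS p.2⟩) := by fun_prop
  have rD : Continuous fun x : P → UnitAddCircle => (fun p : D => x ⟨p, hD p.2⟩) := by fun_prop
  have c : Continuous fun x : P → UnitAddCircle =>
      (F0 (fun p => x ⟨p, hS p.2⟩) * F1 (fun p => x ⟨p, hD p.2⟩)) * M0 V P x :=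
    ((h0.comp rS).mul (h1.comp rD)).mul (M0_cont V P hPr)
  unfold tm
  rw [← int_restr P _ c, ← int_restr S _ c0, ← int_restr D _ c1]
  have hI := PO_indep.indepFun_finset S D hd (fun i => by fun_prop)
  have h := hI.integral_fun_comp_mul_comp (f := fun x : S → UnitAddCircle => F0 x * M0 V S x)
    (g := fun x : D → UnitAddCircle => F1 x * M0 V D x)
    (measurable_pi_lambda _ fun i => measurable_pi_apply _).aemeasurable
    (measurable_pi_lambda _ fun i => measurable_pi_apply _).aemeasurable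
    c0.measurable.aestronglyMeasurable c1.measurable.aestronglyMeasurable
  rw [← h]
  refine integral_congr_ae (Filter.Eventually.of_forall fun w => ?_)
  simp only
  rw [M0_mul V hd hS hD hP]
  ring

theorem tm_pos (V : ℝ) {P : Finset ℕ} (hP : ∀ p ∈ P, p.Prime) {F : (P → UnitAddCircle) → ℝ} (hF : Continuous F)
    (h0 : ∀ x, 0 ≤ F x) {x0 : P → UnitAddCircle} (hx : 0 < F x0) : 0 < tm V P F := by
  unfold tm
  have c : Continuous fun x : P → UnitAddCircle => F x * M0 V P x := hF.mul (M0_cont V P hP)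
  have : (HP P).IsOpenPosMeasure := by
    unfold HP; infer_instance
  exact c.integral_pos_of_hasCompactSupport_nonneg_nonzero (HasCompactSupport.of_compactSpace _)
    (fun x => mul_nonneg (h0 x) (M0_pos V P hP x).le) (x := x0) (mul_pos hx (M0_pos V P hP x0)).ne'

theorem pr_prime {M : ℕ} : ∀ p ∈ pr M, p.Prime := fun p hp => (Finset.mem_filter.1 hp).2

theorem pr_mono {M A : ℕ} (h : M ≤ A) : pr M ⊆ pr A := by
  intro p hp
  unfold pr at hp ⊢
  rw [Finset.mem_filter, Finset.mem_Icc] at hp ⊢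
  exact ⟨⟨hp.1.1, hp.1.2.trans h⟩, hp.2⟩

/-- the Euler polynomial on the torus -/
noncomputable def rx (D : Finset ℕ) (x : D → UnitAddCircle) (w : ℂ) : ℂ :=
  ∏ p : D, (1 - (fourier 1 (x p) : ℂ) * ((p : ℕ) : ℂ) ^ (-w))

theorem rx_cont {D : Finset ℕ} (hD : ∀ p ∈ D, p.Prime) : Continuous fun q : (D → UnitAddCircle) × ℂ => rx D q.1 q.2 := by
  unfold rx
  refine continuous_finsetProd _ fun p _ => ?_
  have hp0 : (((p : ℕ) : ℂ)) ≠ 0 := by exact_mod_cast (hD p p.2).ne_zero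
  have h1 : Continuous fun q : (D → UnitAddCircle) × ℂ => (fourier 1 (q.1 p) : ℂ) :=
    (fourier 1 : C(UnitAddCircle, ℂ)).continuous.comp ((continuous_apply p).comp continuous_fst)
  have h2 : Continuous fun q : (D → UnitAddCircle) × ℂ => ((p : ℕ) : ℂ) ^ (-q.2) :=
    Continuous.const_cpow (by fun_prop) (Or.inl hp0)
  exact continuous_const.sub (h1.mul h2)

theorem rx_diff {D : Finset ℕ} (hD : ∀ p ∈ D, p.Prime) (x : D → UnitAddCircle) : Differentiable ℂ (rx D x) := by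
  intro s
  unfold rx
  apply DifferentiableAt.fun_finsetProd
  intro p _
  have hp0 : (((p : ℕ) : ℂ)) ≠ 0 := by exact_mod_cast (hD p p.2).ne_zero
  exact ((differentiableAt_id.neg.const_cpow (Or.inl hp0)).const_mul _).const_sub 1

/-- the deviation from one on a rectangle -/
noncomputable def ux (a b B : ℝ) (D : Finset ℕ) (x : D → UnitAddCircle) : ℝ :=
  ∫ w in rect a b B, ‖rx D x w - 1‖ ^ 2

theorem ux_cont (a b B : ℝ) {D : Finset ℕ} (hD : ∀ p ∈ D, p.Prime) : Continuous (ux a b B D) := by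
  have h : Continuous (Function.uncurry fun (x : D → UnitAddCircle) (w : ℂ) => ‖rx D x w - 1‖ ^ 2) :=
    (((rx_cont hD).sub continuous_const).norm).pow 2
  exact continuous_parametric_integral_of_continuous h (ZU.J_e1b.fubini_bound_compact a b B)

theorem ux_nonneg (a b B : ℝ) (D : Finset ℕ) (x : D → UnitAddCircle) : 0 ≤ ux a b B D x :=
  integral_nonneg fun _ => by positivity

theorem four_pt0 {P : Finset ℕ} (p : P) (hp : (p:ℕ) ≠ 0) (t : ℝ) :
    (fourier 1 (pt P t p) : ℂ) = ((p:ℕ):ℂ) ^ (-(t * I : ℂ)) := by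
  have h := Pool.Agent.N748.GC.four_pt p hp 0 t
  simpa using h

theorem rx_pt {D : Finset ℕ} (hD : ∀ p ∈ D, p.Prime) (t : ℝ) (s : ℂ) :
    rx D (pt D t) s = ∏ p ∈ D, (1 - (1:ℂ) * (p : ℂ) ^ (-(s + t * I))) := by
  unfold rx
  rw [← Finset.prod_coe_sort D]
  refine Finset.prod_congr rfl fun p _ => ?_
  have hp0 : (((p : ℕ) : ℂ)) ≠ 0 := by exact_mod_cast (hD p p.2).ne_zero
  rw [four_pt0 p (hD p p.2).ne_zero, one_mul, neg_add, Complex.cpow_add _ _ hp0, mul_comm]

/-- the factors -/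
theorem EM_split {M A : ℕ} (h : M ≤ A) (t : ℝ) (s : ℂ) :
    EM A (fun _ => 1) (s + t * I) = EM M (fun _ => 1) (s + t * I) * rx (pr A \ pr M) (pt (pr A \ pr M) t) s := by
  rw [rx_pt (fun p hp => pr_prime p (Finset.mem_sdiff.1 hp).1)]
  have h1 := Finset.prod_sdiff (f := fun p : ℕ => 1 - (1:ℂ) * (p : ℂ) ^ (-(s + t * I))) (pr_mono h)
  change ∏ p ∈ pr A, (1 - (1:ℂ) * (p : ℂ) ^ (-(s + t * I))) = (∏ p ∈ pr M, (1 - (1:ℂ) * (p : ℂ) ^ (-(s + t * I)))) * _
  rw [← h1, mul_comm]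

end Pool.Agent.U899.UM
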