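import Pool.Agent.U899.UM.Sub
import Pool.Agent.U899.TM.TCM

set_option autoImplicit false

/-! Dirichlet polynomials in the second moment weighted by the approximations of the powers of zeta. -/

namespace Pool.Agent.U899.UM

open Finset Filter MeasureTheory Topology Complex
open Pool.Agent.N748.MG
open Pool.Agent.N748.MG.DIA2 (ft ft_summable)
open Pool.Agent.N748.GC (chr)
open Pool.Agent.U899.TM (GS tw mvt chr_cont)

/-- `∑ |d_s(l)|^2 l^(-1-2δ)` -/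
noncomputable def S2 (s : ℂ) (δ : ℝ) : ℝ := ∑' l : ℕ, ‖ft s δ l‖

theorem ft_norm (s : ℂ) (δ : ℝ) (l : ℕ) : ‖ft s δ l‖ = ‖dS s l‖ ^ 2 * (l : ℝ) ^ (-(1 + 2 * δ)) := by
  unfold ft
  rw [norm_mul, norm_pow, Complex.norm_real, Real.norm_of_nonneg (Real.rpow_nonneg (Nat.cast_nonneg _) _)]

theorem S2_nonneg (s : ℂ) (δ : ℝ) : 0 ≤ S2 s δ := tsum_nonneg fun _ => norm_nonneg _

theorem AS_cont (s : ℂ) (y : ℝ) (K : ℕ) (δ : ℝ) : Continuous fun t : ℝ => AS s y K (pw δ t) := by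
  unfold AS
  refine continuous_finsetSum _ fun n hn => ?_
  have hn0 : n ≠ 0 := by
    unfold FS at hn
    rw [Finset.mem_filter] at hn
    exact hn.2.1
  refine continuous_const.mul (Continuous.const_cpow (by unfold pw; fun_prop) (Or.inl ?_))
  exact_mod_cast hn0

theorem main_le {k0 : ℕ} (h0 : 1 ≤ k0) {s : ℂ} (hs : ‖s‖ ≤ k0) {h k : ℕ} (hh : h ≠ 0) (hk : k ≠ 0) (y : ℝ) (K : ℕ)
    {δ : ℝ} (hδ : 0 < δ) : ‖((((h : ℝ) * k) ^ (-(1 / 2 + δ)) : ℝ) : ℂ) * ∑ l ∈ GS y K h k, tw h k s δ l‖ ≤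
      (((h : ℝ) * k) ^ (-(1 / 2 : ℝ))) * (‖dS (k0 : ℂ) h‖ * ‖dS (k0 : ℂ) k‖) * S2 s δ := by
  have h1 : (1 : ℝ) ≤ h := by exact_mod_cast Nat.one_le_iff_ne_zero.2 hh
  have k1 : (1 : ℝ) ≤ k := by exact_mod_cast Nat.one_le_iff_ne_zero.2 hk
  have hhk : (1 : ℝ) ≤ (h : ℝ) * k := one_le_mul_of_one_le_of_one_le h1 k1
  rw [norm_mul, Complex.norm_real, Real.norm_of_nonneg (Real.rpow_nonneg (by linarith) _), mul_assoc]
  refine mul_le_mul (Real.rpow_le_rpow_of_exponent_le hhk (by linarith)) ?_ (norm_nonneg _)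
    (Real.rpow_nonneg (by linarith) _)
  refine (norm_sum_le _ _).trans ?_
  have hsum := ft_summable s k0 hs hδ
  have hle : ∑ l ∈ GS y K h k, ‖ft s δ l‖ ≤ S2 s δ := hsum.sum_le_tsum _ fun _ _ => norm_nonneg _
  calc ∑ l ∈ GS y K h k, ‖tw h k s δ l‖ ≤ ∑ l ∈ GS y K h k, (‖dS (k0 : ℂ) h‖ * ‖dS (k0 : ℂ) k‖) * ‖ft s δ l‖ := by
        refine Finset.sum_le_sum fun l hl => ?_
        have hl0 : l ≠ 0 := by
          unfold GS at hl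
          rw [Finset.mem_filter] at hl
          have h3 := hl.2.1
          unfold FS at h3
          rw [Finset.mem_filter] at h3
          intro h4
          rw [h4, mul_zero] at h3
          exact h3.2.1 rfl
        rw [ft_norm]
        unfold tw
        rw [norm_mul, norm_mul, Complex.norm_real, Real.norm_of_nonneg (Real.rpow_nonneg (Nat.cast_nonneg _) _)]
        have a1 := dS_sub h0 hs hk hl0
        have a2 := dS_sub h0 hs hh hl0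
        calc ‖dS s (k * l)‖ * ‖dS s (h * l)‖ * (l:ℝ) ^ (-(1 + 2 * δ))
            ≤ ((‖dS (k0 : ℂ) k‖ * ‖dS s l‖) * (‖dS (k0 : ℂ) h‖ * ‖dS s l‖)) * (l:ℝ) ^ (-(1 + 2 * δ)) := by
              gcongr
          _ = _ := by ring
    _ = (‖dS (k0 : ℂ) h‖ * ‖dS (k0 : ℂ) k‖) * ∑ l ∈ GS y K h k, ‖ft s δ l‖ := by rw [Finset.mul_sum]
    _ ≤ _ := mul_le_mul_of_nonneg_left hle (by positivity)

theorem chr_pow {a b : ℕ} (ha : 1 ≤ a) (hb : 1 ≤ b) (t : ℝ) :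
    (a : ℂ) ^ (-((t : ℂ) * I)) * (starRingEnd ℂ) ((b : ℂ) ^ (-((t : ℂ) * I))) = chr (al a b) (al b a) t := by
  have ha0 : (a : ℂ) ≠ 0 := by exact_mod_cast (by omega : a ≠ 0)
  have hb0 : (b : ℂ) ≠ 0 := by exact_mod_cast (by omega : b ≠ 0)
  have hg : 0 < Nat.gcd a b := Nat.gcd_pos_of_pos_left _ ha
  have hg0 : (0 : ℝ) < Nat.gcd a b := by exact_mod_cast hg
  have hx0 : (0 : ℝ) < al a b := by exact_mod_cast al_pos ha
  have hy0 : (0 : ℝ) < al b a := by exact_mod_cast al_pos hb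
  have e1 : Real.log a = Real.log (Nat.gcd a b) + Real.log (al a b) := by
    rw [← Real.log_mul hg0.ne' hx0.ne']
    congr 1
    exact_mod_cast (al_mul a b).symm
  have e2 : Real.log b = Real.log (Nat.gcd a b) + Real.log (al b a) := by
    rw [← Real.log_mul hg0.ne' hy0.ne', Nat.gcd_comm a b]
    congr 1
    exact_mod_cast (al_mul b a).symm
  rw [cpow_def_of_ne_zero ha0, cpow_def_of_ne_zero hb0, ← natCast_log, ← natCast_log, ← Complex.exp_conj,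
    ← Complex.exp_add]
  unfold chr
  congr 1
  rw [map_mul, map_neg, map_mul, Complex.conj_ofReal, Complex.conj_ofReal, Complex.conj_I, e1, e2]
  push_cast
  ring

theorem sq_expand (S : Finset ℕ) (hS : ∀ a ∈ S, 1 ≤ a) (b : ℕ → ℂ) (w z : ℂ) (t : ℝ) :
    ((‖z‖ ^ 2 * ‖∑ a ∈ S, b a * (a : ℂ) ^ (-(w + t * I))‖ ^ 2 : ℝ) : ℂ) =
      ∑ a ∈ S, ∑ a' ∈ S, ((b a * (a : ℂ) ^ (-w)) * (starRingEnd ℂ) (b a' * (a' : ℂ) ^ (-w))) *
        (chr (al a a') (al a' a) t * (z * (starRingEnd ℂ) z)) := by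
  have h1 : ((‖z‖ ^ 2 * ‖∑ a ∈ S, b a * (a : ℂ) ^ (-(w + t * I))‖ ^ 2 : ℝ) : ℂ) =
      (z * (starRingEnd ℂ) z) * ((∑ a ∈ S, b a * (a : ℂ) ^ (-(w + t * I))) *
        (starRingEnd ℂ) (∑ a ∈ S, b a * (a : ℂ) ^ (-(w + t * I)))) := by
    rw [mul_conj', mul_conj']
    push_cast
    rfl
  rw [h1, map_sum, Finset.sum_mul_sum, Finset.mul_sum]
  refine Finset.sum_congr rfl fun a ha => ?_
  rw [Finset.mul_sum]
  refine Finset.sum_congr rfl fun a' ha' => ?_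
  have ha0 : (a : ℂ) ≠ 0 := by exact_mod_cast (by have := hS a ha; omega : a ≠ 0)
  have hb0 : (a' : ℂ) ≠ 0 := by exact_mod_cast (by have := hS a' ha'; omega : a' ≠ 0)
  rw [neg_add, cpow_add _ _ ha0, cpow_add _ _ hb0, ← chr_pow (hS a ha) (hS a' ha') t]
  simp only [map_mul]
  ring

theorem glb (hM : S_MVS) (k0 : ℕ) (h0 : 1 ≤ k0) {σ0 : ℝ} (hσ : 1 / 2 < σ0) : ∃ C : ℝ, 0 < C ∧
    ∀ V : ℝ, |V| ≤ k0 → ∀ (y : ℝ) (K : ℕ) (N Sg : ℝ), (∀ n ∈ FS y K, 1 ≤ n ∧ (n : ℝ) ≤ N) → 0 ≤ N →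
      ∑ n ∈ FS y K, ‖dS (V : ℂ) n‖ ≤ Sg → ∀ δ X : ℝ, 0 < δ → δ ≤ 1 / 2 → 0 ≤ X →
      ∀ (S : Finset ℕ) (Z W B0 : ℝ), 1 ≤ Z → 0 ≤ B0 → (∀ a ∈ S, 1 ≤ a ∧ Z ≤ a ∧ (a : ℝ) ≤ W) → 1 ≤ W →
      ∀ b : ℕ → ℂ, (∀ a ∈ S, ‖b a‖ ≤ B0) → ∀ w : ℂ, σ0 ≤ w.re →
      ∫ t in (0:ℝ)..X, ‖AS (V : ℂ) y K (pw δ t)‖ ^ 2 * ‖∑ a ∈ S, b a * (a : ℂ) ^ (-(w + t * I))‖ ^ 2 ≤
        B0 ^ 2 * (X * (C * Z ^ (-(σ0 - 1 / 2)) * S2 (V : ℂ) δ) + W ^ 5 * (8 * N * Sg ^ 2)) := by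
  obtain ⟨C, hC, hg⟩ := gcd_sum k0 hσ
  refine ⟨C, hC, ?_⟩
  intro V hVk y K N Sg hF hN hSg δ X hδ hδ1 hX S Z W B0 hZ hB0 hS hW b hb w hw
  have hVn : ‖(V : ℂ)‖ ≤ k0 := by rw [Complex.norm_real]; exact hVk
  have hcj : (starRingEnd ℂ) (V : ℂ) = V := Complex.conj_ofReal V
  have hSg0 : 0 ≤ Sg := (Finset.sum_nonneg fun _ _ => norm_nonneg _).trans hSg
  have hScard : (S.card : ℝ) ≤ W := by
    have h1 : S ⊆ Finset.Icc 1 ⌊W⌋₊ := by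
      intro a ha
      obtain ⟨h2, -, h4⟩ := hS a ha
      exact Finset.mem_Icc.2 ⟨h2, Nat.le_floor h4⟩
    have h2 := Finset.card_le_card h1
    rw [Nat.card_Icc, Nat.add_sub_cancel] at h2
    exact (Nat.cast_le.2 h2).trans (Nat.floor_le (by linarith))
  -- the integrals of the terms
  have hI : ∀ a ∈ S, ∀ a' ∈ S, ‖∫ t in (0:ℝ)..X, chr (al a a') (al a' a) t * (AS (V : ℂ) y K (pw δ t) *
      (starRingEnd ℂ) (AS (V : ℂ) y K (pw δ t)))‖ ≤ X * ((((al a a' : ℝ) * al a' a) ^ (-(1 / 2 : ℝ))) *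
        (‖dS (k0 : ℂ) (al a a')‖ * ‖dS (k0 : ℂ) (al a' a)‖) * S2 (V : ℂ) δ) + W ^ 3 * (8 * N * Sg ^ 2) := by
    intro a ha a' ha'
    obtain ⟨p1, p2, p3⟩ := hS a ha
    obtain ⟨q1, q2, q3⟩ := hS a' ha'
    have hh : al a a' ≠ 0 := Nat.one_le_iff_ne_zero.1 (al_pos p1)
    have hk : al a' a ≠ 0 := Nat.one_le_iff_ne_zero.1 (al_pos q1)
    have h1 := mvt hM hh hk (al_coprime p1) hF hδ.le hδ1 hX (V : ℂ)
    rw [hcj] at h1
    have h2 := main_le h0 hVn hh hk y K hδ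
    have h3 : ((al a a' : ℝ)) ≤ W := (by exact_mod_cast al_le a a' : (al a a' : ℝ) ≤ a).trans p3
    have h4 : ((al a' a : ℝ)) ≤ W := (by exact_mod_cast al_le a' a : (al a' a : ℝ) ≤ a').trans q3
    have h5 : (((al a a' : ℝ) * al a' a) * (((al a a' : ℝ) + al a' a) * (4 * N * (∑ n ∈ FS y K, ‖dS (V : ℂ) n‖) *
        (∑ n ∈ FS y K, ‖dS (V : ℂ) n‖)))) ≤ W ^ 3 * (8 * N * Sg ^ 2) := by
      have n0 : 0 ≤ ∑ n ∈ FS y K, ‖dS (V : ℂ) n‖ := Finset.sum_nonneg fun _ _ => norm_nonneg _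
      calc _ ≤ (W * W) * ((W + W) * (4 * N * Sg * Sg)) := by gcongr
        _ = _ := by ring
    calc ‖∫ t in (0:ℝ)..X, chr (al a a') (al a' a) t * (AS (V : ℂ) y K (pw δ t) *
        (starRingEnd ℂ) (AS (V : ℂ) y K (pw δ t)))‖
        ≤ ‖(∫ t in (0:ℝ)..X, chr (al a a') (al a' a) t * (AS (V : ℂ) y K (pw δ t) *
          (starRingEnd ℂ) (AS (V : ℂ) y K (pw δ t)))) -
          X * (((((al a a' : ℝ) * al a' a) ^ (-(1 / 2 + δ)) : ℝ) : ℂ) *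
            ∑ l ∈ GS y K (al a a') (al a' a), tw (al a a') (al a' a) (V : ℂ) δ l)‖ +
          ‖(X : ℂ) * (((((al a a' : ℝ) * al a' a) ^ (-(1 / 2 + δ)) : ℝ) : ℂ) *
            ∑ l ∈ GS y K (al a a') (al a' a), tw (al a a') (al a' a) (V : ℂ) δ l)‖ := by
          have := norm_add_le ((∫ t in (0:ℝ)..X, chr (al a a') (al a' a) t * (AS (V : ℂ) y K (pw δ t) *
            (starRingEnd ℂ) (AS (V : ℂ) y K (pw δ t)))) -
            X * (((((al a a' : ℝ) * al a' a) ^ (-(1 / 2 + δ)) : ℝ) : ℂ) *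
            ∑ l ∈ GS y K (al a a') (al a' a), tw (al a a') (al a' a) (V : ℂ) δ l))
            ((X : ℂ) * (((((al a a' : ℝ) * al a' a) ^ (-(1 / 2 + δ)) : ℝ) : ℂ) *
            ∑ l ∈ GS y K (al a a') (al a' a), tw (al a a') (al a' a) (V : ℂ) δ l))
          rwa [sub_add_cancel] at this
      _ ≤ W ^ 3 * (8 * N * Sg ^ 2) + X * ((((al a a' : ℝ) * al a' a) ^ (-(1 / 2 : ℝ))) *
        (‖dS (k0 : ℂ) (al a a')‖ * ‖dS (k0 : ℂ) (al a' a)‖) * S2 (V : ℂ) δ) := by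
          refine add_le_add (h1.trans h5) ?_
          rw [norm_mul, Complex.norm_real, Real.norm_of_nonneg hX]
          exact mul_le_mul_of_nonneg_left h2 hX
      _ = _ := add_comm _ _
  -- the expansion
  have hcont : ∀ a a' : ℕ, Continuous fun t : ℝ => chr (al a a') (al a' a) t * (AS (V : ℂ) y K (pw δ t) *
      (starRingEnd ℂ) (AS (V : ℂ) y K (pw δ t))) := fun a a' =>
    (chr_cont _ _).mul ((AS_cont _ _ _ _).mul (Complex.continuous_conj.comp (AS_cont _ _ _ _)))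
  have hE : (((∫ t in (0:ℝ)..X, ‖AS (V : ℂ) y K (pw δ t)‖ ^ 2 * ‖∑ a ∈ S, b a * (a : ℂ) ^ (-(w + t * I))‖ ^ 2 : ℝ)) : ℂ) =
      ∑ a ∈ S, ∑ a' ∈ S, ((b a * (a : ℂ) ^ (-w)) * (starRingEnd ℂ) (b a' * (a' : ℂ) ^ (-w))) *
        ∫ t in (0:ℝ)..X, chr (al a a') (al a' a) t * (AS (V : ℂ) y K (pw δ t) *
      (starRingEnd ℂ) (AS (V : ℂ) y K (pw δ t))) := by
    rw [← intervalIntegral.integral_ofReal]
    simp only [sq_expand S (fun a ha => (hS a ha).1) b w]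
    rw [intervalIntegral.integral_finsetSum fun a _ => ?_]
    · refine Finset.sum_congr rfl fun a _ => ?_
      rw [intervalIntegral.integral_finsetSum fun a' _ => ((hcont a a').intervalIntegrable _ _).const_mul _]
      exact Finset.sum_congr rfl fun a' _ => intervalIntegral.integral_const_mul _ _
    · exact (continuous_finsetSum _ fun a' _ => continuous_const.mul (hcont a a')).intervalIntegrable _ _
  have hnn : ∫ t in (0:ℝ)..X, ‖AS (V : ℂ) y K (pw δ t)‖ ^ 2 * ‖∑ a ∈ S, b a * (a : ℂ) ^ (-(w + t * I))‖ ^ 2 ≤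
      ‖(((∫ t in (0:ℝ)..X, ‖AS (V : ℂ) y K (pw δ t)‖ ^ 2 * ‖∑ a ∈ S, b a * (a : ℂ) ^ (-(w + t * I))‖ ^ 2 : ℝ)) : ℂ)‖ := by
    rw [Complex.norm_real]
    exact le_abs_self _
  refine hnn.trans ?_
  rw [hE]
  have hc : ∀ a ∈ S, ‖b a * (a : ℂ) ^ (-w)‖ ≤ B0 * (a : ℝ) ^ (-σ0) := by
    intro a ha
    obtain ⟨p1, p2, p3⟩ := hS a ha
    rw [norm_mul, Complex.norm_natCast_cpow_of_pos p1, Complex.neg_re]
    refine mul_le_mul (hb a ha) (Real.rpow_le_rpow_of_exponent_le (by exact_mod_cast p1) (by linarith))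
      (Real.rpow_nonneg (Nat.cast_nonneg _) _) hB0
  have hc1 : ∀ a ∈ S, ‖b a * (a : ℂ) ^ (-w)‖ ≤ B0 := by
    intro a ha
    refine (hc a ha).trans ?_
    have h1 : (a : ℝ) ^ (-σ0) ≤ 1 := Real.rpow_le_one_of_one_le_of_nonpos (by exact_mod_cast (hS a ha).1) (by linarith)
    nlinarith
  calc _ ≤ ∑ a ∈ S, ∑ a' ∈ S, (B0 ^ 2 * (X * (((a:ℝ) ^ (-σ0) * (a':ℝ) ^ (-σ0)) * ((((al a a' : ℝ) * al a' a) ^ (-(1 / 2 : ℝ))) *
        (‖dS (k0 : ℂ) (al a a')‖ * ‖dS (k0 : ℂ) (al a' a)‖)) * S2 (V : ℂ) δ)) + B0 ^ 2 * (W ^ 3 * (8 * N * Sg ^ 2))) := by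
        refine (norm_sum_le _ _).trans (Finset.sum_le_sum fun a ha => (norm_sum_le _ _).trans
          (Finset.sum_le_sum fun a' ha' => ?_))
        rw [norm_mul, norm_mul, RCLike.norm_conj]
        refine (mul_le_mul_of_nonneg_left (hI a ha a' ha') (by positivity)).trans ?_
        rw [mul_add]
        refine add_le_add ?_ ?_
        · have h1 : ‖b a * (a : ℂ) ^ (-w)‖ * ‖b a' * (a' : ℂ) ^ (-w)‖ ≤ (B0 * (a : ℝ) ^ (-σ0)) * (B0 * (a' : ℝ) ^ (-σ0)) :=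
            mul_le_mul (hc a ha) (hc a' ha') (norm_nonneg _) ((norm_nonneg _).trans (hc a ha))
          have h2 : 0 ≤ X * ((((al a a' : ℝ) * al a' a) ^ (-(1 / 2 : ℝ))) *
            (‖dS (k0 : ℂ) (al a a')‖ * ‖dS (k0 : ℂ) (al a' a)‖) * S2 (V : ℂ) δ) := by
            have := S2_nonneg (V : ℂ) δ
            positivity
          refine (mul_le_mul_of_nonneg_right h1 h2).trans (le_of_eq ?_)
          ring
        · have h1 : ‖b a * (a : ℂ) ^ (-w)‖ * ‖b a' * (a' : ℂ) ^ (-w)‖ ≤ B0 * B0 :=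
            mul_le_mul (hc1 a ha) (hc1 a' ha') (norm_nonneg _) hB0
          refine (mul_le_mul_of_nonneg_right h1 (by positivity)).trans (le_of_eq ?_)
          ring
    _ = B0 ^ 2 * (X * (∑ a ∈ S, ∑ a' ∈ S, ((a:ℝ) ^ (-σ0) * (a':ℝ) ^ (-σ0)) * ((((al a a' : ℝ) * al a' a) ^ (-(1 / 2 : ℝ))) *
        (‖dS (k0 : ℂ) (al a a')‖ * ‖dS (k0 : ℂ) (al a' a)‖))) * S2 (V : ℂ) δ) +
        (S.card : ℝ) * ((S.card : ℝ) * (B0 ^ 2 * (W ^ 3 * (8 * N * Sg ^ 2)))) := by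
        simp only [Finset.sum_add_distrib, Finset.sum_const, nsmul_eq_mul, ← Finset.mul_sum, ← Finset.sum_mul]
        ring
    _ ≤ B0 ^ 2 * (X * (C * Z ^ (-(σ0 - 1 / 2))) * S2 (V : ℂ) δ) + W * (W * (B0 ^ 2 * (W ^ 3 * (8 * N * Sg ^ 2)))) := by
        have h1 := hg S Z hZ fun a ha => ⟨(hS a ha).1, (hS a ha).2.1⟩
        have h2 := S2_nonneg (V : ℂ) δ
        gcongr
    _ = _ := by ring

end Pool.Agent.U899.UM
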