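import Pool.Agent.U899.UM.Main
import Pool.Agent.U899.TM.Trn
import Pool.Agent.U899.TM.OLF
import Pool.Agent.Helper240.ZU.N7
import Pool.Agent.Helper240.ZFM.N6
import Pool.Agent.Helper240.ZFM.Q5b

set_option autoImplicit false

/-! Universality in the moment measures: admissible targets; the moment measures near the critical line. -/

namespace Pool.Agent.U899.UM

open Finset Filter MeasureTheory Topology Complex UnitAddTorus
open Pool.Agent.N748.MG
open Pool.Agent.N748.GC (lw M0 E0 HP pt)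
open Pool.Agent.U899.TM (tm tm_one small_ev)
open ZU (DN rect pr EM)

theorem Law.intg {d : ℝ → ℝ} (hd : Ad d) {k κ : ℝ} {E : ℝ → Set ℝ} (hE : Law d k κ E) :
    ∀ᶠ T in atTop, 0 < T ∧ 0 < d T ∧ IntegrableOn (fun t => mz (d T) t ^ (2 * k)) (E T) := by
  obtain ⟨Cb, hbd⟩ := hE.bd
  filter_upwards [small_ev hd, hbd, hE.meas, eventually_gt_atTop 0] with T g1 g2 g3 g4
  refine ⟨g4, g1.1, ?_⟩
  have hm : Measurable fun t => mz (d T) t ^ (2 * k) :=
    (TMC.mz_meas (by linarith [g1.2.1])).pow_const _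
  have hf : volume (E T) < ⊤ := lt_of_le_of_lt (measure_mono (hE.sub T)) (by simp)
  refine Measure.integrableOn_of_bounded (M := d T ^ (-Cb)) hf.ne hm.aestronglyMeasurable ?_
  refine (ae_restrict_iff' g3).2 (Eventually.of_forall fun t ht => ?_)
  rw [Real.norm_of_nonneg (Real.rpow_nonneg (TMA.mz_nn _ _) _)]
  exact g2 t ht

/-- targets which are limits of exponentials of entire functions -/
theorem univ_gen {d : ℝ → ℝ} (hd : Ad d) {k κ : ℝ} (hκ : 0 < κ) {E : ℝ → Set ℝ} (hE : Law d k κ E)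
    {K : Set ℂ} (hK : IsCompact K) (hKs : K ⊆ {z | 1 / 2 < z.re ∧ z.re < 1})
    {f : ℂ → ℂ} (happ : ∀ η : ℝ, 0 < η → ∃ q : ℂ → ℂ, Differentiable ℂ q ∧ ∀ z ∈ K, ‖exp (q z) - f z‖ < η)
    {ε : ℝ} (hε : 0 < ε) :
    ∃ c : ℝ, 0 < c ∧ ∀ᶠ T in atTop, c ≤ (2 * d T) ^ (k ^ 2) * ((1 / T) *
      ∫ t in {t : ℝ | t ∈ E T ∧ ∃ δ < ε, ∀ s ∈ K, ‖riemannZeta (s + t * I) - f s‖ ≤ δ}, mz (d T) t ^ (2 * k)) := by
  obtain ⟨a, b, B, h1, h2, h3, h4, hsub⟩ := ZU.J_f.exists_rectV K hK hKs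
  obtain ⟨q, hq, hqf⟩ := happ (ε / 4) (by linarith)
  obtain ⟨c, hc, h⟩ := univ_exp hd hκ hE h1 h2 h3 h4 hq (ε := ε / 16) (by linarith)
  refine ⟨c, hc, ?_⟩
  filter_upwards [h, hE.intg hd] with T g1 g2
  obtain ⟨gT, gd, gi⟩ := g2
  refine g1.trans (mul_le_mul_of_nonneg_left (mul_le_mul_of_nonneg_left ?_ (by positivity)) (by positivity))
  refine setIntegral_mono_set (gi.mono_set fun t ht => ht.1)
    (ae_restrict_of_ae (Eventually.of_forall fun t => Real.rpow_nonneg (TMA.mz_nn _ _) _)) (Eventually.of_forall fun t ht => ?_)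
  have ht' : t ∈ E T ∧ ∀ s ∈ rect a b B, ‖riemannZeta (s + t * I) - exp (q s)‖ < 4 * (ε / 16) := ht
  refine ⟨ht'.1, ε / 2, by linarith, fun z hz => ?_⟩
  have k1 := ht'.2 z (hsub hz)
  have k2 := hqf z hz
  calc ‖riemannZeta (z + t * I) - f z‖
      = ‖(riemannZeta (z + t * I) - exp (q z)) + (exp (q z) - f z)‖ := by congr 1; ring
    _ ≤ ‖riemannZeta (z + t * I) - exp (q z)‖ + ‖exp (q z) - f z‖ := norm_add_le _ _
    _ ≤ ε / 4 + ε / 4 := add_le_add (by linarith) k2.le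
    _ = ε / 2 := by ring

/-- admissible targets -/
theorem univ {d : ℝ → ℝ} (hd : Ad d) {k κ : ℝ} (hκ : 0 < κ) {E : ℝ → Set ℝ} (hE : Law d k κ E)
    {K : Set ℂ} (hK : IsCompact K) (hKs : K ⊆ {z | 1 / 2 < z.re ∧ z.re < 1}) (hKc : IsConnected Kᶜ)
    {f : ℂ → ℂ} (hc : ContinuousOn f K) (hh : DifferentiableOn ℂ f (interior K)) (h0 : ∀ z ∈ interior K, f z ≠ 0)
    {ε : ℝ} (hε : 0 < ε) :
    ∃ c : ℝ, 0 < c ∧ ∀ᶠ T in atTop, c ≤ (2 * d T) ^ (k ^ 2) * ((1 / T) *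
      ∫ t in {t : ℝ | t ∈ E T ∧ ∃ δ < ε, ∀ s ∈ K, ‖riemannZeta (s + t * I) - f s‖ ≤ δ}, mz (d T) t ^ (2 * k)) := by
  refine univ_gen hd hκ hE hK hKs ?_ hε
  intro η hη
  obtain ⟨p, hp0, hp⟩ := ZFM.zero_free_of_approx hK hKc f hc hh h0 (fun η hη => ZFM.mergelyan hK hKc f hc hh η hη)
    (η / 2) (half_pos hη)
  obtain ⟨q, hq⟩ := ZU.exp_approx hK hKc p hp0 (η / 2) (half_pos hη)
  refine ⟨fun z => q.eval z, q.differentiable, fun z hz => ?_⟩
  calc ‖exp (q.eval z) - f z‖ = ‖(exp (q.eval z) - p.eval z) + (p.eval z - f z)‖ := by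
        congr 1; ring
    _ ≤ ‖exp (q.eval z) - p.eval z‖ + ‖p.eval z - f z‖ := norm_add_le _ _
    _ < η / 2 + η / 2 := add_lt_add (hq z hz) (hp z hz)
    _ = η := by ring

/-! ### the moment measures near the line -/

theorem two_pow_le {δ s : ℝ} (hδ : 0 < δ) (hs : 0 ≤ s) : (2 * δ) ^ (-s) ≤ δ ^ (-s) :=
  Real.rpow_le_rpow_of_nonpos hδ (by linarith) (by linarith)

theorem lawSuper {d : ℝ → ℝ} (hd : Ad d) {k V : ℝ} (hk : 0 < k) (hV : k < V) :
    Law d k (akR k) fun T => {t : ℝ | t ∈ Set.Icc 0 T ∧ mz (d T) t ≤ (2 * d T) ^ (-V)} where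
  meas := by
    filter_upwards [small_ev hd] with T g
    exact measurableSet_Icc.inter (measurableSet_le (TMA.cont g.2.1).measurable measurable_const)
  sub T t ht := ht.1
  bd := by
    refine ⟨V * (2 * k), ?_⟩
    filter_upwards [small_ev hd] with T g t ht
    refine (Real.rpow_le_rpow (TMA.mz_nn _ _) ht.2 (by linarith)).trans ?_
    rw [← Real.rpow_mul (by linarith [g.1]), neg_mul]
    exact two_pow_le g.1 (by nlinarith)
  lim P hP F hF := Pool.Agent.U899.TM.superF hP hF hd hk hV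

theorem lawNeg {d : ℝ → ℝ} (hd : Ad d) {k V : ℝ} (hk : k < 0) (hV : V < k) :
    Law d k (akR k) fun T => {t : ℝ | t ∈ Set.Icc 0 T ∧ (2 * d T) ^ (-V) ≤ mz (d T) t} where
  meas := by
    filter_upwards [small_ev hd] with T g
    exact measurableSet_Icc.inter (measurableSet_le measurable_const (TMA.cont g.2.1).measurable)
  sub T t ht := ht.1
  bd := by
    refine ⟨V * (2 * k), ?_⟩
    filter_upwards [small_ev hd] with T g t ht
    have h0 : 0 < (2 * d T) ^ (-V) := Real.rpow_pos_of_pos (by linarith [g.1]) _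
    refine (Real.rpow_le_rpow_of_nonpos h0 ht.2 (by linarith)).trans ?_
    rw [← Real.rpow_mul (by linarith [g.1]), neg_mul]
    exact two_pow_le g.1 (by nlinarith)
  lim P hP F hF := Pool.Agent.U899.TM.negF hP hF hd hk hV

theorem win_bd {d : ℝ → ℝ} (hd : Ad d) {k : ℝ} (hk : 0 < k) (x : ℝ) : ∀ᶠ T : ℝ in atTop, ∀ z : ℝ, 0 ≤ z →
      z ≤ (2 * d T) ^ (-k) * Real.exp (x * Real.sqrt (Real.log (1 / (2 * d T)) / 2)) →
      z ^ (2 * k) ≤ (2 * d T) ^ (-(2 * k ^ 2) - 1) := by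
  filter_upwards [TMB.small hd, (TMB.sq_tendsto hd).eventually_ge_atTop (k * x),
    (TMB.lam_tendsto hd).eventually_ge_atTop 0] with T hT hs hL z hz hz2
  have hs2 : Real.sqrt (Real.log (1 / (2 * d T)) / 2) ^ 2 = Real.log (1 / (2 * d T)) / 2 :=
    Real.sq_sqrt (by linarith)
  have h0 : 0 ≤ Real.sqrt (Real.log (1 / (2 * d T)) / 2) := Real.sqrt_nonneg _
  have h2 := Real.rpow_le_rpow hz hz2 (by positivity : 0 ≤ 2 * k)
  refine h2.trans ?_
  rw [TMB.rpow_eq hT.1, TMB.rpow_eq hT.1, ← Real.exp_add, ← Real.exp_mul, Real.exp_le_exp]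
  nlinarith

/-- between two critical levels -/
theorem lawWindow {d : ℝ → ℝ} (hd : Ad d) {k : ℝ} (hk : 0 < k) {x y : ℝ} (hxy : x < y) :
    Law d k (akR k * (Phi y - Phi x)) fun T => {t : ℝ | t ∈ Set.Icc 0 T ∧
      (2 * d T) ^ (-k) * Real.exp (x * Real.sqrt (Real.log (1 / (2 * d T)) / 2)) < mz (d T) t ∧
      mz (d T) t ≤ (2 * d T) ^ (-k) * Real.exp (y * Real.sqrt (Real.log (1 / (2 * d T)) / 2))} where
  meas := by
    filter_upwards [small_ev hd] with T g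
    exact measurableSet_Icc.inter ((measurableSet_lt measurable_const (TMA.cont g.2.1).measurable).inter
      (measurableSet_le (TMA.cont g.2.1).measurable measurable_const))
  sub T t ht := ht.1
  bd := by
    refine ⟨2 * k ^ 2 + 1, ?_⟩
    filter_upwards [small_ev hd, win_bd hd hk y] with T g g2 t ht
    refine (g2 _ (TMA.mz_nn _ _) ht.2.2).trans ?_
    rw [show -(2 * k ^ 2) - 1 = -(2 * k ^ 2 + 1) by ring]
    exact two_pow_le g.1 (by positivity)
  lim P hP F hF := by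
    have h1 := (Pool.Agent.U899.TM.windowF hP hF hd hk y).sub (Pool.Agent.U899.TM.windowF hP hF hd hk x)
    have e4 : akR k * Phi y * tm k P F - akR k * Phi x * tm k P F = akR k * (Phi y - Phi x) * tm k P F := by ring
    rw [e4] at h1
    refine h1.congr' ?_
    filter_upwards [small_ev hd, win_bd hd hk y] with T g g2
    obtain ⟨S, hS⟩ : ∃ S : ℝ → Set ℝ, S = fun x => {t : ℝ | t ∈ Set.Icc 0 T ∧
      mz (d T) t ≤ (2 * d T) ^ (-k) * Real.exp (x * Real.sqrt (Real.log (1 / (2 * d T)) / 2))} := ⟨_, rfl⟩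
    have hs0 : 0 ≤ Real.sqrt (Real.log (1 / (2 * d T)) / 2) := Real.sqrt_nonneg _
    have hd0 : 0 ≤ (2 * d T) ^ (-k) := Real.rpow_nonneg (by linarith [g.1]) _
    have hsub : S x ⊆ S y := by
      rw [hS]
      rintro t ⟨h2, h3⟩
      refine ⟨h2, h3.trans (mul_le_mul_of_nonneg_left (Real.exp_le_exp.2 ?_) hd0)⟩
      nlinarith
    have hSm : ∀ x, MeasurableSet (S x) := fun x => by
      rw [hS]
      exact measurableSet_Icc.inter (measurableSet_le (TMA.cont g.2.1).measurable measurable_const)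
    have hI : IntegrableOn (fun t => F (pt P t) * mz (d T) t ^ (2 * k)) (S y) :=
      (Pool.Agent.U899.TM.OLF.FpowInt (P := P) hF (by linarith [g.2.1]) hk.le T).mono_set (by
        rw [hS]
        exact fun t ht => ht.1)
    have h5 := setIntegral_sdiff (hSm x) hI hsub
    have e6 : {t : ℝ | t ∈ Set.Icc 0 T ∧
      (2 * d T) ^ (-k) * Real.exp (x * Real.sqrt (Real.log (1 / (2 * d T)) / 2)) < mz (d T) t ∧
      mz (d T) t ≤ (2 * d T) ^ (-k) * Real.exp (y * Real.sqrt (Real.log (1 / (2 * d T)) / 2))} = S y \ S x := by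
      rw [hS]
      ext t
      simp only [Set.mem_ofPred_eq, Set.mem_sdiff, not_and, not_le]
      constructor
      · rintro ⟨h6, h7, h8⟩
        exact ⟨⟨h6, h8⟩, fun _ => h7⟩
      · rintro ⟨⟨h6, h7⟩, h8⟩
        exact ⟨h6, h8 h6, h7⟩
    rw [e6, h5, hS]
    ring

end Pool.Agent.U899.UM
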